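import Mathlib

open MeasureTheory Complex Set Filter Topology

namespace Pool.Agent.Lib_helper37.JO

/-! ### The integrand of the local ray integral in the variable `v = log tan (θ/2)` -/

/-- the base `cosh τ cosh v - σ sinh v` -/
noncomputable def DD (σ : ℝ) (v : ℂ) (τ : ℝ) : ℂ :=
  (Real.cosh τ : ℂ) * Complex.cosh v - σ * Complex.sinh v

/-- its derivative in `v` -/
noncomputable def DV (σ : ℝ) (v : ℂ) (τ : ℝ) : ℂ :=
  (Real.cosh τ : ℂ) * Complex.sinh v - σ * Complex.cosh v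

/-- the exponent `1/2 + i κ` -/
noncomputable def sx (κ : ℝ) : ℂ := (1 / 2 : ℂ) + Complex.I * κ

/-- the power `DD ^ (-(1/2 + i κ))` -/
noncomputable def PP (σ κ : ℝ) (v : ℂ) (τ : ℝ) : ℂ := (DD σ v τ) ^ (-(sx κ))

/-- the logarithmic derivative of the base -/
noncomputable def RR (σ : ℝ) (v : ℂ) (τ : ℝ) : ℂ := DV σ v τ / DD σ v τ

/-- the moments `∫ DD ^ (-s) (DV / DD) ^ j` -/
noncomputable def WW (σ κ : ℝ) (j : ℕ) (v : ℂ) : ℂ := ∫ τ : ℝ, PP σ κ v τ * (RR σ v τ) ^ j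

lemma sx_re (κ : ℝ) : (sx κ).re = 1 / 2 := by simp [sx]

lemma sx_im (κ : ℝ) : (sx κ).im = κ := by simp [sx]

lemma cosh_parts (v : ℂ) : Complex.cosh v = ((Real.cosh v.re * Real.cos v.im : ℝ) : ℂ)
    + ((Real.sinh v.re * Real.sin v.im : ℝ) : ℂ) * I := by
  conv_lhs => rw [← Complex.re_add_im v, Complex.cosh_add, Complex.cosh_mul_I, Complex.sinh_mul_I]
  push_cast
  ring

lemma sinh_parts (v : ℂ) : Complex.sinh v = ((Real.sinh v.re * Real.cos v.im : ℝ) : ℂ)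
    + ((Real.cosh v.re * Real.sin v.im : ℝ) : ℂ) * I := by
  conv_lhs => rw [← Complex.re_add_im v, Complex.sinh_add, Complex.cosh_mul_I, Complex.sinh_mul_I]
  push_cast
  ring

lemma cosh_re' (v : ℂ) : (Complex.cosh v).re = Real.cosh v.re * Real.cos v.im := by
  rw [cosh_parts, Complex.add_re, Complex.ofReal_re, Complex.re_ofReal_mul, Complex.I_re]; ring

lemma cosh_im' (v : ℂ) : (Complex.cosh v).im = Real.sinh v.re * Real.sin v.im := by
  rw [cosh_parts, Complex.add_im, Complex.ofReal_im, Complex.im_ofReal_mul, Complex.I_im]; ring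

lemma sinh_re' (v : ℂ) : (Complex.sinh v).re = Real.sinh v.re * Real.cos v.im := by
  rw [sinh_parts, Complex.add_re, Complex.ofReal_re, Complex.re_ofReal_mul, Complex.I_re]; ring

lemma sinh_im' (v : ℂ) : (Complex.sinh v).im = Real.cosh v.re * Real.sin v.im := by
  rw [sinh_parts, Complex.add_im, Complex.ofReal_im, Complex.im_ofReal_mul, Complex.I_im]; ring

lemma norm_sq_cosh (v : ℂ) : ‖Complex.cosh v‖ ^ 2 = Real.sinh v.re ^ 2 + Real.cos v.im ^ 2 := by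
  rw [← Complex.normSq_eq_norm_sq, Complex.normSq_apply, cosh_re', cosh_im']
  have h1 := Real.cosh_sq v.re
  have h2 := Real.sin_sq_add_cos_sq v.im
  have h3 : Real.sin v.im ^ 2 = 1 - Real.cos v.im ^ 2 := by linarith
  calc _ = Real.cosh v.re ^ 2 * Real.cos v.im ^ 2 + Real.sinh v.re ^ 2 * Real.sin v.im ^ 2 := by ring
    _ = _ := by rw [h1, h3]; ring

lemma norm_sq_sinh (v : ℂ) : ‖Complex.sinh v‖ ^ 2 = Real.sinh v.re ^ 2 + Real.sin v.im ^ 2 := by
  rw [← Complex.normSq_eq_norm_sq, Complex.normSq_apply, sinh_re', sinh_im']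
  have h1 := Real.cosh_sq v.re
  have h2 := Real.sin_sq_add_cos_sq v.im
  have h3 : Real.cos v.im ^ 2 = 1 - Real.sin v.im ^ 2 := by linarith
  calc _ = Real.sinh v.re ^ 2 * Real.cos v.im ^ 2 + Real.cosh v.re ^ 2 * Real.sin v.im ^ 2 := by ring
    _ = _ := by rw [h1, h3]; ring

lemma norm_cosh_le (v : ℂ) : ‖Complex.cosh v‖ ≤ Real.cosh v.re := by
  refine le_of_sq_le_sq ?_ (Real.cosh_pos _).le
  rw [norm_sq_cosh, Real.cosh_sq]
  have := Real.cos_sq_le_one v.im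
  linarith

lemma norm_sinh_le (v : ℂ) : ‖Complex.sinh v‖ ≤ Real.cosh v.re := by
  refine le_of_sq_le_sq ?_ (Real.cosh_pos _).le
  rw [norm_sq_sinh, Real.cosh_sq]
  have := Real.sin_sq_le_one v.im
  linarith

lemma DD_re (σ : ℝ) (v : ℂ) (τ : ℝ) : (DD σ v τ).re =
    Real.cos v.im * (Real.cosh τ * Real.cosh v.re - σ * Real.sinh v.re) := by
  unfold DD
  rw [Complex.sub_re, Complex.re_ofReal_mul, Complex.re_ofReal_mul, cosh_re', sinh_re']
  ring

lemma cosh_sub_abs_sinh (a : ℝ) : Real.cosh a - |Real.sinh a| = Real.exp (-|a|) := by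
  rw [Real.abs_sinh, ← Real.cosh_abs a, Real.cosh_sub_sinh]

lemma DD_re_ge {σ : ℝ} (hσ : |σ| ≤ 1) (v : ℂ) (τ : ℝ) (hv : 0 ≤ Real.cos v.im) :
    Real.cos v.im * Real.exp (-|v.re|) * Real.cosh τ ≤ (DD σ v τ).re := by
  rw [DD_re, mul_assoc]
  refine mul_le_mul_of_nonneg_left ?_ hv
  have h1 : σ * Real.sinh v.re ≤ |Real.sinh v.re| := by
    calc σ * Real.sinh v.re ≤ |σ * Real.sinh v.re| := le_abs_self _
      _ = |σ| * |Real.sinh v.re| := abs_mul _ _
      _ ≤ 1 * |Real.sinh v.re| := mul_le_mul_of_nonneg_right hσ (abs_nonneg _)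
      _ = _ := one_mul _
  have h2 := Real.one_le_cosh τ
  rw [← cosh_sub_abs_sinh]
  nlinarith [abs_nonneg (Real.sinh v.re)]

lemma norm_DV_le {σ : ℝ} (hσ : |σ| ≤ 1) (v : ℂ) (τ : ℝ) :
    ‖DV σ v τ‖ ≤ 2 * Real.cosh v.re * Real.cosh τ := by
  unfold DV
  have h2 := Real.one_le_cosh τ
  have h3 := norm_sinh_le v
  have h4 := norm_cosh_le v
  calc _ ≤ ‖(Real.cosh τ : ℂ) * Complex.sinh v‖ + ‖(σ : ℂ) * Complex.cosh v‖ := norm_sub_le _ _
    _ = Real.cosh τ * ‖Complex.sinh v‖ + |σ| * ‖Complex.cosh v‖ := by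
        rw [norm_mul, norm_mul, Complex.norm_real, Complex.norm_real, Real.norm_eq_abs,
          Real.norm_eq_abs, abs_of_pos (Real.cosh_pos τ)]
    _ ≤ Real.cosh τ * Real.cosh v.re + 1 * Real.cosh v.re := by
        refine add_le_add (mul_le_mul_of_nonneg_left h3 (Real.cosh_pos τ).le)
          (mul_le_mul hσ h4 (norm_nonneg _) zero_le_one)
    _ ≤ _ := by nlinarith [Real.cosh_pos v.re]

lemma norm_DD_le {σ : ℝ} (hσ : |σ| ≤ 1) (v : ℂ) (τ : ℝ) :
    ‖DD σ v τ‖ ≤ 2 * Real.cosh v.re * Real.cosh τ := by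
  unfold DD
  have h2 := Real.one_le_cosh τ
  have h3 := norm_sinh_le v
  have h4 := norm_cosh_le v
  calc _ ≤ ‖(Real.cosh τ : ℂ) * Complex.cosh v‖ + ‖(σ : ℂ) * Complex.sinh v‖ := norm_sub_le _ _
    _ = Real.cosh τ * ‖Complex.cosh v‖ + |σ| * ‖Complex.sinh v‖ := by
        rw [norm_mul, norm_mul, Complex.norm_real, Complex.norm_real, Real.norm_eq_abs,
          Real.norm_eq_abs, abs_of_pos (Real.cosh_pos τ)]
    _ ≤ Real.cosh τ * Real.cosh v.re + 1 * Real.cosh v.re := by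
        refine add_le_add (mul_le_mul_of_nonneg_left h4 (Real.cosh_pos τ).le)
          (mul_le_mul hσ h3 (norm_nonneg _) zero_le_one)
    _ ≤ _ := by nlinarith [Real.cosh_pos v.re]

lemma DD_re_pos {σ : ℝ} (hσ : |σ| ≤ 1) (v : ℂ) (τ : ℝ) (hv : 0 < Real.cos v.im) :
    0 < (DD σ v τ).re := by
  refine lt_of_lt_of_le ?_ (DD_re_ge hσ v τ hv.le)
  have := Real.cosh_pos τ
  positivity

lemma DD_ne_zero {σ : ℝ} (hσ : |σ| ≤ 1) (v : ℂ) (τ : ℝ) (hv : 0 < Real.cos v.im) :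
    DD σ v τ ≠ 0 := by
  intro h
  have := DD_re_pos hσ v τ hv
  rw [h] at this
  simp at this

lemma DD_slit {σ : ℝ} (hσ : |σ| ≤ 1) (v : ℂ) (τ : ℝ) (hv : 0 < Real.cos v.im) :
    DD σ v τ ∈ Complex.slitPlane := Or.inl (DD_re_pos hσ v τ hv)

/-- a uniform lower bound on a box -/
lemma norm_DD_ge {σ : ℝ} (hσ : |σ| ≤ 1) {v : ℂ} (τ : ℝ) {A c : ℝ} (hA : |v.re| ≤ A)
    (hc : 0 < c) (hcv : c ≤ Real.cos v.im) : c * Real.exp (-A) * Real.cosh τ ≤ ‖DD σ v τ‖ := by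
  refine le_trans ?_ (Complex.re_le_norm _)
  refine le_trans ?_ (DD_re_ge hσ v τ (hc.le.trans hcv))
  refine mul_le_mul_of_nonneg_right ?_ (Real.cosh_pos τ).le
  refine mul_le_mul hcv (Real.exp_le_exp.2 (by linarith)) (Real.exp_pos _).le (hc.le.trans hcv)

lemma norm_cpow_sx_le (κ : ℝ) (z : ℂ) :
    ‖z ^ (-(sx κ))‖ ≤ ‖z‖ ^ (-(1 / 2) : ℝ) * Real.exp (Real.pi * |κ|) := by
  refine (Complex.norm_cpow_le z (-(sx κ))).trans ?_
  rw [Complex.neg_re, Complex.neg_im, sx_re, sx_im, div_eq_mul_inv, ← Real.exp_neg]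
  refine mul_le_mul_of_nonneg_left (Real.exp_le_exp.2 ?_) (Real.rpow_nonneg (norm_nonneg _) _)
  calc -(arg z * -κ) ≤ |-(arg z * -κ)| := le_abs_self _
    _ = |arg z| * |κ| := by rw [abs_neg, abs_mul, abs_neg]
    _ ≤ Real.pi * |κ| := mul_le_mul_of_nonneg_right (Complex.abs_arg_le_pi z) (abs_nonneg _)

/-- the exact size of the power -/
lemma norm_cpow_sx_eq (κ : ℝ) {z : ℂ} (hz : z ≠ 0) :
    ‖z ^ (-(sx κ))‖ = ‖z‖ ^ (-(1 / 2) : ℝ) * Real.exp (arg z * κ) := by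
  rw [Complex.norm_cpow_of_ne_zero hz, Complex.neg_re, Complex.neg_im, sx_re, sx_im,
    div_eq_mul_inv, ← Real.exp_neg]
  congr 2
  ring

/-- the majorant `(cosh τ)^(-1/2)` -/
noncomputable def hc (τ : ℝ) : ℝ := (Real.cosh τ) ^ (-(1 / 2) : ℝ)

lemma hc_pos (τ : ℝ) : 0 < hc τ := Real.rpow_pos_of_pos (Real.cosh_pos τ) _

lemma hc_le (τ : ℝ) : hc τ ≤ 2 * Real.exp (-(|τ| / 2)) := by
  unfold hc
  have h0 : Real.exp |τ| / 2 ≤ Real.cosh τ := by
    rw [← Real.cosh_abs, Real.cosh_eq]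
    have := Real.exp_pos (-|τ|)
    linarith
  have h1 : (Real.cosh τ) ^ (-(1 / 2) : ℝ) ≤ (Real.exp |τ| / 2) ^ (-(1 / 2) : ℝ) := by
    refine Real.rpow_le_rpow_of_nonpos (by positivity) h0 (by norm_num)
  refine h1.trans ?_
  rw [Real.div_rpow (Real.exp_pos _).le (by norm_num), ← Real.exp_mul, div_eq_mul_inv,
    ← Real.rpow_neg (by norm_num : (0:ℝ) ≤ 2), mul_comm]
  have h2 : |τ| * -(1 / 2) = -(|τ| / 2) := by ring
  rw [h2]
  refine mul_le_mul_of_nonneg_right ?_ (Real.exp_pos _).le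
  calc (2:ℝ) ^ (-(-(1 / 2)) : ℝ) ≤ (2:ℝ) ^ (1:ℝ) :=
        Real.rpow_le_rpow_of_exponent_le (by norm_num) (by norm_num)
    _ = 2 := Real.rpow_one _

lemma hc_cont : Continuous hc := by
  unfold hc
  exact Real.continuous_cosh.rpow_const (fun τ => Or.inl (Real.cosh_pos τ).ne')

lemma integrable_exp_abs_half : Integrable (fun τ : ℝ => Real.exp (-(|τ| / 2))) := by
  have h1 : IntegrableOn (fun τ : ℝ => Real.exp (-(|τ| / 2))) (Ioi 0) := by
    have := exp_neg_integrableOn_Ioi 0 (by norm_num : (0:ℝ) < 1 / 2)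
    refine this.congr_fun (fun τ hτ => ?_) measurableSet_Ioi
    simp only []
    rw [abs_of_pos (by simpa using hτ)]
    congr 1; ring
  have h2 : IntegrableOn (fun τ : ℝ => Real.exp (-(|τ| / 2))) (Iic 0) := by
    have h3 : IntegrableOn (fun τ : ℝ => Real.exp (-(|τ| / 2))) (Iio 0) := by
      have h4 := h1.comp_neg
      simpa using h4
    rw [integrableOn_Iic_iff_integrableOn_Iio]
    exact h3
  have := h2.union h1
  rwa [Iic_union_Ioi, integrableOn_univ] at this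

lemma hc_integrable : Integrable hc := by
  refine (integrable_exp_abs_half.const_mul 2).mono' hc_cont.aestronglyMeasurable ?_
  refine Filter.Eventually.of_forall (fun τ => ?_)
  rw [Real.norm_eq_abs, abs_of_pos (hc_pos τ)]
  exact hc_le τ

end Pool.Agent.Lib_helper37.JO
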