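import Pool.Agent.Lib_helper37.JO.A9

open MeasureTheory Complex Set Filter Topology

namespace Pool.Agent.Lib_helper37.JO

/-! ### The bound `θ^(1/2) log (1/θ)` on the real segment, uniform in `κ` -/

lemma DD_real (σ t τ : ℝ) :
    DD σ (t : ℂ) τ = ((Real.cosh τ * Real.cosh t - σ * Real.sinh t : ℝ) : ℂ) := by
  unfold DD; push_cast; ring

lemma DV_real (σ t τ : ℝ) :
    DV σ (t : ℂ) τ = ((Real.cosh τ * Real.sinh t - σ * Real.cosh t : ℝ) : ℂ) := by
  unfold DV; push_cast; ring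

/-- the real base -/
noncomputable def dr (σ t τ : ℝ) : ℝ := Real.cosh τ * Real.cosh t - σ * Real.sinh t

lemma dr_ge {σ : ℝ} (hσ : |σ| ≤ 1) (t τ : ℝ) :
    Real.cosh t * (Real.cosh τ - 1 + Real.exp (-|t|) ^ 2) ≤ dr σ t τ := by
  unfold dr
  have h1 : σ * Real.sinh t ≤ |Real.sinh t| := by
    calc σ * Real.sinh t ≤ |σ * Real.sinh t| := le_abs_self _
      _ = |σ| * |Real.sinh t| := abs_mul _ _
      _ ≤ 1 * |Real.sinh t| := mul_le_mul_of_nonneg_right hσ (abs_nonneg _)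
      _ = _ := one_mul _
  have h2 := cosh_sub_abs_sinh t
  have h3 : Real.cosh t ≤ Real.exp |t| := by
    rw [← Real.cosh_abs, Real.cosh_eq]
    have : Real.exp (-|t|) ≤ Real.exp |t| := Real.exp_le_exp.2 (by linarith [abs_nonneg t])
    linarith
  have h4 : Real.exp |t| * Real.exp (-|t|) = 1 := by rw [← Real.exp_add]; simp
  have h5 : Real.cosh t * Real.exp (-|t|) ^ 2 ≤ Real.exp (-|t|) := by
    have h6 : 0 < Real.exp (-|t|) := Real.exp_pos _
    calc Real.cosh t * Real.exp (-|t|) ^ 2 ≤ Real.exp |t| * Real.exp (-|t|) ^ 2 := by gcongr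
      _ = (Real.exp |t| * Real.exp (-|t|)) * Real.exp (-|t|) := by ring
      _ = _ := by rw [h4, one_mul]
  nlinarith

lemma dr_pos {σ : ℝ} (hσ : |σ| ≤ 1) (t τ : ℝ) : 0 < dr σ t τ := by
  refine lt_of_lt_of_le ?_ (dr_ge hσ t τ)
  have h1 := Real.one_le_cosh τ
  have h2 := Real.cosh_pos t
  have h3 := Real.exp_pos (-|t|)
  have : 0 < Real.cosh τ - 1 + Real.exp (-|t|) ^ 2 := by
    have : 0 < Real.exp (-|t|) ^ 2 := by positivity
    linarith
  positivity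

lemma cosh_sub_one_ge (τ : ℝ) : τ ^ 2 / 2 ≤ Real.cosh τ - 1 := by
  have h1 : Real.cosh τ = 1 + 2 * Real.sinh (τ / 2) ^ 2 := by
    have h2 : τ = 2 * (τ / 2) := by ring
    conv_lhs => rw [h2, Real.cosh_two_mul, Real.cosh_sq]
    ring
  have h3 : (τ / 2) ^ 2 ≤ Real.sinh (τ / 2) ^ 2 := by
    rw [← sq_abs (τ / 2), ← sq_abs (Real.sinh _), Real.abs_sinh]
    exact pow_le_pow_left₀ (abs_nonneg _) (Real.self_le_sinh_iff.2 (abs_nonneg _)) 2
  nlinarith

lemma kern_bound_one {δ : ℝ} (hδ : 0 < δ) (τ : ℝ) :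
    (Real.cosh τ - 1 + δ ^ 2) ^ (-(1 / 2) : ℝ) ≤ 2 / (δ + |τ|) := by
  have h1 := cosh_sub_one_ge τ
  have hpos : 0 < δ + |τ| := by positivity
  have h2 : ((δ + |τ|) / 2) ^ 2 ≤ Real.cosh τ - 1 + δ ^ 2 := by
    have h3 := sq_abs τ
    nlinarith [sq_nonneg (δ - |τ|)]
  have h4 : (Real.cosh τ - 1 + δ ^ 2) ^ (-(1 / 2) : ℝ) ≤ (((δ + |τ|) / 2) ^ 2) ^ (-(1 / 2) : ℝ) :=
    Real.rpow_le_rpow_of_nonpos (by positivity) h2 (by norm_num)
  refine h4.trans (le_of_eq ?_)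
  rw [← Real.rpow_natCast, ← Real.rpow_mul (by positivity)]
  norm_num
  rw [Real.rpow_neg_one, inv_div]

lemma kern_bound_two {δ : ℝ} {τ : ℝ} (hτ : 1 ≤ |τ|) :
    (Real.cosh τ - 1 + δ ^ 2) ^ (-(1 / 2) : ℝ) ≤ 2 * hc τ := by
  have h1 : (4 / 3 : ℝ) ≤ Real.cosh τ := by
    have h2 := cosh_sub_one_ge τ
    have h3 : 1 ≤ τ ^ 2 := by rw [← sq_abs]; nlinarith
    linarith
  have hc1 : 0 < Real.cosh τ := Real.cosh_pos τ
  have h2 : Real.cosh τ / 4 ≤ Real.cosh τ - 1 + δ ^ 2 := by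
    nlinarith [sq_nonneg δ]
  have h4 : (Real.cosh τ - 1 + δ ^ 2) ^ (-(1 / 2) : ℝ) ≤ (Real.cosh τ / 4) ^ (-(1 / 2) : ℝ) :=
    Real.rpow_le_rpow_of_nonpos (by positivity) h2 (by norm_num)
  refine h4.trans (le_of_eq ?_)
  unfold hc
  rw [Real.div_rpow hc1.le (by norm_num)]
  have h5 : (4 : ℝ) ^ (-(1 / 2) : ℝ) = 1 / 2 := by
    have : (4 : ℝ) = 2 ^ (2 : ℝ) := by norm_num
    rw [this, ← Real.rpow_mul (by norm_num)]
    norm_num
  rw [h5]
  ring

lemma kern_cont {δ : ℝ} (hδ : 0 < δ) :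
    Continuous (fun τ : ℝ => (Real.cosh τ - 1 + δ ^ 2) ^ (-(1 / 2) : ℝ)) := by
  refine Continuous.rpow_const (by fun_prop) (fun τ => Or.inl ?_)
  have h1 := Real.one_le_cosh τ
  have h2 : 0 < δ ^ 2 := by positivity
  linarith

lemma kern_integral {δ : ℝ} (hδ : 0 < δ) (hδ1 : δ ≤ 1) :
    Integrable (fun τ : ℝ => (Real.cosh τ - 1 + δ ^ 2) ^ (-(1 / 2) : ℝ)) ∧
    ∫ τ : ℝ, (Real.cosh τ - 1 + δ ^ 2) ^ (-(1 / 2) : ℝ) ≤
      4 * (1 + Real.log (1 / δ)) + 2 * C0 := by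
  set k : ℝ → ℝ := fun τ => (Real.cosh τ - 1 + δ ^ 2) ^ (-(1 / 2) : ℝ) with hk
  have hk0 : ∀ τ, 0 ≤ k τ := fun τ => by
    have h1 := Real.one_le_cosh τ
    have h2 : 0 < δ ^ 2 := by positivity
    exact Real.rpow_nonneg (by linarith) _
  have hkc : Continuous k := kern_cont hδ
  -- a single majorant for integrability
  have hmaj : ∀ τ, k τ ≤ (2 / δ) * (3 * hc τ) := by
    intro τ
    rcases le_or_gt 1 |τ| with h | h
    · refine (kern_bound_two h).trans ?_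
      have h1 := (hc_pos τ).le
      have h2 : 1 ≤ 1 / δ := by rw [le_div_iff₀ hδ]; linarith
      have h3 : (2 / δ) * (3 * hc τ) = 6 * hc τ * (1 / δ) := by ring
      rw [h3]
      nlinarith
    · refine (kern_bound_one hδ τ).trans ?_
      have h1 : 2 / (δ + |τ|) ≤ 2 / δ := by
        apply div_le_div_of_nonneg_left (by norm_num) hδ
        linarith [abs_nonneg τ]
      have h2 : 1 ≤ 3 * hc τ := by
        have h3 : Real.cosh τ ≤ 2 := by
          have h4 : Real.cosh τ ≤ Real.cosh 1 := Real.cosh_le_cosh.2 (by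
            rw [abs_one]; exact h.le)
          refine h4.trans ?_
          rw [Real.cosh_eq]
          have h5 := Real.exp_one_lt_d9
          have h6 : Real.exp (-1) < 1 := by rw [Real.exp_lt_one_iff]; norm_num
          linarith
        have h7 : (2:ℝ) ^ (-(1 / 2) : ℝ) ≤ hc τ :=
          Real.rpow_le_rpow_of_nonpos (Real.cosh_pos τ) h3 (by norm_num)
        have h8 : (2:ℝ) ^ (-1 : ℝ) ≤ (2:ℝ) ^ (-(1 / 2) : ℝ) :=
          Real.rpow_le_rpow_of_exponent_le (by norm_num) (by norm_num)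
        rw [Real.rpow_neg_one] at h8
        linarith
      calc 2 / (δ + |τ|) ≤ 2 / δ * 1 := by rw [mul_one]; exact h1
        _ ≤ _ := mul_le_mul_of_nonneg_left h2 (by positivity)
  have hint : Integrable k := by
    refine ((hc_integrable.const_mul 3).const_mul (2 / δ)).mono' hkc.aestronglyMeasurable
      (Filter.Eventually.of_forall (fun τ => ?_))
    rw [Real.norm_eq_abs, abs_of_nonneg (hk0 τ)]
    exact hmaj τ
  refine ⟨hint, ?_⟩
  have heven : ∀ τ, k (-τ) = k τ := fun τ => by simp only [hk, Real.cosh_neg]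
  have hsplit : ∫ τ : ℝ, k τ = 2 * ((∫ τ in Ioc (0:ℝ) 1, k τ) + ∫ τ in Ioi (1:ℝ), k τ) := by
    have h1 : ∫ τ : ℝ, k τ = (∫ τ in Iic (0:ℝ), k τ) + ∫ τ in Ioi (0:ℝ), k τ :=
      (intervalIntegral.integral_Iic_add_Ioi hint.integrableOn hint.integrableOn).symm
    have h2 : ∫ τ in Iic (0:ℝ), k τ = ∫ τ in Ioi (0:ℝ), k τ := by
      have := integral_comp_neg_Iic (0:ℝ) k
      simp only [heven, neg_zero] at this
      exact this
    have h3 : ∫ τ in Ioi (0:ℝ), k τ = (∫ τ in Ioc (0:ℝ) 1, k τ) + ∫ τ in Ioi (1:ℝ), k τ := by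
      rw [← Ioc_union_Ioi_eq_Ioi (zero_le_one' ℝ)]
      exact setIntegral_union (Ioc_disjoint_Ioi le_rfl) measurableSet_Ioi hint.integrableOn
        hint.integrableOn
    rw [h1, h2, h3]; ring
  have h1 : ∫ τ in Ioc (0:ℝ) 1, k τ ≤ 2 * (1 + Real.log (1 / δ)) := by
    have hF : ∀ τ ∈ Set.uIcc (0:ℝ) 1, HasDerivAt (fun τ => 2 * Real.log (δ + τ)) (2 / (δ + τ)) τ := by
      intro τ hτ
      rw [uIcc_of_le (zero_le_one' ℝ)] at hτ
      have h2 : HasDerivAt (fun τ : ℝ => δ + τ) 1 τ := by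
        simpa using (hasDerivAt_id τ).const_add δ
      have h3 := (h2.log (by have := hτ.1; linarith)).const_mul 2
      refine h3.congr_deriv ?_
      ring
    have hcont : ContinuousOn (fun τ : ℝ => 2 / (δ + τ)) (Set.uIcc (0:ℝ) 1) := by
      rw [uIcc_of_le (zero_le_one' ℝ)]
      refine ContinuousOn.div (by fun_prop) (by fun_prop) (fun τ hτ => ?_)
      have := hτ.1; linarith
    have hi : IntervalIntegrable (fun τ : ℝ => 2 / (δ + τ)) volume 0 1 :=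
      hcont.intervalIntegrable
    have hval := intervalIntegral.integral_eq_sub_of_hasDerivAt hF hi
    rw [intervalIntegral.integral_of_le (zero_le_one' ℝ)] at hval
    have h2 : ∫ τ in Ioc (0:ℝ) 1, k τ ≤ ∫ τ in Ioc (0:ℝ) 1, 2 / (δ + τ) := by
      refine setIntegral_mono_on hint.integrableOn
        ((intervalIntegrable_iff_integrableOn_Ioc_of_le (zero_le_one' ℝ)).1 hi) measurableSet_Ioc
        (fun τ hτ => ?_)
      have := kern_bound_one hδ τ
      rwa [abs_of_pos hτ.1] at this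
    rw [hval] at h2
    refine h2.trans ?_
    rw [add_zero]
    have h3 : Real.log (1 / δ) = -Real.log δ := by rw [one_div, Real.log_inv]
    have h4 : Real.log (δ + 1) ≤ 1 := by
      have h5 := Real.log_le_sub_one_of_pos (show (0:ℝ) < δ + 1 by linarith)
      linarith
    rw [h3]; linarith
  have h2 : ∫ τ in Ioi (1:ℝ), k τ ≤ C0 := by
    have h3 : ∫ τ in Ioi (1:ℝ), k τ ≤ ∫ τ in Ioi (1:ℝ), 2 * hc τ := by
      refine setIntegral_mono_on hint.integrableOn (hc_integrable.const_mul 2).integrableOn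
        measurableSet_Ioi (fun τ hτ => ?_)
      refine kern_bound_two ?_
      rw [abs_of_pos (by linarith [hτ.out])]
      exact hτ.out.le
    refine h3.trans ?_
    rw [integral_const_mul]
    have h4 : 2 * ∫ τ in Ioi (1:ℝ), hc τ ≤ C0 := by
      have h5 : ∫ τ in Ioi (1:ℝ), hc τ ≤ ∫ τ in Ioi (0:ℝ), hc τ :=
        setIntegral_mono_set hc_integrable.integrableOn
          (Filter.Eventually.of_forall (fun τ => (hc_pos τ).le))
          (Ioi_subset_Ioi (zero_le_one' ℝ)).eventuallyLE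
      have h6 : C0 = 2 * ∫ τ in Ioi (0:ℝ), hc τ := by
        unfold C0
        have h7 : ∫ τ : ℝ, hc τ = (∫ τ in Iic (0:ℝ), hc τ) + ∫ τ in Ioi (0:ℝ), hc τ :=
          (intervalIntegral.integral_Iic_add_Ioi hc_integrable.integrableOn
            hc_integrable.integrableOn).symm
        have h8 : ∫ τ in Iic (0:ℝ), hc τ = ∫ τ in Ioi (0:ℝ), hc τ := by
          have := integral_comp_neg_Iic (0:ℝ) hc
          have h9 : ∀ τ, hc (-τ) = hc τ := fun τ => by unfold hc; rw [Real.cosh_neg]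
          simp only [h9, neg_zero] at this
          exact this
        rw [h7, h8]; ring
      rw [h6]; linarith
    exact h4
  rw [hsplit]
  linarith

/-- the bound for the base to the power `-1/2` -/
lemma dr_integral {σ : ℝ} (hσ : |σ| ≤ 1) (t : ℝ) :
    Integrable (fun τ : ℝ => (dr σ t τ) ^ (-(1 / 2) : ℝ)) ∧
    ∫ τ : ℝ, (dr σ t τ) ^ (-(1 / 2) : ℝ) ≤
      (Real.cosh t) ^ (-(1 / 2) : ℝ) * (4 * (1 + |t|) + 2 * C0) := by
  have hδ : 0 < Real.exp (-|t|) := Real.exp_pos _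
  have hδ1 : Real.exp (-|t|) ≤ 1 := by rw [Real.exp_le_one_iff]; linarith [abs_nonneg t]
  obtain ⟨h1, h2⟩ := kern_integral hδ hδ1
  have hct := Real.cosh_pos t
  have hle : ∀ τ, (dr σ t τ) ^ (-(1 / 2) : ℝ) ≤ (Real.cosh t) ^ (-(1 / 2) : ℝ) *
      (Real.cosh τ - 1 + Real.exp (-|t|) ^ 2) ^ (-(1 / 2) : ℝ) := by
    intro τ
    have h3 := Real.one_le_cosh τ
    have h4 : 0 < Real.exp (-|t|) ^ 2 := by positivity
    have h5 : 0 < Real.cosh τ - 1 + Real.exp (-|t|) ^ 2 := by linarith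
    rw [← Real.mul_rpow hct.le h5.le]
    exact Real.rpow_le_rpow_of_nonpos (by positivity) (dr_ge hσ t τ) (by norm_num)
  have hcont : Continuous (fun τ : ℝ => (dr σ t τ) ^ (-(1 / 2) : ℝ)) := by
    refine Continuous.rpow_const (by unfold dr; fun_prop) (fun τ => Or.inl (dr_pos hσ t τ).ne')
  have hint : Integrable (fun τ : ℝ => (dr σ t τ) ^ (-(1 / 2) : ℝ)) := by
    refine (h1.const_mul ((Real.cosh t) ^ (-(1 / 2) : ℝ))).mono' hcont.aestronglyMeasurable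
      (Filter.Eventually.of_forall (fun τ => ?_))
    rw [Real.norm_eq_abs, abs_of_nonneg (Real.rpow_nonneg (dr_pos hσ t τ).le _)]
    exact hle τ
  refine ⟨hint, ?_⟩
  calc ∫ τ : ℝ, (dr σ t τ) ^ (-(1 / 2) : ℝ) ≤ ∫ τ : ℝ, (Real.cosh t) ^ (-(1 / 2) : ℝ) *
      (Real.cosh τ - 1 + Real.exp (-|t|) ^ 2) ^ (-(1 / 2) : ℝ) :=
        integral_mono hint (h1.const_mul _) hle
    _ = (Real.cosh t) ^ (-(1 / 2) : ℝ) * ∫ τ : ℝ,
      (Real.cosh τ - 1 + Real.exp (-|t|) ^ 2) ^ (-(1 / 2) : ℝ) := integral_const_mul _ _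
    _ ≤ _ := by
        refine mul_le_mul_of_nonneg_left ?_ (Real.rpow_nonneg hct.le _)
        refine h2.trans (le_of_eq ?_)
        rw [one_div, Real.log_inv, Real.log_exp]
        ring

/-- uniform bound (all `κ`) on the real line -/
lemma YY_log {σ : ℝ} (hσ : |σ| ≤ 1) (κ t : ℝ) :
    ‖YY σ κ (t : ℂ)‖ ≤ (Real.cosh t) ^ (-(1 / 2) : ℝ) * (4 * (1 + |t|) + 2 * C0) := by
  obtain ⟨h1, h2⟩ := dr_integral hσ t
  refine le_trans ?_ h2
  unfold YY
  refine norm_integral_le_of_norm_le h1 (Filter.Eventually.of_forall (fun τ => ?_))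
  rw [DD_real]
  change ‖((dr σ t τ : ℝ) : ℂ) ^ (-(sx κ))‖ ≤ _
  rw [Complex.norm_cpow_eq_rpow_re_of_pos (dr_pos hσ t τ), Complex.neg_re, sx_re]

lemma YY1_log {σ : ℝ} (hσ2 : σ ^ 2 = 1) (κ t : ℝ) :
    ‖YY1 σ κ (t : ℂ)‖ ≤ ‖sx κ‖ *
      ((Real.cosh t) ^ (-(1 / 2) : ℝ) * (4 * (1 + |t|) + 2 * C0)) := by
  have hσ : |σ| ≤ 1 := by
    rw [← sq_abs] at hσ2
    nlinarith [abs_nonneg σ]
  obtain ⟨h1, h2⟩ := dr_integral hσ t
  unfold YY1
  rw [norm_mul, norm_neg]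
  refine mul_le_mul_of_nonneg_left (le_trans ?_ h2) (norm_nonneg _)
  unfold WW
  refine norm_integral_le_of_norm_le h1 (Filter.Eventually.of_forall (fun τ => ?_))
  unfold PP RR
  rw [DD_real, DV_real, pow_one, norm_mul]
  change ‖((dr σ t τ : ℝ) : ℂ) ^ (-(sx κ))‖ * ‖_ / ((dr σ t τ : ℝ) : ℂ)‖ ≤ _
  rw [Complex.norm_cpow_eq_rpow_re_of_pos (dr_pos hσ t τ), Complex.neg_re, sx_re]
  have h3 : ‖((Real.cosh τ * Real.sinh t - σ * Real.cosh t : ℝ) : ℂ) / ((dr σ t τ : ℝ) : ℂ)‖ ≤ 1 := by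
    rw [norm_div, Complex.norm_real, Complex.norm_real, Real.norm_eq_abs, Real.norm_eq_abs,
      abs_of_pos (dr_pos hσ t τ), div_le_one (dr_pos hσ t τ)]
    unfold dr
    have hτ := Real.one_le_cosh τ
    have ht1 : 0 < Real.cosh t - Real.sinh t := by rw [Real.cosh_sub_sinh]; exact Real.exp_pos _
    have ht2 : 0 < Real.cosh t + Real.sinh t := by rw [Real.cosh_add_sinh]; exact Real.exp_pos _
    have hσ' : σ = 1 ∨ σ = -1 := by
      have h0 : (σ - 1) * (σ + 1) = 0 := by linear_combination hσ2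
      rcases mul_eq_zero.1 h0 with h | h
      · left; linarith
      · right; linarith
    rw [abs_le]
    rcases hσ' with h | h
    · rw [h]; constructor <;> nlinarith
    · rw [h]; constructor <;> nlinarith
  calc dr σ t τ ^ (-(1 / 2) : ℝ) * _ ≤ dr σ t τ ^ (-(1 / 2) : ℝ) * 1 :=
        mul_le_mul_of_nonneg_left h3 (Real.rpow_nonneg (dr_pos hσ t τ).le _)
    _ = _ := mul_one _

end Pool.Agent.Lib_helper37.JO
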