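import Pool.Agent.Lib_helper37.JO.A10

open MeasureTheory Complex Set Filter Topology

namespace Pool.Agent.Lib_helper37.JO

/-! ### real `θ` -/

/-- `log tan (θ/2)` for real `θ` -/
noncomputable def tR (θ : ℝ) : ℝ := Real.log (Real.tan (θ / 2))

lemma ofReal_strip {θ : ℝ} (h0 : 0 < θ) (h1 : θ < Real.pi) : (θ : ℂ) ∈ strip := by
  constructor
  · simpa using h0
  · simpa using h1

lemma tan_half_pos {θ : ℝ} (h0 : 0 < θ) (h1 : θ < Real.pi) : 0 < Real.tan (θ / 2) :=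
  Real.tan_pos_of_pos_of_lt_pi_div_two (by linarith) (by linarith)

lemma vv_real {θ : ℝ} (h0 : 0 < θ) (h1 : θ < Real.pi) : vv (θ : ℂ) = ((tR θ : ℝ) : ℂ) := by
  unfold vv tR
  rw [Complex.ofReal_log (tan_half_pos h0 h1).le, Complex.ofReal_tan]
  push_cast
  rfl

lemma cosh_tR {θ : ℝ} (h0 : 0 < θ) (h1 : θ < Real.pi) : Real.cosh (tR θ) = 1 / Real.sin θ := by
  have h := cosh_vv (ofReal_strip h0 h1)
  rw [vv_real h0 h1] at h
  have h2 : ((Real.cosh (tR θ) : ℝ) : ℂ) = ((1 / Real.sin θ : ℝ) : ℂ) := by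
    push_cast
    exact h
  exact_mod_cast h2

lemma abs_tR_le {θ : ℝ} (h0 : 0 < θ) (h1 : θ < Real.pi) :
    |tR θ| ≤ Real.log (2 / Real.sin θ) := by
  have hs := Real.sin_pos_of_pos_of_lt_pi h0 h1
  have h2 : Real.exp |tR θ| ≤ 2 / Real.sin θ := by
    have h3 := cosh_tR h0 h1
    have h4 : Real.exp |tR θ| ≤ 2 * Real.cosh (tR θ) := by
      rw [← Real.cosh_abs, Real.cosh_eq]
      have := Real.exp_pos (-|tR θ|)
      linarith
    rw [h3] at h4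
    calc _ ≤ 2 * (1 / Real.sin θ) := h4
      _ = _ := by ring
  rw [Real.le_log_iff_exp_le (by positivity)]
  exact h2

/-- the majorant `(sin θ)^(1/2) (4 (1 + log (2/sin θ)) + 2 C0)` -/
noncomputable def LG (θ : ℝ) : ℝ :=
  (Real.sin θ) ^ (1 / 2 : ℝ) * (4 * (1 + Real.log (2 / Real.sin θ)) + 2 * C0)

lemma LG_aux {θ : ℝ} (h0 : 0 < θ) (h1 : θ < Real.pi) :
    (Real.cosh (tR θ)) ^ (-(1 / 2) : ℝ) * (4 * (1 + |tR θ|) + 2 * C0) ≤ LG θ := by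
  have hs := Real.sin_pos_of_pos_of_lt_pi h0 h1
  unfold LG
  rw [cosh_tR h0 h1, one_div, Real.inv_rpow hs.le, ← Real.rpow_neg hs.le, neg_neg]
  refine mul_le_mul_of_nonneg_left ?_ (Real.rpow_nonneg hs.le _)
  have := abs_tR_le h0 h1
  linarith

/-- **(a)** the bound `θ^(1/2) log (1/θ)`, uniform in `κ` -/
theorem HJ_log {σ : ℝ} (hσ : |σ| ≤ 1) (κ : ℝ) {θ : ℝ} (h0 : 0 < θ) (h1 : θ < Real.pi) :
    ‖HJ σ κ (θ : ℂ)‖ ≤ LG θ := by
  rw [HJ_eq hσ (ofReal_strip h0 h1), vv_real h0 h1]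
  exact (YY_log hσ κ _).trans (LG_aux h0 h1)

theorem HJ1_log {σ : ℝ} (hσ2 : σ ^ 2 = 1) (κ : ℝ) {θ : ℝ} (h0 : 0 < θ) (h1 : θ < Real.pi) :
    ‖HJ1 σ κ (θ : ℂ)‖ ≤ ‖sx κ‖ * LG θ / Real.sin θ := by
  have hs := Real.sin_pos_of_pos_of_lt_pi h0 h1
  unfold HJ1
  rw [vv_real h0 h1, norm_div]
  have h2 : ‖Complex.sin (θ : ℂ)‖ = Real.sin θ := by
    rw [← Complex.ofReal_sin, Complex.norm_real, Real.norm_eq_abs, abs_of_pos hs]
  rw [h2]
  refine div_le_div_of_nonneg_right ?_ hs.le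
  exact (YY1_log hσ2 κ _).trans (mul_le_mul_of_nonneg_left (LG_aux h0 h1) (norm_nonneg _))

/-- for `|κ| ≥ 1` there is no logarithm -/
theorem HJ_real_bound {σ : ℝ} (hσ2 : σ ^ 2 = 1) {κ : ℝ} (hκ : 1 ≤ |κ|) {θ : ℝ} (h0 : 0 < θ)
    (h1 : θ < Real.pi) :
    ‖HJ σ κ (θ : ℂ)‖ ≤ 80 * (1 + |κ|) ^ (-(1 / 2) : ℝ) * (Real.sin θ) ^ (1 / 2 : ℝ) := by
  have hσ : |σ| ≤ 1 := by
    rw [← sq_abs] at hσ2
    nlinarith [abs_nonneg σ]
  have hs := Real.sin_pos_of_pos_of_lt_pi h0 h1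
  have h2 := UU_bound hσ2 hκ (tR θ)
  rw [HJ_eq hσ (ofReal_strip h0 h1), vv_real h0 h1]
  unfold UU at h2
  rw [norm_mul, Complex.norm_real, Real.norm_eq_abs, abs_of_pos (sc_pos _)] at h2
  have h3 : sc (tR θ) = (Real.sin θ) ^ (-(1 / 2) : ℝ) := by
    unfold sc
    rw [cosh_tR h0 h1, Real.sqrt_eq_rpow, one_div, Real.inv_rpow hs.le, ← Real.rpow_neg hs.le]
  rw [h3] at h2
  have h4 : 0 < (Real.sin θ) ^ (1 / 2 : ℝ) := Real.rpow_pos_of_pos hs _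
  have h5 : (Real.sin θ) ^ (1 / 2 : ℝ) * (Real.sin θ) ^ (-(1 / 2) : ℝ) = 1 := by
    rw [← Real.rpow_add hs]; norm_num
  calc ‖YY σ κ (tR θ : ℂ)‖ = (Real.sin θ) ^ (1 / 2 : ℝ) *
        ((Real.sin θ) ^ (-(1 / 2) : ℝ) * ‖YY σ κ (tR θ : ℂ)‖) := by
        rw [← mul_assoc, h5, one_mul]
    _ ≤ (Real.sin θ) ^ (1 / 2 : ℝ) * (80 * dk κ) := mul_le_mul_of_nonneg_left h2 h4.le
    _ = _ := by unfold dk; ring

/-- a power bound for the majorant -/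
lemma LG_pow {e : ℝ} (he : 0 < e) : ∃ C : ℝ, 0 < C ∧ ∀ θ : ℝ, 0 < θ → θ < Real.pi →
    LG θ ≤ C * (Real.sin θ) ^ (1 / 2 - e : ℝ) := by
  refine ⟨4 + 2 * C0 + 4 * (2 ^ e / e), by have := C0_nonneg; positivity, ?_⟩
  intro θ h0 h1
  have hs := Real.sin_pos_of_pos_of_lt_pi h0 h1
  have hs1 := Real.sin_le_one θ
  have hC := C0_nonneg
  unfold LG
  have h2 : Real.log (2 / Real.sin θ) ≤ (2 / Real.sin θ) ^ e / e :=
    Real.log_le_rpow_div (by positivity) he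
  have h3 : (2 / Real.sin θ) ^ e = 2 ^ e * (Real.sin θ) ^ (-e) := by
    rw [Real.div_rpow (by norm_num) hs.le, Real.rpow_neg hs.le]; rfl
  have h4 : 1 ≤ (Real.sin θ) ^ (-e) :=
    Real.one_le_rpow_of_pos_of_le_one_of_nonpos hs hs1 (by linarith)
  have h5 : (Real.sin θ) ^ (1 / 2 - e : ℝ) = (Real.sin θ) ^ (1 / 2 : ℝ) * (Real.sin θ) ^ (-e) := by
    rw [← Real.rpow_add hs]; congr 1
  rw [h5]
  rw [h3] at h2
  have h6 : 4 * (1 + Real.log (2 / Real.sin θ)) + 2 * C0 ≤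
      (4 + 2 * C0 + 4 * (2 ^ e / e)) * (Real.sin θ) ^ (-e) := by
    have h7 : 4 * (2 ^ e * (Real.sin θ) ^ (-e) / e) = 4 * (2 ^ e / e) * (Real.sin θ) ^ (-e) := by
      ring
    nlinarith
  calc _ ≤ (Real.sin θ) ^ (1 / 2 : ℝ) * ((4 + 2 * C0 + 4 * (2 ^ e / e)) * (Real.sin θ) ^ (-e)) :=
        mul_le_mul_of_nonneg_left h6 (Real.rpow_nonneg hs.le _)
    _ = _ := by ring

/-! ### Holomorphy of `∫ m(κ) H_θ(κ) dκ` -/

lemma HJ1_continuous_kappa {σ : ℝ} (hσ : |σ| ≤ 1) {θ : ℂ} (hθ : θ ∈ strip) :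
    Continuous (fun κ : ℝ => HJ1 σ κ θ) := by
  unfold HJ1 YY1
  have h0 : Continuous (fun k : ℝ => -(sx k)) := by
    unfold sx; fun_prop
  exact (h0.mul (WW_cont_kappa hσ 1 (cos_vv_pos hθ))).div_const _

lemma exp_absorb {c : ℝ} (hc : 0 < c) (κ : ℝ) :
    (1 + |κ|) * Real.exp ((Real.pi / 2 - c) * |κ|) ≤
      (1 + 2 / c) * Real.exp ((Real.pi / 2 - c / 2) * |κ|) := by
  have h1 : 1 + |κ| ≤ (1 + 2 / c) * Real.exp (c / 2 * |κ|) := by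
    have h2 := Real.add_one_le_exp (c / 2 * |κ|)
    have h3 : 0 ≤ c / 2 * |κ| := by positivity
    have h4 : 0 < 2 / c := by positivity
    have h5 : 2 / c * (c / 2 * |κ| + 1) ≤ 2 / c * Real.exp (c / 2 * |κ|) :=
      mul_le_mul_of_nonneg_left h2 h4.le
    have h6 : 2 / c * (c / 2 * |κ| + 1) = |κ| + 2 / c := by field_simp
    nlinarith
  calc _ ≤ ((1 + 2 / c) * Real.exp (c / 2 * |κ|)) * Real.exp ((Real.pi / 2 - c) * |κ|) :=
        mul_le_mul_of_nonneg_right h1 (Real.exp_pos _).le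
    _ = _ := by
        rw [mul_assoc, ← Real.exp_add]
        congr 2
        ring

/-- **(FCD)** the continuous part is holomorphic in the strip -/
theorem Fc_hasDerivAt {σ : ℝ} (hσ2 : σ ^ 2 = 1) (m : ℝ → ℂ)
    (hmeas : AEStronglyMeasurable m volume)
    (hm : ∀ c : ℝ, 0 < c → Integrable (fun κ : ℝ => ‖m κ‖ * Real.exp ((Real.pi / 2 - c) * |κ|)))
    {θ : ℂ} (hθ : θ ∈ strip) :
    Integrable (fun κ : ℝ => m κ * HJ σ κ θ) ∧ Integrable (fun κ : ℝ => m κ * HJ1 σ κ θ) ∧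
    HasDerivAt (fun θ : ℂ => ∫ κ : ℝ, m κ * HJ σ κ θ) (∫ κ : ℝ, m κ * HJ1 σ κ θ) θ := by
  have hσ : |σ| ≤ 1 := by
    rw [← sq_abs] at hσ2
    nlinarith [abs_nonneg σ]
  obtain ⟨ε, hε, hball⟩ := Metric.isOpen_iff.1 isOpen_strip θ hθ
  set K : Set ℂ := Metric.closedBall θ (ε / 2) with hK
  have hKs : K ⊆ strip := (Metric.closedBall_subset_ball (by linarith)).trans hball
  obtain ⟨C, c, hC, hc, hb⟩ := HJ_bound_compact K (isCompact_closedBall _ _) hKs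
  have hθK : θ ∈ K := Metric.mem_closedBall_self (by positivity)
  have hint := hm (c / 2) (by positivity)
  have hk : ∀ κ : ℝ, (1 + |κ|) ^ (1 / 2 : ℝ) ≤ 1 + |κ| := by
    intro κ
    have h1 : (1:ℝ) ≤ 1 + |κ| := by linarith [abs_nonneg κ]
    calc (1 + |κ|) ^ (1 / 2 : ℝ) ≤ (1 + |κ|) ^ (1 : ℝ) :=
          Real.rpow_le_rpow_of_exponent_le h1 (by norm_num)
      _ = _ := Real.rpow_one _
  have hk2 : ∀ κ : ℝ, (1 + |κ|) ^ (-(1 / 2) : ℝ) ≤ 1 + |κ| := by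
    intro κ
    have h1 : (1:ℝ) ≤ 1 + |κ| := by linarith [abs_nonneg κ]
    exact (Real.rpow_le_one_of_one_le_of_nonpos h1 (by norm_num)).trans h1
  have hB0 : ∀ w ∈ K, ∀ κ : ℝ, ‖m κ * HJ σ κ w‖ ≤
      (C * (1 + 2 / c)) * (‖m κ‖ * Real.exp ((Real.pi / 2 - c / 2) * |κ|)) := by
    intro w hw κ
    have h1 := (hb σ hσ2 κ w hw).1
    have h2 : C * (1 + |κ|) ^ (-(1 / 2) : ℝ) * Real.exp ((Real.pi / 2 - c) * |κ|) ≤
        C * ((1 + 2 / c) * Real.exp ((Real.pi / 2 - c / 2) * |κ|)) := by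
      rw [mul_assoc]
      refine mul_le_mul_of_nonneg_left ((mul_le_mul_of_nonneg_right (hk2 κ)
        (Real.exp_pos _).le).trans (exp_absorb hc κ)) hC.le
    rw [norm_mul]
    calc ‖m κ‖ * ‖HJ σ κ w‖ ≤ ‖m κ‖ * (C * ((1 + 2 / c) *
          Real.exp ((Real.pi / 2 - c / 2) * |κ|))) :=
          mul_le_mul_of_nonneg_left (h1.trans h2) (norm_nonneg _)
      _ = _ := by ring
  have hB1 : ∀ w ∈ K, ∀ κ : ℝ, ‖m κ * HJ1 σ κ w‖ ≤
      (C * (1 + 2 / c)) * (‖m κ‖ * Real.exp ((Real.pi / 2 - c / 2) * |κ|)) := by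
    intro w hw κ
    have h1 := (hb σ hσ2 κ w hw).2
    have h2 : C * (1 + |κ|) ^ (1 / 2 : ℝ) * Real.exp ((Real.pi / 2 - c) * |κ|) ≤
        C * ((1 + 2 / c) * Real.exp ((Real.pi / 2 - c / 2) * |κ|)) := by
      rw [mul_assoc]
      refine mul_le_mul_of_nonneg_left ((mul_le_mul_of_nonneg_right (hk κ)
        (Real.exp_pos _).le).trans (exp_absorb hc κ)) hC.le
    rw [norm_mul]
    calc ‖m κ‖ * ‖HJ1 σ κ w‖ ≤ ‖m κ‖ * (C * ((1 + 2 / c) *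
          Real.exp ((Real.pi / 2 - c / 2) * |κ|))) :=
          mul_le_mul_of_nonneg_left (h1.trans h2) (norm_nonneg _)
      _ = _ := by ring
  have hm0 : ∀ w ∈ strip, AEStronglyMeasurable (fun κ : ℝ => m κ * HJ σ κ w) volume :=
    fun w hw => hmeas.mul (HJ_continuous_kappa hσ hw).aestronglyMeasurable
  have hm1 : ∀ w ∈ strip, AEStronglyMeasurable (fun κ : ℝ => m κ * HJ1 σ κ w) volume :=
    fun w hw => hmeas.mul (HJ1_continuous_kappa hσ hw).aestronglyMeasurable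
  have hi0 : Integrable (fun κ : ℝ => m κ * HJ σ κ θ) :=
    (hint.const_mul _).mono' (hm0 θ hθ) (Filter.Eventually.of_forall (hB0 θ hθK))
  have hi1 : Integrable (fun κ : ℝ => m κ * HJ1 σ κ θ) :=
    (hint.const_mul _).mono' (hm1 θ hθ) (Filter.Eventually.of_forall (hB1 θ hθK))
  refine ⟨hi0, hi1, ?_⟩
  have hnhds : K ∈ 𝓝 θ := Metric.closedBall_mem_nhds θ (by positivity)
  exact (hasDerivAt_integral_of_dominated_loc_of_deriv_le (μ := volume) (𝕜 := ℂ)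
    (F := fun w κ => m κ * HJ σ κ w) (F' := fun w κ => m κ * HJ1 σ κ w)
    (bound := fun κ => (C * (1 + 2 / c)) * (‖m κ‖ * Real.exp ((Real.pi / 2 - c / 2) * |κ|)))
    (x₀ := θ) hnhds
    (Filter.eventually_of_mem hnhds (fun w hw => hm0 w (hKs hw))) hi0 (hm1 θ hθ)
    (Filter.Eventually.of_forall (fun κ w hw => hB1 w hw κ)) (hint.const_mul _)
    (Filter.Eventually.of_forall (fun κ w hw => (HJ_hasDerivAt hσ κ (hKs hw)).const_mul (m κ)))).2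

theorem Fc_differentiableOn {σ : ℝ} (hσ2 : σ ^ 2 = 1) (m : ℝ → ℂ)
    (hmeas : AEStronglyMeasurable m volume)
    (hm : ∀ c : ℝ, 0 < c → Integrable (fun κ : ℝ => ‖m κ‖ * Real.exp ((Real.pi / 2 - c) * |κ|))) :
    DifferentiableOn ℂ (fun θ : ℂ => ∫ κ : ℝ, m κ * HJ σ κ θ) strip :=
  fun _ hθ => (Fc_hasDerivAt hσ2 m hmeas hm hθ).2.2.differentiableAt.differentiableWithinAt

/-- **(a)** the bound of the continuous part on the real segment -/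
theorem Fc_log {σ : ℝ} (hσ : |σ| ≤ 1) (m : ℝ → ℂ) (hm : Integrable m) {θ : ℝ} (h0 : 0 < θ)
    (h1 : θ < Real.pi) :
    ‖∫ κ : ℝ, m κ * HJ σ κ (θ : ℂ)‖ ≤ (∫ κ : ℝ, ‖m κ‖) * LG θ := by
  rw [← integral_mul_const]
  refine norm_integral_le_of_norm_le (hm.norm.mul_const _)
    (Filter.Eventually.of_forall (fun κ => ?_))
  rw [norm_mul]
  exact mul_le_mul_of_nonneg_left (HJ_log hσ κ h0 h1) (norm_nonneg _)

end Pool.Agent.Lib_helper37.JO
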