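import Pool.Agent.Lib_helper37.JO.A11
import Pool.Agent.Lib_helper58.SP.Two

open MeasureTheory Complex Set Filter Topology

namespace Pool.Agent.Lib_helper37.JO

open Pool.Agent.SP (ff fp II pt)

/-! ### The transform `D(s) = ∫_0^{θ₀} f_s F_cont dθ / sin²` -/

/-- the Wronskian of `f_s` and `H_κ` -/
noncomputable def wk (σ κ : ℝ) (s : ℂ) (θ : ℝ) : ℂ :=
  fp s θ * HJ σ κ (θ : ℂ) - ff s θ * HJ1 σ κ (θ : ℂ)

lemma II_pi {θ : ℝ} (h : θ ∈ II) : θ < Real.pi := by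
  have := h.2
  have := Real.pi_pos
  linarith

lemma wk_deriv {σ : ℝ} (hσ2 : σ ^ 2 = 1) (κ : ℝ) {θ : ℝ} (h : θ ∈ II) {s : ℂ} (hs : 0 < s.re) :
    HasDerivAt (wk σ κ s) (((((1 / 4 + κ ^ 2 : ℝ)) : ℂ) - s * (1 - s)) *
      (ff s θ * HJ σ κ (θ : ℂ) / ((Real.sin θ : ℝ) : ℂ) ^ 2)) θ := by
  have hσ : |σ| ≤ 1 := by
    rw [← sq_abs] at hσ2
    nlinarith [abs_nonneg σ]
  have hst := ofReal_strip h.1 (II_pi h)
  have h1 : HasDerivAt (fun θ : ℝ => HJ σ κ (θ : ℂ)) (HJ1 σ κ (θ : ℂ)) θ :=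
    (HJ_hasDerivAt hσ κ hst).comp_ofReal
  have h2 : HasDerivAt (fun θ : ℝ => HJ1 σ κ (θ : ℂ))
      (-((1 / 4 : ℂ) + κ ^ 2) / Complex.sin θ ^ 2 * HJ σ κ θ) θ :=
    (HJ1_hasDerivAt hσ2 κ hst).comp_ofReal
  have h3 := Pool.Agent.SP.fp_hasDeriv h hs
  have h4 := Pool.Agent.SP.ff_hasDeriv h hs
  refine ((h3.mul h1).sub (h4.mul h2)).congr_deriv ?_
  have hS : ((Real.sin θ : ℝ) : ℂ) ≠ 0 := by exact_mod_cast (Pool.Agent.SP.sin_pos' h).ne'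
  have hS2 : Complex.sin (θ : ℂ) = ((Real.sin θ : ℝ) : ℂ) := by push_cast; rfl
  rw [hS2]
  push_cast at hS ⊢
  field_simp
  ring

/-- limit of the Wronskian at `0` -/
lemma wk_lim {σ : ℝ} (hσ2 : σ ^ 2 = 1) (κ : ℝ) {s : ℂ} (hs : 1 / 2 < s.re) :
    Tendsto (wk σ κ s) (𝓝[>] 0) (𝓝 0) := by
  have hσ : |σ| ≤ 1 := by
    rw [← sq_abs] at hσ2
    nlinarith [abs_nonneg σ]
  set e : ℝ := (s.re - 1 / 2) / 2 with he
  have he0 : 0 < e := by rw [he]; linarith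
  obtain ⟨C, hC, hLG⟩ := LG_pow he0
  have hs0 : 0 < s.re := by linarith
  set K : ℝ := ‖s‖ * (2 / s.re) * C + 2 / s.re * ‖sx κ‖ * C with hK
  have hb : ∀ᶠ θ in 𝓝[>] (0 : ℝ), ‖wk σ κ s θ‖ ≤ K * (Real.sin θ) ^ e := by
    have hev : ∀ᶠ θ in 𝓝[>] (0 : ℝ), θ ∈ Ioo (0 : ℝ) 1 := Ioo_mem_nhdsGT one_pos
    filter_upwards [hev] with θ hθ
    have hII : θ ∈ II := ⟨hθ.1, by linarith [hθ.2, Real.pi_gt_three]⟩
    have hpi := II_pi hII
    have hS := Pool.Agent.SP.sin_pos' hII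
    have e1 := Pool.Agent.SP.ff_norm_le hII hs0
    have e2 := Pool.Agent.SP.fp_norm_le hII hs0
    have e3 := HJ_log hσ κ hII.1 hpi
    have e4 := HJ1_log hσ2 κ hII.1 hpi
    have e5 := hLG θ hII.1 hpi
    have hLG0 : 0 ≤ LG θ := (norm_nonneg _).trans e3
    have hp : (Real.sin θ) ^ s.re * (Real.sin θ) ^ (1 / 2 - e : ℝ) = Real.sin θ * (Real.sin θ) ^ e := by
      rw [← Real.rpow_add hS]
      nth_rw 2 [← Real.rpow_one (Real.sin θ)]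
      rw [← Real.rpow_add hS]
      congr 1
      rw [he]; ring
    have f1 : ‖fp s θ * HJ σ κ (θ : ℂ)‖ ≤ ‖s‖ * (2 / s.re) * C * (Real.sin θ) ^ e := by
      rw [norm_mul]
      calc ‖fp s θ‖ * ‖HJ σ κ (θ : ℂ)‖ ≤ (‖s‖ * (2 / s.re) * (Real.sin θ ^ s.re / Real.sin θ)) *
            (C * (Real.sin θ) ^ (1 / 2 - e : ℝ)) :=
            mul_le_mul e2 (e3.trans e5) (norm_nonneg _) (by positivity)
        _ = ‖s‖ * (2 / s.re) * C * (((Real.sin θ) ^ s.re * (Real.sin θ) ^ (1 / 2 - e : ℝ)) /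
              Real.sin θ) := by ring
        _ = _ := by rw [hp]; field_simp
    have f2 : ‖ff s θ * HJ1 σ κ (θ : ℂ)‖ ≤ 2 / s.re * ‖sx κ‖ * C * (Real.sin θ) ^ e := by
      rw [norm_mul]
      have e6 : ‖HJ1 σ κ (θ : ℂ)‖ ≤ ‖sx κ‖ * (C * (Real.sin θ) ^ (1 / 2 - e : ℝ)) / Real.sin θ :=
        e4.trans (div_le_div_of_nonneg_right (mul_le_mul_of_nonneg_left e5 (norm_nonneg _)) hS.le)
      calc ‖ff s θ‖ * ‖HJ1 σ κ (θ : ℂ)‖ ≤ (2 / s.re * Real.sin θ ^ s.re) *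
            (‖sx κ‖ * (C * (Real.sin θ) ^ (1 / 2 - e : ℝ)) / Real.sin θ) :=
            mul_le_mul e1 e6 (norm_nonneg _) (by positivity)
        _ = 2 / s.re * ‖sx κ‖ * C * (((Real.sin θ) ^ s.re * (Real.sin θ) ^ (1 / 2 - e : ℝ)) /
              Real.sin θ) := by ring
        _ = _ := by rw [hp]; field_simp
    unfold wk
    calc _ ≤ ‖fp s θ * HJ σ κ (θ : ℂ)‖ + ‖ff s θ * HJ1 σ κ (θ : ℂ)‖ := norm_sub_le _ _
      _ ≤ _ := by rw [hK]; linarith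
  have hlim : Tendsto (fun θ : ℝ => K * (Real.sin θ) ^ e) (𝓝[>] 0) (𝓝 0) := by
    have h1 : Tendsto (fun θ : ℝ => (Real.sin θ) ^ e) (𝓝 0) (𝓝 0) := by
      have h2 : ContinuousAt (fun θ : ℝ => (Real.sin θ) ^ e) 0 :=
        Real.continuous_sin.continuousAt.rpow_const (Or.inr he0.le)
      have h3 := h2.tendsto
      simp only [Real.sin_zero, Real.zero_rpow he0.ne'] at h3
      exact h3
    have h4 := (h1.const_mul K).mono_left (nhdsWithin_le_nhds (s := Ioi (0:ℝ)))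
    simpa using h4
  exact squeeze_zero_norm' hb hlim

/-- the majorant of the integrand of `D` -/
lemma DI_bound {σ : ℝ} (hσ : |σ| ≤ 1) {s : ℂ} (hs : 1 / 2 < s.re) :
    ∃ C : ℝ, 0 < C ∧ ∀ κ : ℝ, ∀ θ ∈ II,
      ‖ff s θ * HJ σ κ (θ : ℂ) / ((Real.sin θ : ℝ) : ℂ) ^ 2‖ ≤
        C * θ ^ ((s.re - 1 / 2) / 2 - 1 : ℝ) := by
  set e : ℝ := (s.re - 1 / 2) / 2 with he
  have he0 : 0 < e := by rw [he]; linarith
  obtain ⟨C, hC, hLG⟩ := LG_pow he0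
  have hs0 : 0 < s.re := by linarith
  refine ⟨2 / s.re * C * (1 + 2 ^ (1 - e)), by positivity, ?_⟩
  intro κ θ hII
  have hpi := II_pi hII
  have hS := Pool.Agent.SP.sin_pos' hII
  have e1 := Pool.Agent.SP.ff_norm_le hII hs0
  have e3 := HJ_log hσ κ hII.1 hpi
  have e5 := hLG θ hII.1 hpi
  have hp : (Real.sin θ) ^ s.re * (Real.sin θ) ^ (1 / 2 - e : ℝ) / Real.sin θ ^ 2 =
      (Real.sin θ) ^ (e - 1) := by
    rw [← Real.rpow_add hS, ← Real.rpow_natCast, ← Real.rpow_sub hS]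
    congr 1
    push_cast
    rw [he]; ring
  rw [norm_div, norm_mul, norm_pow, Complex.norm_real, Real.norm_eq_abs, abs_of_pos hS]
  have h1 : ‖ff s θ‖ * ‖HJ σ κ (θ : ℂ)‖ / Real.sin θ ^ 2 ≤ 2 / s.re * C * (Real.sin θ) ^ (e - 1) := by
    calc _ ≤ ((2 / s.re * Real.sin θ ^ s.re) * (C * (Real.sin θ) ^ (1 / 2 - e : ℝ))) / Real.sin θ ^ 2 := by
          refine div_le_div_of_nonneg_right ?_ (by positivity)
          exact mul_le_mul e1 (e3.trans e5) (norm_nonneg _) (by positivity)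
      _ = 2 / s.re * C * ((Real.sin θ) ^ s.re * (Real.sin θ) ^ (1 / 2 - e : ℝ) / Real.sin θ ^ 2) := by
          ring
      _ = _ := by rw [hp]
  refine h1.trans ?_
  rw [mul_assoc (2 / s.re * C)]
  refine mul_le_mul_of_nonneg_left ?_ (by positivity)
  -- (sin θ)^(e-1) ≤ (1 + 2^(1-e)) θ^(e-1)
  have hge := Pool.Agent.SP.sin_ge hII
  have hle : Real.sin θ ≤ θ := Real.sin_le hII.1.le
  have hθ := hII.1
  rcases le_or_gt e 1 with h | h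
  · calc (Real.sin θ) ^ (e - 1) ≤ (θ / 2) ^ (e - 1) :=
          Real.rpow_le_rpow_of_nonpos (by positivity) hge (by linarith)
      _ = 2 ^ (1 - e) * θ ^ (e - 1) := by
          rw [Real.div_rpow hθ.le (by norm_num), div_eq_mul_inv, ← Real.rpow_neg (by norm_num)]
          rw [mul_comm]; congr 2; ring
      _ ≤ _ := by
          refine mul_le_mul_of_nonneg_right ?_ (Real.rpow_nonneg hθ.le _)
          linarith
  · calc (Real.sin θ) ^ (e - 1) ≤ θ ^ (e - 1) := Real.rpow_le_rpow hS.le hle (by linarith)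
      _ = 1 * θ ^ (e - 1) := (one_mul _).symm
      _ ≤ _ := by
          refine mul_le_mul_of_nonneg_right ?_ (Real.rpow_nonneg hθ.le _)
          have : (0:ℝ) < 2 ^ (1 - e) := by positivity
          linarith

lemma DI_cont {σ : ℝ} (hσ : |σ| ≤ 1) (κ : ℝ) {s : ℂ} (hs : 0 < s.re) :
    ContinuousOn (fun θ : ℝ => ff s θ * HJ σ κ (θ : ℂ) / ((Real.sin θ : ℝ) : ℂ) ^ 2) II := by
  have h1 : ContinuousOn (fun θ : ℝ => HJ σ κ (θ : ℂ)) II := fun θ h =>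
    ((HJ_hasDerivAt hσ κ (ofReal_strip h.1 (II_pi h))).comp_ofReal).continuousAt.continuousWithinAt
  refine ((Pool.Agent.SP.cont_ff hs).mul h1).div Pool.Agent.SP.cont_sin2 (fun θ h => ?_)
  have hS : ((Real.sin θ : ℝ) : ℂ) ≠ 0 := by exact_mod_cast (Pool.Agent.SP.sin_pos' h).ne'
  exact pow_ne_zero 2 hS

lemma DI_int {σ : ℝ} (hσ : |σ| ≤ 1) (κ : ℝ) {θ₀ : ℝ} (h0 : θ₀ ∈ II) {s : ℂ} (hs : 1 / 2 < s.re) :
    IntegrableOn (fun θ : ℝ => ff s θ * HJ σ κ (θ : ℂ) / ((Real.sin θ : ℝ) : ℂ) ^ 2) (Ioo 0 θ₀) := by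
  obtain ⟨C, hC, hb⟩ := DI_bound hσ hs
  refine Integrable.mono' ((Pool.Agent.SP.integ_rpow (a := (s.re - 1 / 2) / 2 - 1)
    (by linarith) h0.1).const_mul C) ?_ ?_
  · exact ((DI_cont hσ κ (by linarith)).mono
      (fun θ h => Pool.Agent.SP.sub_II h0 h)).aestronglyMeasurable measurableSet_Ioo
  · exact (ae_restrict_iff' measurableSet_Ioo).mpr
      (ae_of_all _ fun θ h => hb κ θ (Pool.Agent.SP.sub_II h0 h))

/-- the Wronskian identity -/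
lemma DI_eq {σ : ℝ} (hσ2 : σ ^ 2 = 1) (κ : ℝ) {θ₀ : ℝ} (h0 : θ₀ ∈ II) {s : ℂ} (hs : 1 / 2 < s.re) :
    wk σ κ s θ₀ = ((((1 / 4 + κ ^ 2 : ℝ)) : ℂ) - s * (1 - s)) *
      ∫ θ in Ioo 0 θ₀, ff s θ * HJ σ κ (θ : ℂ) / ((Real.sin θ : ℝ) : ℂ) ^ 2 := by
  have hσ : |σ| ≤ 1 := by
    rw [← sq_abs] at hσ2
    nlinarith [abs_nonneg σ]
  have hs0 : 0 < s.re := by linarith
  have hint := DI_int hσ κ h0 hs
  have hcont : Tendsto (wk σ κ s) (𝓝[<] θ₀) (𝓝 (wk σ κ s θ₀)) :=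
    (wk_deriv hσ2 κ h0 hs0).continuousAt.tendsto.mono_left nhdsWithin_le_nhds
  have hint2 : IntervalIntegrable (fun θ : ℝ => ((((1 / 4 + κ ^ 2 : ℝ)) : ℂ) - s * (1 - s)) *
      (ff s θ * HJ σ κ (θ : ℂ) / ((Real.sin θ : ℝ) : ℂ) ^ 2)) volume 0 θ₀ := by
    rw [intervalIntegrable_iff_integrableOn_Ioo_of_le h0.1.le]
    exact hint.const_mul _
  have := intervalIntegral.integral_eq_sub_of_hasDerivAt_of_tendsto h0.1
    (fun θ hθ => wk_deriv hσ2 κ (Pool.Agent.SP.sub_II h0 hθ) hs0) hint2 (wk_lim hσ2 κ hs) hcont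
  rw [sub_zero] at this
  rw [← this, intervalIntegral.integral_of_le h0.1.le, integral_Ioc_eq_integral_Ioo,
    integral_const_mul]

/-- the continuous part on the real segment -/
noncomputable def Fc (σ : ℝ) (m : ℝ → ℂ) (θ : ℝ) : ℂ := ∫ κ : ℝ, m κ * HJ σ κ (θ : ℂ)

/-- joint integrability -/
lemma DI_joint {σ : ℝ} (hσ : |σ| ≤ 1) (m : ℝ → ℂ) (hm : Integrable m) {θ₀ : ℝ} (h0 : θ₀ ∈ II)
    {s : ℂ} (hs : 1 / 2 < s.re) :
    Integrable (fun p : ℝ × ℝ => m p.2 *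
      (ff s p.1 * HJ σ p.2 (p.1 : ℂ) / ((Real.sin p.1 : ℝ) : ℂ) ^ 2))
      ((volume.restrict (Ioo 0 θ₀)).prod volume) := by
  obtain ⟨C, hC, hb⟩ := DI_bound hσ hs
  have hG : IntegrableOn (fun θ : ℝ => C * θ ^ ((s.re - 1 / 2) / 2 - 1 : ℝ)) (Ioo 0 θ₀) :=
    (Pool.Agent.SP.integ_rpow (a := (s.re - 1 / 2) / 2 - 1) (by linarith) h0.1).const_mul C
  have hmaj : Integrable (fun p : ℝ × ℝ => (C * p.1 ^ ((s.re - 1 / 2) / 2 - 1 : ℝ)) * ‖m p.2‖)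
      ((volume.restrict (Ioo 0 θ₀)).prod volume) := hG.mul_prod hm.norm
  have hmeas : AEStronglyMeasurable (fun p : ℝ × ℝ => m p.2 *
      (ff s p.1 * HJ σ p.2 (p.1 : ℂ) / ((Real.sin p.1 : ℝ) : ℂ) ^ 2))
      ((volume.restrict (Ioo 0 θ₀)).prod volume) := by
    refine AEStronglyMeasurable.mul ?_ ?_
    · exact hm.aestronglyMeasurable.comp_snd
    · have hc : ContinuousOn (fun p : ℝ × ℝ =>
          ff s p.1 * HJ σ p.2 (p.1 : ℂ) / ((Real.sin p.1 : ℝ) : ℂ) ^ 2) (Ioo 0 θ₀ ×ˢ univ) := by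
        have hsub : ∀ p : ℝ × ℝ, p ∈ Ioo 0 θ₀ ×ˢ (univ : Set ℝ) → p.1 ∈ II := fun p hp =>
          Pool.Agent.SP.sub_II h0 hp.1
        have c1 : ContinuousOn (fun p : ℝ × ℝ => ff s p.1) (Ioo 0 θ₀ ×ˢ univ) :=
          (Pool.Agent.SP.cont_ff (s := s) (by linarith)).comp continuousOn_fst hsub
        have c2 : ContinuousOn (fun p : ℝ × ℝ => HJ σ p.2 (p.1 : ℂ)) (Ioo 0 θ₀ ×ˢ univ) := by
          refine (HJ_continuousOn hσ).comp (f := fun p : ℝ × ℝ => ((p.2, (p.1 : ℂ)) : ℝ × ℂ)) ?_ ?_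
          · exact (continuous_snd.prodMk (Complex.continuous_ofReal.comp continuous_fst)).continuousOn
          · intro p hp
            exact ⟨mem_univ _, ofReal_strip (hsub p hp).1 (II_pi (hsub p hp))⟩
        have c3 : ContinuousOn (fun p : ℝ × ℝ => ((Real.sin p.1 : ℝ) : ℂ) ^ 2) (Ioo 0 θ₀ ×ˢ univ) :=
          Pool.Agent.SP.cont_sin2.comp continuousOn_fst hsub
        refine (c1.mul c2).div c3 (fun p hp => ?_)
        have hS : ((Real.sin p.1 : ℝ) : ℂ) ≠ 0 := by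
          exact_mod_cast (Pool.Agent.SP.sin_pos' (hsub p hp)).ne'
        exact pow_ne_zero 2 hS
      have hrest : (volume.restrict (Ioo 0 θ₀)).prod (volume : Measure ℝ) =
          ((volume : Measure ℝ).prod (volume : Measure ℝ)).restrict (Ioo 0 θ₀ ×ˢ univ) := by
        rw [← Measure.prod_restrict, Measure.restrict_univ]
      rw [hrest]
      exact hc.aestronglyMeasurable (measurableSet_Ioo.prod MeasurableSet.univ)
  refine hmaj.mono' hmeas ?_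
  have hae : ∀ᵐ p : ℝ × ℝ ∂((volume.restrict (Ioo 0 θ₀)).prod (volume : Measure ℝ)),
      p.1 ∈ Ioo 0 θ₀ := by
    have hrest : (volume.restrict (Ioo 0 θ₀)).prod (volume : Measure ℝ) =
          ((volume : Measure ℝ).prod (volume : Measure ℝ)).restrict (Ioo 0 θ₀ ×ˢ univ) := by
        rw [← Measure.prod_restrict, Measure.restrict_univ]
    rw [hrest, ae_restrict_iff' (measurableSet_Ioo.prod MeasurableSet.univ)]
    exact Filter.Eventually.of_forall (fun p hp => hp.1)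
  filter_upwards [hae] with p hp
  rw [norm_mul]
  calc ‖m p.2‖ * _ ≤ ‖m p.2‖ * (C * p.1 ^ ((s.re - 1 / 2) / 2 - 1 : ℝ)) :=
        mul_le_mul_of_nonneg_left (hb p.2 p.1 (Pool.Agent.SP.sub_II h0 hp)) (norm_nonneg _)
    _ = _ := by ring

/-- the integral defining `D` converges absolutely -/
theorem D_integrable {σ : ℝ} (hσ : |σ| ≤ 1) (m : ℝ → ℂ) (hm : Integrable m) {θ₀ : ℝ}
    (h0 : θ₀ ∈ II) {s : ℂ} (hs : 1 / 2 < s.re) :
    IntegrableOn (fun θ : ℝ => ff s θ * Fc σ m θ / ((Real.sin θ : ℝ) : ℂ) ^ 2) (Ioo 0 θ₀) := by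
  have h := (DI_joint hσ m hm h0 hs).integral_prod_left
  refine h.congr (Filter.Eventually.of_forall (fun θ => ?_))
  simp only []
  unfold Fc
  have h1 : ∀ κ : ℝ, m κ * (ff s θ * HJ σ κ (θ : ℂ) / ((Real.sin θ : ℝ) : ℂ) ^ 2) =
      (ff s θ / ((Real.sin θ : ℝ) : ℂ) ^ 2) * (m κ * HJ σ κ (θ : ℂ)) := fun κ => by ring
  simp_rw [h1]
  rw [integral_const_mul]
  ring

/-- Fubini -/
lemma D_fubini {σ : ℝ} (hσ : |σ| ≤ 1) (m : ℝ → ℂ) (hm : Integrable m) {θ₀ : ℝ}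
    (h0 : θ₀ ∈ II) {s : ℂ} (hs : 1 / 2 < s.re) :
    ∫ θ in Ioo 0 θ₀, ff s θ * Fc σ m θ / ((Real.sin θ : ℝ) : ℂ) ^ 2 =
      ∫ κ : ℝ, m κ * ∫ θ in Ioo 0 θ₀, ff s θ * HJ σ κ (θ : ℂ) / ((Real.sin θ : ℝ) : ℂ) ^ 2 := by
  have h := integral_integral_swap (f := fun θ κ => m κ *
      (ff s θ * HJ σ κ (θ : ℂ) / ((Real.sin θ : ℝ) : ℂ) ^ 2)) (DI_joint hσ m hm h0 hs)
  have h2 : ∀ θ : ℝ, (∫ κ : ℝ, m κ * (ff s θ * HJ σ κ (θ : ℂ) / ((Real.sin θ : ℝ) : ℂ) ^ 2)) =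
      ff s θ * Fc σ m θ / ((Real.sin θ : ℝ) : ℂ) ^ 2 := by
    intro θ
    unfold Fc
    have h1 : ∀ κ : ℝ, m κ * (ff s θ * HJ σ κ (θ : ℂ) / ((Real.sin θ : ℝ) : ℂ) ^ 2) =
      (ff s θ / ((Real.sin θ : ℝ) : ℂ) ^ 2) * (m κ * HJ σ κ (θ : ℂ)) := fun κ => by ring
    simp_rw [h1]
    rw [integral_const_mul]
    ring
  simp_rw [h2] at h
  rw [h]
  congr 1
  funext κ
  rw [integral_const_mul]

/-- **(DFC)** the transform of the continuous part has no polar part at `1/2 + i κ₀`, `κ₀ > 0` -/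
theorem DFC {σ : ℝ} (hσ2 : σ ^ 2 = 1) (m : ℝ → ℂ) (hmeas : AEStronglyMeasurable m volume)
    (hm : Integrable (fun κ : ℝ => ‖m κ‖ * (1 + |κ|) ^ (1 / 2 : ℝ)))
    {θ₀ : ℝ} (h0 : θ₀ ∈ II) {κ₀ : ℝ} (hκ₀ : 0 < κ₀) :
    Tendsto (fun η : ℝ => (η : ℂ) *
      ∫ θ in Ioo 0 θ₀, ff (pt κ₀ η) θ * Fc σ m θ / ((Real.sin θ : ℝ) : ℂ) ^ 2)
      (𝓝[>] 0) (𝓝 0) := by
  have hσ : |σ| ≤ 1 := by
    rw [← sq_abs] at hσ2
    nlinarith [abs_nonneg σ]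
  have hge : ∀ κ : ℝ, (1:ℝ) ≤ (1 + |κ|) ^ (1 / 2 : ℝ) := fun κ =>
    Real.one_le_rpow (by linarith [abs_nonneg κ]) (by norm_num)
  have hmi : Integrable m := by
    refine hm.mono' hmeas (Filter.Eventually.of_forall (fun κ => ?_))
    nlinarith [norm_nonneg (m κ), hge κ]
  have hS := Pool.Agent.SP.sin_pos' h0
  have hst := ofReal_strip h0.1 (II_pi h0)
  -- bound of H at θ₀
  obtain ⟨C, hC, hb⟩ := HJ_bound 0 (1 - Real.cos θ₀) (by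
    have := Real.cos_lt_cos_of_nonneg_of_le_pi le_rfl (II_pi h0).le h0.1
    rw [Real.cos_zero] at this
    linarith)
  have hcos0 : 0 < Real.cos θ₀ := Pool.Agent.SP.cos_pos' h0
  have hHb : ∀ κ : ℝ, ‖HJ σ κ (θ₀ : ℂ)‖ ≤ C * (1 + |κ|) ^ (1 / 2 : ℝ) ∧
      ‖HJ1 σ κ (θ₀ : ℂ)‖ ≤ C * (1 + |κ|) ^ (1 / 2 : ℝ) := by
    intro κ
    have h1 := hb σ hσ2 κ (θ₀ : ℂ) hst (by simp) (by
      simp only [Complex.ofReal_im, Complex.ofReal_re, Real.cosh_zero]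
      rw [abs_of_pos hcos0])
    simp only [Complex.ofReal_im, Real.sinh_zero, zero_div, Real.arctan_zero, abs_zero, mul_zero,
      Real.exp_zero, mul_one] at h1
    have hd := dk_pos κ
    have hd1 := dk_le_one κ
    have hd2 : (1 + |κ|) * dk κ = (1 + |κ|) ^ (1 / 2 : ℝ) := by
      unfold dk
      have h : 0 < 1 + |κ| := by positivity
      nth_rw 1 [← Real.rpow_one (1 + |κ|)]
      rw [← Real.rpow_add h]
      norm_num
    rw [hd2] at h1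
    refine ⟨h1.1.trans ?_, h1.2⟩
    exact mul_le_mul_of_nonneg_left (hd1.trans (hge κ)) hC.le
  -- bound of the Wronskian at θ₀, uniform for 0 < η ≤ 1
  set B : ℝ := ((2 + κ₀) * 4 * (1 / Real.sin θ₀) + 4) * C with hB
  have hwk : ∀ η ∈ Ioo (0:ℝ) 1, ∀ κ : ℝ, ‖wk σ κ (pt κ₀ η) θ₀‖ ≤ B * (1 + |κ|) ^ (1 / 2 : ℝ) := by
    intro η hη κ
    have hre : (pt κ₀ η).re = 1 / 2 + η := Pool.Agent.SP.pt_re κ₀ η
    have hs0 : 0 < (pt κ₀ η).re := by rw [hre]; linarith [hη.1]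
    have h2 : 2 / (pt κ₀ η).re ≤ 4 := by
      rw [hre, div_le_iff₀ (by linarith [hη.1])]
      linarith [hη.1]
    have h3 : (Real.sin θ₀) ^ (pt κ₀ η).re ≤ 1 :=
      Real.rpow_le_one hS.le (Real.sin_le_one _) hs0.le
    have h4 : ‖pt κ₀ η‖ ≤ 2 + κ₀ := by
      refine (Complex.norm_le_abs_re_add_abs_im _).trans ?_
      rw [hre, Pool.Agent.SP.pt_im, abs_of_pos hκ₀, abs_of_pos (by linarith [hη.1])]
      linarith [hη.2]
    have e1 : ‖ff (pt κ₀ η) θ₀‖ ≤ 4 := by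
      refine (Pool.Agent.SP.ff_norm_le h0 hs0).trans ?_
      have h5 : 0 ≤ (Real.sin θ₀) ^ (pt κ₀ η).re := Real.rpow_nonneg hS.le _
      nlinarith
    have e2 : ‖fp (pt κ₀ η) θ₀‖ ≤ (2 + κ₀) * 4 * (1 / Real.sin θ₀) := by
      refine (Pool.Agent.SP.fp_norm_le h0 hs0).trans ?_
      have h6 : (Real.sin θ₀) ^ (pt κ₀ η).re / Real.sin θ₀ ≤ 1 / Real.sin θ₀ :=
        div_le_div_of_nonneg_right h3 hS.le
      have h7 : 0 ≤ 2 / (pt κ₀ η).re := by positivity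
      refine mul_le_mul (mul_le_mul h4 h2 h7 (by positivity)) h6 (by positivity) (by positivity)
    obtain ⟨g1, g2⟩ := hHb κ
    have hp : 0 ≤ (1 + |κ|) ^ (1 / 2 : ℝ) := by linarith [hge κ]
    unfold wk
    calc _ ≤ ‖fp (pt κ₀ η) θ₀ * HJ σ κ (θ₀ : ℂ)‖ + ‖ff (pt κ₀ η) θ₀ * HJ1 σ κ (θ₀ : ℂ)‖ :=
          norm_sub_le _ _
      _ ≤ ((2 + κ₀) * 4 * (1 / Real.sin θ₀)) * (C * (1 + |κ|) ^ (1 / 2 : ℝ)) +
          4 * (C * (1 + |κ|) ^ (1 / 2 : ℝ)) := by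
          rw [norm_mul, norm_mul]
          exact add_le_add (mul_le_mul e2 g1 (norm_nonneg _) (by positivity))
            (mul_le_mul e1 g2 (norm_nonneg _) (by norm_num))
      _ = _ := by rw [hB]; ring
  have hB0 : 0 ≤ B := by rw [hB]; positivity
  -- the denominator
  have hden : ∀ η ∈ Ioo (0:ℝ) 1, ∀ κ : ℝ, 2 * η * κ₀ ≤
      ‖(((1 / 4 + κ ^ 2 : ℝ) : ℂ)) - pt κ₀ η * (1 - pt κ₀ η)‖ := fun η _ κ =>
    Pool.Agent.SP.norm_den_pt κ₀ η _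
  have hden0 : ∀ η ∈ Ioo (0:ℝ) 1, ∀ κ : ℝ,
      ((((1 / 4 + κ ^ 2 : ℝ) : ℂ)) - pt κ₀ η * (1 - pt κ₀ η)) ≠ 0 := by
    intro η hη κ h
    have := hden η hη κ
    rw [h, norm_zero] at this
    have : 0 < 2 * η * κ₀ := by have := hη.1; positivity
    linarith
  -- rewrite
  have hrw : ∀ η ∈ Ioo (0:ℝ) 1, (η : ℂ) *
      ∫ θ in Ioo 0 θ₀, ff (pt κ₀ η) θ * Fc σ m θ / ((Real.sin θ : ℝ) : ℂ) ^ 2 =
      ∫ κ : ℝ, m κ * (((η : ℂ) / ((((1 / 4 + κ ^ 2 : ℝ) : ℂ)) - pt κ₀ η * (1 - pt κ₀ η))) *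
        wk σ κ (pt κ₀ η) θ₀) := by
    intro η hη
    have hs : 1 / 2 < (pt κ₀ η).re := by rw [Pool.Agent.SP.pt_re]; linarith [hη.1]
    rw [D_fubini hσ m hmi h0 hs, ← integral_const_mul]
    congr 1
    funext κ
    rw [DI_eq hσ2 κ h0 hs]
    have hX := hden0 η hη κ
    generalize (((1 / 4 + κ ^ 2 : ℝ) : ℂ)) - pt κ₀ η * (1 - pt κ₀ η) = X at hX ⊢
    field_simp
  have hev : ∀ᶠ η in 𝓝[>] (0 : ℝ), η ∈ Ioo (0 : ℝ) 1 := Ioo_mem_nhdsGT one_pos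
  -- continuity in κ of the Wronskian
  have hwcont : ∀ s : ℂ, Continuous (fun κ : ℝ => wk σ κ s θ₀) := by
    intro s
    unfold wk
    exact (continuous_const.mul (HJ_continuous_kappa hσ hst)).sub
      (continuous_const.mul (HJ1_continuous_kappa hσ hst))
  have hlim : Tendsto (fun η : ℝ => ∫ κ : ℝ, m κ * (((η : ℂ) /
      ((((1 / 4 + κ ^ 2 : ℝ) : ℂ)) - pt κ₀ η * (1 - pt κ₀ η))) * wk σ κ (pt κ₀ η) θ₀))
      (𝓝[>] 0) (𝓝 (∫ _κ : ℝ, (0 : ℂ))) := by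
    refine tendsto_integral_filter_of_dominated_convergence
      (fun κ => (B / (2 * κ₀)) * (‖m κ‖ * (1 + |κ|) ^ (1 / 2 : ℝ))) ?_ ?_ (hm.const_mul _) ?_
    · filter_upwards [hev] with η hη
      refine hmeas.mul ?_
      have hc : Continuous (fun κ : ℝ => ((η : ℂ) /
          ((((1 / 4 + κ ^ 2 : ℝ) : ℂ)) - pt κ₀ η * (1 - pt κ₀ η))) * wk σ κ (pt κ₀ η) θ₀) := by
        refine (continuous_const.div ?_ (hden0 η hη)).mul (hwcont _)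
        exact (Complex.continuous_ofReal.comp (by fun_prop)).sub continuous_const
      exact hc.aestronglyMeasurable
    · filter_upwards [hev] with η hη
      refine Filter.Eventually.of_forall (fun κ => ?_)
      have h1 := hden η hη κ
      have hpos : 0 < 2 * η * κ₀ := by have := hη.1; positivity
      rw [norm_mul, norm_mul, norm_div, Complex.norm_real, Real.norm_eq_abs, abs_of_pos hη.1]
      have h2 : η / ‖(((1 / 4 + κ ^ 2 : ℝ) : ℂ)) - pt κ₀ η * (1 - pt κ₀ η)‖ ≤ 1 / (2 * κ₀) := by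
        calc _ ≤ η / (2 * η * κ₀) := div_le_div_of_nonneg_left hη.1.le hpos h1
          _ = _ := by have := hη.1.ne'; field_simp
      have hp : 0 ≤ (1 + |κ|) ^ (1 / 2 : ℝ) := by linarith [hge κ]
      calc ‖m κ‖ * (η / ‖(((1 / 4 + κ ^ 2 : ℝ) : ℂ)) - pt κ₀ η * (1 - pt κ₀ η)‖ *
            ‖wk σ κ (pt κ₀ η) θ₀‖) ≤ ‖m κ‖ * (1 / (2 * κ₀) * (B * (1 + |κ|) ^ (1 / 2 : ℝ))) := by
            refine mul_le_mul_of_nonneg_left ?_ (norm_nonneg _)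
            exact mul_le_mul h2 (hwk η hη κ) (norm_nonneg _) (by positivity)
        _ = _ := by ring
    · have hne : ∀ᵐ κ : ℝ, κ ^ 2 ≠ κ₀ ^ 2 := by
        have hfin : (volume : Measure ℝ) ({κ₀, -κ₀} : Set ℝ) = 0 :=
          (Set.toFinite ({κ₀, -κ₀} : Set ℝ)).measure_zero _
        rw [ae_iff]
        refine measure_mono_null (fun κ hκ => ?_) hfin
        have hκ : κ ^ 2 = κ₀ ^ 2 := not_not.1 hκ
        rcases sq_eq_sq_iff_eq_or_eq_neg.1 hκ with h | h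
        · left; exact h
        · right; exact h
      filter_upwards [hne] with κ hκ
      -- the scalar factor tends to zero
      have h1 : Tendsto (fun η : ℝ => (((1 / 4 + κ ^ 2 : ℝ) : ℂ)) - pt κ₀ η * (1 - pt κ₀ η))
          (𝓝[>] 0) (𝓝 ((((1 / 4 + κ ^ 2 : ℝ) : ℂ)) - pt κ₀ 0 * (1 - pt κ₀ 0))) := by
        have h2 := Pool.Agent.SP.pt_tendsto κ₀
        exact tendsto_const_nhds.sub (h2.mul (tendsto_const_nhds.sub h2))
      have h3 : ((((1 / 4 + κ ^ 2 : ℝ) : ℂ)) - pt κ₀ 0 * (1 - pt κ₀ 0)) ≠ 0 := by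
        rw [Pool.Agent.SP.den_pt]
        have h4 : (1 / 4 + κ ^ 2 - 1 / 4 - κ₀ ^ 2 + 0 ^ 2 : ℝ) ≠ 0 := by
          intro h; apply hκ; linarith
        have h5 : ((((1 / 4 + κ ^ 2 - 1 / 4 - κ₀ ^ 2 + 0 ^ 2 : ℝ)) : ℂ) + 2 * ((0:ℝ) : ℂ) * κ₀ * I) =
            (((1 / 4 + κ ^ 2 - 1 / 4 - κ₀ ^ 2 + 0 ^ 2 : ℝ)) : ℂ) := by push_cast; ring
        rw [h5]
        exact_mod_cast h4
      have h6 : Tendsto (fun η : ℝ => (η : ℂ)) (𝓝[>] 0) (𝓝 0) := by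
        have : Tendsto (fun η : ℝ => (η : ℂ)) (𝓝 0) (𝓝 ((0:ℝ) : ℂ)) :=
          Complex.continuous_ofReal.tendsto 0
        simpa using this.mono_left (nhdsWithin_le_nhds (s := Ioi (0:ℝ)))
      have h7 : Tendsto (fun η : ℝ => (η : ℂ) /
          ((((1 / 4 + κ ^ 2 : ℝ) : ℂ)) - pt κ₀ η * (1 - pt κ₀ η))) (𝓝[>] 0) (𝓝 0) := by
        have h10 := h6.div h1 h3
        rw [zero_div] at h10
        exact h10
      have h8 : Tendsto (fun η : ℝ => ((η : ℂ) /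
          ((((1 / 4 + κ ^ 2 : ℝ) : ℂ)) - pt κ₀ η * (1 - pt κ₀ η))) * wk σ κ (pt κ₀ η) θ₀)
          (𝓝[>] 0) (𝓝 0) := by
        have hbd : ∀ᶠ η : ℝ in 𝓝[>] (0 : ℝ), ‖((η : ℂ) /
          ((((1 / 4 + κ ^ 2 : ℝ) : ℂ)) - pt κ₀ η * (1 - pt κ₀ η))) * wk σ κ (pt κ₀ η) θ₀‖ ≤
          ‖((η : ℂ) / ((((1 / 4 + κ ^ 2 : ℝ) : ℂ)) - pt κ₀ η * (1 - pt κ₀ η)))‖ *
            (B * (1 + |κ|) ^ (1 / 2 : ℝ)) := by
          filter_upwards [hev] with η hη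
          rw [norm_mul]
          exact mul_le_mul_of_nonneg_left (hwk η hη κ) (norm_nonneg _)
        have h9 : Tendsto (fun η : ℝ => ‖((η : ℂ) /
          ((((1 / 4 + κ ^ 2 : ℝ) : ℂ)) - pt κ₀ η * (1 - pt κ₀ η)))‖ *
            (B * (1 + |κ|) ^ (1 / 2 : ℝ))) (𝓝[>] 0) (𝓝 0) := by
          have := h7.norm.mul_const (B * (1 + |κ|) ^ (1 / 2 : ℝ))
          simpa using this
        exact squeeze_zero_norm' hbd h9
      have := h8.const_mul (m κ)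
      simpa using this
  rw [integral_zero] at hlim
  refine hlim.congr' ?_
  filter_upwards [hev] with η hη
  exact (hrw η hη).symm

end Pool.Agent.Lib_helper37.JO
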