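import Pool.Agent.Lib_helper37.JO.A1

open MeasureTheory Complex Set Filter Topology

namespace Pool.Agent.Lib_helper37.JO

lemma DD_hasDerivAt (σ : ℝ) (τ : ℝ) (v : ℂ) :
    HasDerivAt (fun v => DD σ v τ) (DV σ v τ) v := by
  unfold DD DV
  exact ((Complex.hasDerivAt_cosh v).const_mul _).sub ((Complex.hasDerivAt_sinh v).const_mul _)

lemma DV_hasDerivAt (σ : ℝ) (τ : ℝ) (v : ℂ) :
    HasDerivAt (fun v => DV σ v τ) (DD σ v τ) v := by
  unfold DD DV
  exact ((Complex.hasDerivAt_sinh v).const_mul _).sub ((Complex.hasDerivAt_cosh v).const_mul _)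

lemma PP_hasDerivAt {σ : ℝ} (hσ : |σ| ≤ 1) (κ τ : ℝ) {v : ℂ} (hv : 0 < Real.cos v.im) :
    HasDerivAt (fun v => PP σ κ v τ) (-(sx κ) * PP σ κ v τ * RR σ v τ) v := by
  have h := (DD_hasDerivAt σ τ v).cpow_const (c := -(sx κ)) (DD_slit hσ v τ hv)
  refine h.congr_deriv ?_
  unfold PP RR
  rw [Complex.cpow_sub _ _ (DD_ne_zero hσ v τ hv), Complex.cpow_one]
  ring

lemma RR_hasDerivAt {σ : ℝ} (hσ : |σ| ≤ 1) (τ : ℝ) {v : ℂ} (hv : 0 < Real.cos v.im) :
    HasDerivAt (fun v => RR σ v τ) (1 - RR σ v τ ^ 2) v := by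
  have h := (DV_hasDerivAt σ τ v).div (DD_hasDerivAt σ τ v) (DD_ne_zero hσ v τ hv)
  refine h.congr_deriv ?_
  unfold RR
  have := DD_ne_zero hσ v τ hv
  field_simp

/-- the summand of the `j`-th moment -/
noncomputable def TT (σ κ : ℝ) (j : ℕ) (v : ℂ) (τ : ℝ) : ℂ := PP σ κ v τ * (RR σ v τ) ^ j

lemma TT_hasDerivAt {σ : ℝ} (hσ : |σ| ≤ 1) (κ : ℝ) (j : ℕ) (τ : ℝ) {v : ℂ}
    (hv : 0 < Real.cos v.im) :
    HasDerivAt (fun v => TT σ κ j v τ)
      (-(sx κ + j) * TT σ κ (j + 1) v τ + j * TT σ κ (j - 1) v τ) v := by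
  have h := (PP_hasDerivAt hσ κ τ hv).mul ((RR_hasDerivAt hσ τ hv).pow j)
  refine h.congr_deriv ?_
  unfold TT
  simp only [Pi.pow_apply]
  rcases Nat.eq_zero_or_pos j with rfl | hj
  · simp; ring
  · obtain ⟨k, rfl⟩ : ∃ k, j = k + 1 := ⟨j - 1, by omega⟩
    simp only [Nat.add_sub_cancel]
    push_cast
    ring

/-- the bound for the summand on a box -/
lemma norm_TT_le {σ : ℝ} (hσ : |σ| ≤ 1) (κ : ℝ) (j : ℕ) (τ : ℝ) {v : ℂ} {A c : ℝ}
    (hA : |v.re| ≤ A) (hc0 : 0 < c) (hcv : c ≤ Real.cos v.im) :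
    ‖TT σ κ j v τ‖ ≤ ((c * Real.exp (-A)) ^ (-(1 / 2) : ℝ) * Real.exp (Real.pi * |κ|) *
      (2 * Real.cosh A / (c * Real.exp (-A))) ^ j) * hc τ := by
  have hlow := norm_DD_ge hσ τ hA hc0 hcv
  have hk : 0 < c * Real.exp (-A) := by positivity
  have hch := Real.cosh_pos τ
  have hpos : 0 < c * Real.exp (-A) * Real.cosh τ := by positivity
  have hRR : ‖RR σ v τ‖ ≤ 2 * Real.cosh A / (c * Real.exp (-A)) := by
    unfold RR
    rw [norm_div]
    calc ‖DV σ v τ‖ / ‖DD σ v τ‖ ≤ (2 * Real.cosh A * Real.cosh τ) /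
          (c * Real.exp (-A) * Real.cosh τ) := by
          refine div_le_div₀ (by have := Real.cosh_pos A; positivity)
            ((norm_DV_le hσ v τ).trans ?_) hpos hlow
          refine mul_le_mul_of_nonneg_right ?_ hch.le
          refine mul_le_mul_of_nonneg_left ?_ (by norm_num)
          exact Real.cosh_le_cosh.2 (hA.trans (le_abs_self A))
      _ = _ := by field_simp
  have hPP : ‖PP σ κ v τ‖ ≤ (c * Real.exp (-A)) ^ (-(1 / 2) : ℝ) * Real.exp (Real.pi * |κ|)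
      * hc τ := by
    unfold PP
    refine (norm_cpow_sx_le κ _).trans ?_
    have h1 : ‖DD σ v τ‖ ^ (-(1 / 2) : ℝ) ≤ (c * Real.exp (-A) * Real.cosh τ) ^ (-(1 / 2) : ℝ) :=
      Real.rpow_le_rpow_of_nonpos hpos hlow (by norm_num)
    rw [Real.mul_rpow hk.le hch.le] at h1
    calc _ ≤ ((c * Real.exp (-A)) ^ (-(1 / 2) : ℝ) * (Real.cosh τ) ^ (-(1 / 2) : ℝ)) *
          Real.exp (Real.pi * |κ|) := mul_le_mul_of_nonneg_right h1 (Real.exp_pos _).le
      _ = _ := by unfold hc; ring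
  unfold TT
  rw [norm_mul, norm_pow]
  calc _ ≤ ((c * Real.exp (-A)) ^ (-(1 / 2) : ℝ) * Real.exp (Real.pi * |κ|)
      * hc τ) * (2 * Real.cosh A / (c * Real.exp (-A))) ^ j := by
        refine mul_le_mul hPP (pow_le_pow_left₀ (norm_nonneg _) hRR j) (by positivity)
          (mul_nonneg (by positivity) (hc_pos τ).le)
    _ = _ := by ring

lemma DD_cont (σ : ℝ) (v : ℂ) : Continuous (fun τ => DD σ v τ) := by
  unfold DD
  have : Continuous (fun τ : ℝ => ((Real.cosh τ : ℝ) : ℂ)) :=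
    Complex.continuous_ofReal.comp Real.continuous_cosh
  fun_prop

lemma DV_cont (σ : ℝ) (v : ℂ) : Continuous (fun τ => DV σ v τ) := by
  unfold DV
  have : Continuous (fun τ : ℝ => ((Real.cosh τ : ℝ) : ℂ)) :=
    Complex.continuous_ofReal.comp Real.continuous_cosh
  fun_prop

lemma TT_cont {σ : ℝ} (hσ : |σ| ≤ 1) (κ : ℝ) (j : ℕ) {v : ℂ} (hv : 0 < Real.cos v.im) :
    Continuous (fun τ => TT σ κ j v τ) := by
  unfold TT PP RR
  refine ((DD_cont σ v).cpow continuous_const (fun τ => DD_slit hσ v τ hv)).mul ?_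
  exact ((DV_cont σ v).div (DD_cont σ v) (fun τ => DD_ne_zero hσ v τ hv)).pow j

lemma TT_integrable {σ : ℝ} (hσ : |σ| ≤ 1) (κ : ℝ) (j : ℕ) {v : ℂ} (hv : 0 < Real.cos v.im) :
    Integrable (fun τ => TT σ κ j v τ) := by
  refine (hc_integrable.const_mul _).mono' (TT_cont hσ κ j hv).aestronglyMeasurable
    (Filter.Eventually.of_forall (fun τ => norm_TT_le hσ κ j τ le_rfl hv le_rfl))

lemma WW_hasDerivAt {σ : ℝ} (hσ : |σ| ≤ 1) (κ : ℝ) (j : ℕ) {v : ℂ} (hv : 0 < Real.cos v.im) :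
    HasDerivAt (fun v => WW σ κ j v) (-(sx κ + j) * WW σ κ (j + 1) v + j * WW σ κ (j - 1) v) v := by
  set c : ℝ := Real.cos v.im / 2 with hcdef
  set A : ℝ := |v.re| + 1 with hAdef
  have hc0 : 0 < c := by positivity
  set s : Set ℂ := {w | c < Real.cos w.im ∧ |w.re| < A} with hs
  have hopen : IsOpen s := by
    refine (isOpen_lt continuous_const (Real.continuous_cos.comp Complex.continuous_im)).inter
      (isOpen_lt (continuous_abs.comp Complex.continuous_re) continuous_const)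
  have hmem : v ∈ s := ⟨by rw [hcdef]; linarith, by rw [hAdef]; linarith⟩
  have hnhds : s ∈ 𝓝 v := hopen.mem_nhds hmem
  set K : ℕ → ℝ := fun j => ((c * Real.exp (-A)) ^ (-(1 / 2) : ℝ) * Real.exp (Real.pi * |κ|) *
      (2 * Real.cosh A / (c * Real.exp (-A))) ^ j) with hK
  have key := hasDerivAt_integral_of_dominated_loc_of_deriv_le (μ := volume) (𝕜 := ℂ)
    (F := fun w τ => TT σ κ j w τ)
    (F' := fun w τ => -(sx κ + j) * TT σ κ (j + 1) w τ + j * TT σ κ (j - 1) w τ)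
    (bound := fun τ => ‖(sx κ + j)‖ * (K (j + 1) * hc τ) + j * (K (j - 1) * hc τ))
    (x₀ := v) hnhds
    (Filter.eventually_of_mem hnhds (fun w hw =>
      (TT_cont hσ κ j (hc0.trans hw.1)).aestronglyMeasurable))
    (TT_integrable hσ κ j hv)
    (((continuous_const.mul (TT_cont hσ κ (j + 1) hv)).add
      (continuous_const.mul (TT_cont hσ κ (j - 1) hv))).aestronglyMeasurable)
    (Filter.Eventually.of_forall (fun τ w hw => by
      refine (norm_add_le _ _).trans ?_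
      rw [norm_mul, norm_mul, norm_neg, Complex.norm_natCast]
      refine add_le_add (mul_le_mul_of_nonneg_left ?_ (norm_nonneg _))
        (mul_le_mul_of_nonneg_left ?_ (Nat.cast_nonneg _))
      · exact norm_TT_le hσ κ (j + 1) τ hw.2.le hc0 hw.1.le
      · exact norm_TT_le hσ κ (j - 1) τ hw.2.le hc0 hw.1.le))
    (((hc_integrable.const_mul _).const_mul _).add ((hc_integrable.const_mul _).const_mul _))
    (Filter.Eventually.of_forall (fun τ w hw => TT_hasDerivAt hσ κ j τ (hc0.trans hw.1)))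
  refine key.2.congr_deriv ?_
  rw [integral_add ((TT_integrable hσ κ (j + 1) hv).const_mul _)
    ((TT_integrable hσ κ (j - 1) hv).const_mul _), integral_const_mul, integral_const_mul]
  rfl

/-- the ray integral in the variable `v` -/
noncomputable def YY (σ κ : ℝ) (v : ℂ) : ℂ := ∫ τ : ℝ, (DD σ v τ) ^ (-(sx κ))

/-- its derivative -/
noncomputable def YY1 (σ κ : ℝ) (v : ℂ) : ℂ := -(sx κ) * WW σ κ 1 v

lemma YY_eq (σ κ : ℝ) (v : ℂ) : YY σ κ v = WW σ κ 0 v := by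
  unfold YY WW PP; simp

lemma YY_hasDerivAt {σ : ℝ} (hσ : |σ| ≤ 1) (κ : ℝ) {v : ℂ} (hv : 0 < Real.cos v.im) :
    HasDerivAt (YY σ κ) (YY1 σ κ v) v := by
  have h := WW_hasDerivAt hσ κ 0 hv
  have h2 : (fun v => WW σ κ 0 v) = YY σ κ := by
    funext v; exact (YY_eq σ κ v).symm
  rw [h2] at h
  refine h.congr_deriv ?_
  unfold YY1; simp

lemma YY1_hasDerivAt {σ : ℝ} (hσ : |σ| ≤ 1) (κ : ℝ) {v : ℂ} (hv : 0 < Real.cos v.im) :
    HasDerivAt (YY1 σ κ) (sx κ * (sx κ + 1) * WW σ κ 2 v - sx κ * WW σ κ 0 v) v := by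
  have h := (WW_hasDerivAt hσ κ 1 hv).const_mul (-(sx κ))
  refine h.congr_deriv ?_
  simp only [Nat.cast_one]
  ring_nf

/-! ### The differential equation -/

lemma YY_ode {σ : ℝ} (hσ2 : σ ^ 2 = 1) (κ : ℝ) {v : ℂ} (hv : 0 < Real.cos v.im) :
    (sx κ * (sx κ + 1) * WW σ κ 2 v - sx κ * WW σ κ 0 v) =
      -(Complex.sinh v / Complex.cosh v * YY1 σ κ v) - ((1 / 4 : ℂ) + κ ^ 2) * YY σ κ v := by
  have hσ : |σ| ≤ 1 := by
    rw [← sq_abs] at hσ2
    nlinarith [abs_nonneg σ]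
  have hcv : Complex.cosh v ≠ 0 := by
    intro h
    have h1 := congrArg Complex.re h
    rw [cosh_re'] at h1
    have : 0 < Real.cosh v.re * Real.cos v.im := mul_pos (Real.cosh_pos _) hv
    simp only [Complex.zero_re] at h1
    linarith
  -- the `τ`-derivatives of the power
  set g0 : ℝ → ℂ := fun τ => PP σ κ v τ with hg0
  set q : ℝ → ℂ := fun τ => ((Real.sinh τ : ℝ) : ℂ) * Complex.cosh v / DD σ v τ with hq
  set r : ℝ → ℂ := fun τ => ((Real.cosh τ : ℝ) : ℂ) * Complex.cosh v / DD σ v τ with hr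
  have hDτ : ∀ τ : ℝ, HasDerivAt (fun τ => DD σ v τ) (((Real.sinh τ : ℝ) : ℂ) * Complex.cosh v) τ := by
    intro τ
    unfold DD
    have h1 : HasDerivAt (fun τ : ℝ => ((Real.cosh τ : ℝ) : ℂ)) ((Real.sinh τ : ℝ) : ℂ) τ :=
      (Real.hasDerivAt_cosh τ).ofReal_comp
    exact (h1.mul_const _).sub_const _
  have hSτ : ∀ τ : ℝ, HasDerivAt (fun τ : ℝ => ((Real.sinh τ : ℝ) : ℂ) * Complex.cosh v)
      (((Real.cosh τ : ℝ) : ℂ) * Complex.cosh v) τ := by
    intro τ
    have h1 : HasDerivAt (fun τ : ℝ => ((Real.sinh τ : ℝ) : ℂ)) ((Real.cosh τ : ℝ) : ℂ) τ :=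
      (Real.hasDerivAt_sinh τ).ofReal_comp
    exact h1.mul_const _
  have hPτ : ∀ τ : ℝ, HasDerivAt g0 (-(sx κ) * g0 τ * q τ) τ := by
    intro τ
    have h0 : HasDerivAt (fun z : ℂ => z ^ (-(sx κ))) (-(sx κ) * (DD σ v τ) ^ (-(sx κ) - 1))
        (DD σ v τ) := by
      have := (hasDerivAt_id (DD σ v τ)).cpow_const (c := -(sx κ)) (DD_slit hσ v τ hv)
      simpa using this
    have h := HasDerivAt.comp τ h0 (hDτ τ)
    refine h.congr_deriv ?_
    simp only [hg0, hq, PP]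
    rw [Complex.cpow_sub _ _ (DD_ne_zero hσ v τ hv), Complex.cpow_one]
    ring
  have hqτ : ∀ τ : ℝ, HasDerivAt q (r τ - q τ ^ 2) τ := by
    intro τ
    have h := (hSτ τ).div (hDτ τ) (DD_ne_zero hσ v τ hv)
    refine h.congr_deriv ?_
    simp only [hq, hr]
    have := DD_ne_zero hσ v τ hv
    field_simp
  have hP2 : ∀ τ : ℝ, HasDerivAt (fun τ => -(sx κ) * g0 τ * q τ)
      (-(sx κ) * (g0 τ * (r τ - (sx κ + 1) * q τ ^ 2))) τ := by
    intro τ
    have h := ((hPτ τ).const_mul (-(sx κ))).mul (hqτ τ)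
    refine (h.congr_deriv ?_)
    ring
  -- the bounds
  have hcont0 : Continuous g0 := by
    have := TT_cont hσ κ 0 hv
    simpa [TT, hg0] using this
  have hcq : Continuous q := by
    simp only [hq]
    have h1 : Continuous (fun τ : ℝ => ((Real.sinh τ : ℝ) : ℂ)) :=
      Complex.continuous_ofReal.comp Real.continuous_sinh
    exact (h1.mul continuous_const).div (DD_cont σ v) (fun τ => DD_ne_zero hσ v τ hv)
  have hcr : Continuous r := by
    simp only [hr]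
    have h1 : Continuous (fun τ : ℝ => ((Real.cosh τ : ℝ) : ℂ)) :=
      Complex.continuous_ofReal.comp Real.continuous_cosh
    exact (h1.mul continuous_const).div (DD_cont σ v) (fun τ => DD_ne_zero hσ v τ hv)
  set L : ℝ := Real.cosh v.re / (Real.cos v.im * Real.exp (-|v.re|)) with hL
  have hbound : ∀ (z : ℝ) (τ : ℝ), |z| ≤ Real.cosh τ →
      ‖((z : ℝ) : ℂ) * Complex.cosh v / DD σ v τ‖ ≤ L := by
    intro z τ hz
    have hlow := norm_DD_ge hσ τ (le_refl |v.re|) hv le_rfl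
    have hpos : 0 < Real.cos v.im * Real.exp (-|v.re|) * Real.cosh τ := by
      have := Real.cosh_pos τ
      positivity
    rw [norm_div, norm_mul, Complex.norm_real, Real.norm_eq_abs]
    calc _ ≤ (Real.cosh τ * Real.cosh v.re) / (Real.cos v.im * Real.exp (-|v.re|) * Real.cosh τ) := by
          refine div_le_div₀ (by have := Real.cosh_pos τ; have := Real.cosh_pos v.re; positivity)
            (mul_le_mul hz (norm_cosh_le v) (norm_nonneg _) (Real.cosh_pos τ).le) hpos hlow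
      _ = L := by
          rw [hL]
          have := (Real.cosh_pos τ).ne'
          field_simp
  have hqL : ∀ τ, ‖q τ‖ ≤ L := fun τ => hbound _ τ (by
    rw [Real.abs_sinh, ← Real.cosh_abs τ]; exact (Real.sinh_lt_cosh _).le)
  have hrL : ∀ τ, ‖r τ‖ ≤ L := fun τ => hbound _ τ (by
    rw [abs_of_pos (Real.cosh_pos τ)])
  have hL0 : 0 ≤ L := (norm_nonneg _).trans (hqL 0)
  have hint0 : Integrable g0 := by
    have := TT_integrable hσ κ 0 hv
    simpa [TT, hg0] using this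
  have hintq : Integrable (fun τ => g0 τ * q τ) :=
    hint0.mul_bdd hcq.aestronglyMeasurable (Filter.Eventually.of_forall hqL)
  have hintr : Integrable (fun τ => g0 τ * (r τ - (sx κ + 1) * q τ ^ 2)) := by
    refine hint0.mul_bdd (c := L + ‖sx κ + 1‖ * L ^ 2)
      ((hcr.sub (continuous_const.mul (hcq.pow 2))).aestronglyMeasurable)
      (Filter.Eventually.of_forall (fun τ => ?_))
    refine (norm_sub_le _ _).trans ?_
    rw [norm_mul, norm_pow]
    exact add_le_add (hrL τ) (mul_le_mul_of_nonneg_left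
      (pow_le_pow_left₀ (norm_nonneg _) (hqL τ) 2) (norm_nonneg _))
  have hzero : ∫ τ : ℝ, -(sx κ) * (g0 τ * (r τ - (sx κ + 1) * q τ ^ 2)) = 0 := by
    refine integral_eq_zero_of_hasDerivAt_of_integrable hP2 (hintr.const_mul _) ?_
    have : Integrable (fun τ => -(sx κ) * (g0 τ * q τ)) := hintq.const_mul _
    simpa [mul_assoc] using this
  -- the pointwise identity
  have hpt : ∀ τ : ℝ, sx κ * (sx κ + 1) * TT σ κ 2 v τ - sx κ * TT σ κ 0 v τ
      + Complex.sinh v / Complex.cosh v * (-(sx κ) * TT σ κ 1 v τ)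
      + sx κ * (1 - sx κ) * TT σ κ 0 v τ =
      -(1 / Complex.cosh v ^ 2) * (-(sx κ) * (g0 τ * (r τ - (sx κ + 1) * q τ ^ 2))) := by
    intro τ
    have hD := DD_ne_zero hσ v τ hv
    have hch : Complex.cosh v ^ 2 = 1 + Complex.sinh v ^ 2 := by
      rw [Complex.cosh_sq]; ring
    have hct : ((Real.cosh τ : ℝ) : ℂ) ^ 2 = 1 + ((Real.sinh τ : ℝ) : ℂ) ^ 2 := by
      have := Real.cosh_sq τ
      have h2 : ((Real.cosh τ ^ 2 : ℝ) : ℂ) = ((Real.sinh τ ^ 2 + 1 : ℝ) : ℂ) := by rw [this]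
      push_cast at h2 ⊢
      rw [h2]; ring
    have hs2 : (σ : ℂ) ^ 2 = 1 := by
      have : ((σ ^ 2 : ℝ) : ℂ) = ((1 : ℝ) : ℂ) := by rw [hσ2]
      push_cast at this
      exact this
    have key : sx κ * (sx κ + 1) * RR σ v τ ^ 2 - sx κ
        + Complex.sinh v / Complex.cosh v * (-(sx κ) * RR σ v τ)
        + sx κ * (1 - sx κ) =
        -(1 / Complex.cosh v ^ 2) * (-(sx κ) * (r τ - (sx κ + 1) * q τ ^ 2)) := by
      simp only [RR, hr, hq]
      have hDdef : DD σ v τ = ((Real.cosh τ : ℝ) : ℂ) * Complex.cosh v - σ * Complex.sinh v := rfl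
      have hVdef : DV σ v τ = ((Real.cosh τ : ℝ) : ℂ) * Complex.sinh v - σ * Complex.cosh v := rfl
      have hE1 : DV σ v τ ^ 2 + ((Real.sinh τ : ℝ) : ℂ) ^ 2 = DD σ v τ ^ 2 := by
        rw [hDdef, hVdef]
        have : ((Real.sinh τ : ℝ) : ℂ) ^ 2 = ((Real.cosh τ : ℝ) : ℂ) ^ 2 - 1 := by rw [hct]; ring
        rw [this]
        linear_combination (((Real.cosh τ : ℝ) : ℂ) ^ 2 * (-1) + (σ : ℂ) ^ 2) * hch + hs2
      have hE2 : Complex.sinh v * DV σ v τ + ((Real.cosh τ : ℝ) : ℂ) =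
          Complex.cosh v * DD σ v τ := by
        rw [hDdef, hVdef]
        linear_combination (-((Real.cosh τ : ℝ) : ℂ)) * hch
      field_simp
      have hE1' : ((Real.sinh τ : ℝ) : ℂ) ^ 2 = DD σ v τ ^ 2 - DV σ v τ ^ 2 := by
        rw [← hE1]; ring
      have hE2' : ((Real.cosh τ : ℝ) : ℂ) = Complex.cosh v * DD σ v τ - Complex.sinh v * DV σ v τ := by
        rw [← hE2]; ring
      rw [hE2']
      linear_combination (sx κ * (sx κ + 1) * Complex.cosh v) * hE1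
    unfold TT
    simp only [hg0]
    linear_combination (PP σ κ v τ) * key
  have hsum : (∫ τ : ℝ, (sx κ * (sx κ + 1) * TT σ κ 2 v τ - sx κ * TT σ κ 0 v τ
      + Complex.sinh v / Complex.cosh v * (-(sx κ) * TT σ κ 1 v τ)
      + sx κ * (1 - sx κ) * TT σ κ 0 v τ)) = 0 := by
    simp_rw [hpt]
    rw [integral_const_mul, hzero, mul_zero]
  have hi0 := TT_integrable hσ κ 0 hv
  have hi1 := TT_integrable hσ κ 1 hv
  have hi2 := TT_integrable hσ κ 2 hv
  have ha2 : Integrable (fun τ => sx κ * (sx κ + 1) * TT σ κ 2 v τ) := hi2.const_mul _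
  have ha0 : Integrable (fun τ => sx κ * TT σ κ 0 v τ) := hi0.const_mul _
  have ha1 : Integrable (fun τ => Complex.sinh v / Complex.cosh v * (-(sx κ) * TT σ κ 1 v τ)) :=
    (hi1.const_mul _).const_mul _
  have ha3 : Integrable (fun τ => sx κ * (1 - sx κ) * TT σ κ 0 v τ) := hi0.const_mul _
  have hb1 : Integrable (fun τ => sx κ * (sx κ + 1) * TT σ κ 2 v τ - sx κ * TT σ κ 0 v τ) :=
    ha2.sub ha0
  have hb2 : Integrable (fun τ => sx κ * (sx κ + 1) * TT σ κ 2 v τ - sx κ * TT σ κ 0 v τ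
      + Complex.sinh v / Complex.cosh v * (-(sx κ) * TT σ κ 1 v τ)) := hb1.add ha1
  rw [integral_add hb2 ha3, integral_add hb1 ha1, integral_sub ha2 ha0] at hsum
  simp only [integral_const_mul] at hsum
  have hW0 : ∫ τ : ℝ, TT σ κ 0 v τ = WW σ κ 0 v := rfl
  have hW1 : ∫ τ : ℝ, TT σ κ 1 v τ = WW σ κ 1 v := rfl
  have hW2 : ∫ τ : ℝ, TT σ κ 2 v τ = WW σ κ 2 v := rfl
  rw [hW0, hW1, hW2] at hsum
  have hlam : sx κ * (1 - sx κ) = (1 / 4 : ℂ) + κ ^ 2 := by
    unfold sx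
    have := Complex.I_sq
    linear_combination (-(κ : ℂ) ^ 2) * this
  rw [hlam] at hsum
  rw [YY_eq]
  unfold YY1
  linear_combination hsum

end Pool.Agent.Lib_helper37.JO
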