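import Pool.Agent.Lib_helper37.JO.A2

open MeasureTheory Complex Set Filter Topology

namespace Pool.Agent.Lib_helper37.JO

/-! ### Energy inequality -/

lemma gronwall_unit {E E' : ℝ → ℝ} {K : ℝ} (hE : ∀ t ∈ Icc (0:ℝ) 1, HasDerivAt E (E' t) t)
    (hK : ∀ t ∈ Icc (0:ℝ) 1, E' t ≤ K * E t) : E 1 ≤ E 0 * Real.exp K := by
  set f : ℝ → ℝ := fun t => E t * Real.exp (-(K * t)) with hf
  have hfd : ∀ t ∈ Icc (0:ℝ) 1, HasDerivAt f ((E' t - K * E t) * Real.exp (-(K * t))) t := by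
    intro t ht
    have h1 : HasDerivAt (fun t : ℝ => -(K * t)) (-K) t := by
      simpa using ((hasDerivAt_id t).const_mul K).fun_neg
    have h2 := (hE t ht).mul h1.exp
    refine h2.congr_deriv ?_
    ring
  have hanti : AntitoneOn f (Icc 0 1) := by
    refine antitoneOn_of_deriv_nonpos (convex_Icc 0 1)
      (fun t ht => (hfd t ht).continuousAt.continuousWithinAt)
      (fun t ht => (hfd t (interior_subset ht)).differentiableAt.differentiableWithinAt) ?_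
    intro t ht
    rw [(hfd t (interior_subset ht)).deriv]
    have := hK t (interior_subset ht)
    exact mul_nonpos_of_nonpos_of_nonneg (by linarith) (Real.exp_pos _).le
  have h := hanti (left_mem_Icc.2 zero_le_one) (right_mem_Icc.2 zero_le_one) zero_le_one
  simp only [hf, mul_zero, neg_zero, Real.exp_zero, mul_one] at h
  calc E 1 = (E 1 * Real.exp (-K)) * Real.exp K := by
        rw [mul_assoc, ← Real.exp_add]; simp
    _ ≤ E 0 * Real.exp K := mul_le_mul_of_nonneg_right h (Real.exp_pos _).le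

/-- the energy inequality for `y'' = - T y' - lam y` along the direction `w` -/
lemma energy_ineq {y z T w : ℂ} {lam L : ℝ} (hlam : 0 ≤ lam) (hT : ‖T‖ ≤ L) :
    2 * (inner ℝ z (w * (-(T * z) - lam * y))) + lam * (2 * inner ℝ y (w * z)) ≤
      (2 * Real.sqrt lam * |w.im| + 2 * L * ‖w‖) * (‖z‖ ^ 2 + lam * ‖y‖ ^ 2) := by
  have h1 : 2 * (inner ℝ z (w * (-(T * z) - lam * y))) + lam * (2 * inner ℝ y (w * z)) =
      -2 * ((starRingEnd ℂ z) * (w * (T * z))).re - 4 * lam * w.im * (y.re * z.im - y.im * z.re) := by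
    simp only [Complex.inner, Complex.mul_re, Complex.mul_im, Complex.conj_re, Complex.conj_im,
      Complex.sub_re, Complex.sub_im, Complex.neg_re, Complex.neg_im, Complex.ofReal_re,
      Complex.ofReal_im]
    ring
  rw [h1]
  have h2 : -2 * ((starRingEnd ℂ z) * (w * (T * z))).re ≤ 2 * L * ‖w‖ * ‖z‖ ^ 2 := by
    have h3 : -((starRingEnd ℂ z) * (w * (T * z))).re ≤ ‖z‖ * (‖w‖ * (‖T‖ * ‖z‖)) := by
      calc _ ≤ |((starRingEnd ℂ z) * (w * (T * z))).re| := neg_le_abs _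
        _ ≤ ‖(starRingEnd ℂ z) * (w * (T * z))‖ := Complex.abs_re_le_norm _
        _ = _ := by rw [norm_mul, norm_mul, norm_mul, Complex.norm_conj]
    have h4 : ‖z‖ * (‖w‖ * (‖T‖ * ‖z‖)) ≤ ‖z‖ * (‖w‖ * (L * ‖z‖)) := by
      gcongr
    nlinarith
  have h5 : |y.re * z.im - y.im * z.re| ≤ ‖y‖ * ‖z‖ := by
    have h6 : (y.re * z.im - y.im * z.re) = ((starRingEnd ℂ y) * z).im := by
      simp only [Complex.mul_im, Complex.conj_re, Complex.conj_im]; ring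
    rw [h6]
    calc _ ≤ ‖(starRingEnd ℂ y) * z‖ := Complex.abs_im_le_norm _
      _ = _ := by rw [norm_mul, Complex.norm_conj]
  have h7 : -(4 * lam * w.im * (y.re * z.im - y.im * z.re)) ≤
      4 * lam * |w.im| * (‖y‖ * ‖z‖) := by
    calc _ ≤ |4 * lam * w.im * (y.re * z.im - y.im * z.re)| := neg_le_abs _
      _ = 4 * lam * |w.im| * |y.re * z.im - y.im * z.re| := by
          rw [abs_mul, abs_mul, abs_mul, abs_of_nonneg hlam, abs_of_nonneg (by norm_num : (0:ℝ) ≤ 4)]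
      _ ≤ _ := mul_le_mul_of_nonneg_left h5 (by positivity)
  set r : ℝ := Real.sqrt lam with hr
  have hr2 : r ^ 2 = lam := Real.sq_sqrt hlam
  have hr0 : 0 ≤ r := Real.sqrt_nonneg _
  have h8 : 4 * lam * |w.im| * (‖y‖ * ‖z‖) ≤ 2 * r * |w.im| * (‖z‖ ^ 2 + lam * ‖y‖ ^ 2) := by
    rw [← hr2]
    have h9 : 2 * (r * ‖y‖) * ‖z‖ ≤ ‖z‖ ^ 2 + r ^ 2 * ‖y‖ ^ 2 := by
      nlinarith [sq_nonneg (‖z‖ - r * ‖y‖)]
    have h10 : 0 ≤ 2 * r * |w.im| := by positivity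
    nlinarith [mul_le_mul_of_nonneg_left h9 h10]
  have h11 : 0 ≤ 2 * L * ‖w‖ * (lam * ‖y‖ ^ 2) := by
    have : 0 ≤ L := (norm_nonneg _).trans hT
    positivity
  nlinarith

/-- the constant `1/4 + κ²` -/
noncomputable def lam (κ : ℝ) : ℝ := 1 / 4 + κ ^ 2

lemma lam_pos (κ : ℝ) : 0 < lam κ := by unfold lam; positivity

lemma norm_sx_sq (κ : ℝ) : ‖sx κ‖ ^ 2 = lam κ := by
  rw [← Complex.normSq_eq_norm_sq, Complex.normSq_apply, sx_re, sx_im]
  unfold lam; ring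

lemma sqrt_lam_le (κ : ℝ) : Real.sqrt (lam κ) ≤ |κ| + 1 / 2 := by
  rw [Real.sqrt_le_left (by positivity)]
  unfold lam
  have := sq_abs κ
  nlinarith [abs_nonneg κ]

lemma cos_im_pos_of_lt {v : ℂ} (hv : |v.im| < Real.pi / 2) : 0 < Real.cos v.im := by
  have := abs_lt.1 hv
  exact Real.cos_pos_of_mem_Ioo ⟨by linarith, this.2⟩

lemma energy_segment {σ : ℝ} (hσ2 : σ ^ 2 = 1) (κ : ℝ) {v : ℂ} (hv : |v.im| < Real.pi / 2)
    {L : ℝ} (hL : ∀ t ∈ Icc (0:ℝ) 1, ‖Complex.sinh (t * v) / Complex.cosh (t * v)‖ ≤ L) :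
    ‖YY1 σ κ v‖ ^ 2 + lam κ * ‖YY σ κ v‖ ^ 2 ≤
      (‖YY1 σ κ 0‖ ^ 2 + lam κ * ‖YY σ κ 0‖ ^ 2) *
        Real.exp (2 * Real.sqrt (lam κ) * |v.im| + 2 * L * ‖v‖) := by
  have hσ : |σ| ≤ 1 := by
    rw [← sq_abs] at hσ2
    nlinarith [abs_nonneg σ]
  have hcos : ∀ t ∈ Icc (0:ℝ) 1, 0 < Real.cos (t * v : ℂ).im := by
    intro t ht
    apply cos_im_pos_of_lt
    have h1 : (t * v : ℂ).im = t * v.im := by simp
    rw [h1, abs_mul, abs_of_nonneg ht.1]
    calc t * |v.im| ≤ 1 * |v.im| := mul_le_mul_of_nonneg_right ht.2 (abs_nonneg _)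
      _ = |v.im| := one_mul _
      _ < _ := hv
  have hlin : ∀ t : ℝ, HasDerivAt (fun t : ℝ => (t * v : ℂ)) v t := by
    intro t
    have h := (Complex.ofRealCLM.hasDerivAt (x := t)).mul_const v
    simpa using h
  have hy : ∀ t ∈ Icc (0:ℝ) 1, HasDerivAt (fun t : ℝ => YY σ κ (t * v)) (v * YY1 σ κ (t * v)) t := by
    intro t ht
    have h := (YY_hasDerivAt hσ κ (hcos t ht)).comp_of_eq t (hlin t) rfl
    refine h.congr_deriv ?_
    ring
  have hz : ∀ t ∈ Icc (0:ℝ) 1, HasDerivAt (fun t : ℝ => YY1 σ κ (t * v))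
      (v * (-(Complex.sinh (t * v) / Complex.cosh (t * v) * YY1 σ κ (t * v))
        - (lam κ : ℂ) * YY σ κ (t * v))) t := by
    intro t ht
    have h := (YY1_hasDerivAt hσ κ (hcos t ht)).comp_of_eq t (hlin t) rfl
    refine h.congr_deriv ?_
    rw [YY_ode hσ2 κ (hcos t ht)]
    unfold lam
    push_cast
    ring
  have hE : ∀ t ∈ Icc (0:ℝ) 1, HasDerivAt
      (fun t : ℝ => ‖YY1 σ κ (t * v)‖ ^ 2 + lam κ * ‖YY σ κ (t * v)‖ ^ 2)
      (2 * (inner ℝ (YY1 σ κ (t * v))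
        (v * (-(Complex.sinh (t * v) / Complex.cosh (t * v) * YY1 σ κ (t * v))
        - (lam κ : ℂ) * YY σ κ (t * v)))) +
        lam κ * (2 * inner ℝ (YY σ κ (t * v)) (v * YY1 σ κ (t * v)))) t := by
    intro t ht
    exact ((hz t ht).norm_sq).add (((hy t ht).norm_sq).const_mul _)
  have hK : ∀ t ∈ Icc (0:ℝ) 1, (2 * (inner ℝ (YY1 σ κ (t * v))
        (v * (-(Complex.sinh (t * v) / Complex.cosh (t * v) * YY1 σ κ (t * v))
        - (lam κ : ℂ) * YY σ κ (t * v)))) +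
        lam κ * (2 * inner ℝ (YY σ κ (t * v)) (v * YY1 σ κ (t * v)))) ≤
        (2 * Real.sqrt (lam κ) * |v.im| + 2 * L * ‖v‖) *
        (‖YY1 σ κ (t * v)‖ ^ 2 + lam κ * ‖YY σ κ (t * v)‖ ^ 2) := by
    intro t ht
    exact energy_ineq (lam_pos κ).le (hL t ht)
  have h := gronwall_unit hE hK
  simpa using h

/-! ### The hyperbolic tangent along the segment -/

lemma one_sub_le_cos {t b : ℝ} (ht : t ∈ Icc (0:ℝ) 1) (hb : |b| ≤ Real.pi / 2) :
    1 - t ≤ Real.cos (t * b) := by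
  rw [← Real.cos_abs, abs_mul, abs_of_nonneg ht.1]
  have hpi := Real.pi_pos
  have h1 : t * |b| ≤ Real.pi / 2 := by
    calc t * |b| ≤ 1 * |b| := mul_le_mul_of_nonneg_right ht.2 (abs_nonneg _)
      _ ≤ _ := by linarith
  have h2 := Real.one_sub_mul_le_cos (x := t * |b|) (mul_nonneg ht.1 (abs_nonneg _)) h1
  refine le_trans ?_ h2
  have h3 : 2 / Real.pi * (t * |b|) ≤ 2 / Real.pi * (t * (Real.pi / 2)) := by
    gcongr
    exact ht.1
  have h4 : 2 / Real.pi * (t * (Real.pi / 2)) = t := by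
    field_simp
  linarith

lemma norm_cosh_seg {v : ℂ} (hv : |v.im| ≤ Real.pi / 2) {t : ℝ} (ht : t ∈ Icc (0:ℝ) 1) :
    v.re ^ 2 / (1 + v.re ^ 2) ≤ ‖Complex.cosh (t * v)‖ ^ 2 := by
  rw [norm_sq_cosh]
  have h1 : (t * v : ℂ).re = t * v.re := by simp
  have h2 : (t * v : ℂ).im = t * v.im := by simp
  rw [h1, h2]
  have h3 := one_sub_le_cos ht hv
  have h4 : 0 ≤ 1 - t := by linarith [ht.2]
  have h5 : (1 - t) ^ 2 ≤ Real.cos (t * v.im) ^ 2 := pow_le_pow_left₀ h4 h3 2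
  have h6 : (t * v.re) ^ 2 ≤ Real.sinh (t * v.re) ^ 2 := by
    rw [← sq_abs (t * v.re), ← sq_abs (Real.sinh _), Real.abs_sinh]
    exact pow_le_pow_left₀ (abs_nonneg _) (Real.self_le_sinh_iff.2 (abs_nonneg _)) 2
  rw [div_le_iff₀ (by positivity)]
  nlinarith [sq_nonneg (t * (1 + v.re ^ 2) - 1), sq_nonneg v.re]

lemma tanh_seg_le {v : ℂ} (hv : |v.im| ≤ Real.pi / 2) {t : ℝ} (ht : t ∈ Icc (0:ℝ) 1)
    (hre : v.re ≠ 0) :
    ‖Complex.sinh (t * v) / Complex.cosh (t * v)‖ ≤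
      Real.cosh v.re * (Real.sqrt (1 + v.re ^ 2) / |v.re|) := by
  have h1 := norm_cosh_seg hv ht
  have hpos : 0 < |v.re| := abs_pos.2 hre
  have h2 : |v.re| / Real.sqrt (1 + v.re ^ 2) ≤ ‖Complex.cosh (t * v)‖ := by
    refine le_of_sq_le_sq ?_ (norm_nonneg _)
    rw [div_pow, Real.sq_sqrt (by positivity), sq_abs]
    exact h1
  have hsq : 0 < Real.sqrt (1 + v.re ^ 2) := Real.sqrt_pos.2 (by positivity)
  have h3 : ‖Complex.sinh (t * v)‖ ≤ Real.cosh v.re := by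
    refine (norm_sinh_le _).trans ?_
    have h1 : (t * v : ℂ).re = t * v.re := by simp
    rw [h1]
    refine Real.cosh_le_cosh.2 ?_
    rw [abs_mul, abs_of_nonneg ht.1]
    calc t * |v.re| ≤ 1 * |v.re| := mul_le_mul_of_nonneg_right ht.2 (abs_nonneg _)
      _ = _ := one_mul _
  rw [norm_div]
  calc _ ≤ Real.cosh v.re / (|v.re| / Real.sqrt (1 + v.re ^ 2)) :=
        div_le_div₀ (Real.cosh_pos _).le h3 (by positivity) h2
    _ = _ := by field_simp

lemma tanh_seg_le' {v : ℂ} {c : ℝ} (hc : 0 < c) (hcv : c ≤ Real.cos v.im)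
    (hv : |v.im| ≤ Real.pi / 2) {t : ℝ} (ht : t ∈ Icc (0:ℝ) 1) :
    ‖Complex.sinh (t * v) / Complex.cosh (t * v)‖ ≤ Real.cosh v.re / c := by
  have h1 : (t * v : ℂ).re = t * v.re := by simp
  have h2 : (t * v : ℂ).im = t * v.im := by simp
  have h5 : Real.cos v.im ≤ Real.cos (t * v.im) := by
    rw [← Real.cos_abs v.im, ← Real.cos_abs (t * v.im)]
    refine Real.cos_le_cos_of_nonneg_of_le_pi (abs_nonneg _)
      (by have := Real.pi_pos; linarith) ?_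
    rw [abs_mul, abs_of_nonneg ht.1]
    calc t * |v.im| ≤ 1 * |v.im| := mul_le_mul_of_nonneg_right ht.2 (abs_nonneg _)
      _ = _ := one_mul _
  have h6 : c ≤ ‖Complex.cosh (t * v)‖ := by
    refine le_of_sq_le_sq ?_ (norm_nonneg _)
    rw [norm_sq_cosh, h1, h2]
    have : c ^ 2 ≤ Real.cos (t * v.im) ^ 2 := pow_le_pow_left₀ hc.le (hcv.trans h5) 2
    nlinarith [sq_nonneg (Real.sinh (t * v.re))]
  have h3 : ‖Complex.sinh (t * v)‖ ≤ Real.cosh v.re := by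
    refine (norm_sinh_le _).trans ?_
    rw [h1]
    refine Real.cosh_le_cosh.2 ?_
    rw [abs_mul, abs_of_nonneg ht.1]
    calc t * |v.re| ≤ 1 * |v.re| := mul_le_mul_of_nonneg_right ht.2 (abs_nonneg _)
      _ = _ := one_mul _
  rw [norm_div]
  exact div_le_div₀ (Real.cosh_pos _).le h3 hc h6

end Pool.Agent.Lib_helper37.JO
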