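import Pool.Agent.Lib_helper37.JO.A3

open MeasureTheory Complex Set Filter Topology

namespace Pool.Agent.Lib_helper37.JO

/-! ### The value at `v = 0` -/

/-- `(cosh τ)^(-c)` -/
noncomputable def FF (c : ℂ) (τ : ℝ) : ℂ := ((Real.cosh τ : ℝ) : ℂ) ^ (-c)

lemma norm_FF (c : ℂ) (τ : ℝ) : ‖FF c τ‖ = (Real.cosh τ) ^ (-c.re) := by
  unfold FF
  rw [Complex.norm_cpow_eq_rpow_re_of_pos (Real.cosh_pos τ), Complex.neg_re]

lemma norm_FF_le {c : ℂ} (hcr : 1 / 2 ≤ c.re) (τ : ℝ) : ‖FF c τ‖ ≤ hc τ := by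
  rw [norm_FF]
  unfold hc
  exact Real.rpow_le_rpow_of_exponent_le (Real.one_le_cosh τ) (by linarith)

lemma norm_FF_le_one {c : ℂ} (hcr : 1 / 2 ≤ c.re) (τ : ℝ) : ‖FF c τ‖ ≤ 1 := by
  rw [norm_FF]
  exact Real.rpow_le_one_of_one_le_of_nonpos (Real.one_le_cosh τ) (by linarith)

lemma FF_hasDerivAt (c : ℂ) (τ : ℝ) :
    HasDerivAt (FF c) (-c * (((Real.sinh τ : ℝ) : ℂ) / ((Real.cosh τ : ℝ) : ℂ)) * FF c τ) τ := by
  have hne : ((Real.cosh τ : ℝ) : ℂ) ≠ 0 := by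
    exact_mod_cast (Real.cosh_pos τ).ne'
  have hsl : ((Real.cosh τ : ℝ) : ℂ) ∈ Complex.slitPlane := by
    left; simpa using Real.cosh_pos τ
  have h0 : HasDerivAt (fun z : ℂ => z ^ (-c)) (-c * ((Real.cosh τ : ℝ) : ℂ) ^ (-c - 1))
      ((Real.cosh τ : ℝ) : ℂ) := by
    have := (hasDerivAt_id (((Real.cosh τ : ℝ) : ℂ))).cpow_const (c := -c) hsl
    simpa using this
  have h1 : HasDerivAt (fun τ : ℝ => ((Real.cosh τ : ℝ) : ℂ)) ((Real.sinh τ : ℝ) : ℂ) τ :=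
    (Real.hasDerivAt_cosh τ).ofReal_comp
  have h := HasDerivAt.comp τ h0 h1
  refine h.congr_deriv ?_
  unfold FF
  rw [Complex.cpow_sub _ _ hne, Complex.cpow_one]
  ring

lemma FF_cont (c : ℂ) : Continuous (FF c) :=
  continuous_iff_continuousAt.2 (fun τ => (FF_hasDerivAt c τ).continuousAt)

lemma FF_integrable {c : ℂ} (hcr : 1 / 2 ≤ c.re) : Integrable (FF c) :=
  hc_integrable.mono' (FF_cont c).aestronglyMeasurable
    (Filter.Eventually.of_forall (fun τ => norm_FF_le hcr τ))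

/-- the hyperbolic cotangent -/
noncomputable def cth (τ : ℝ) : ℝ := Real.cosh τ / Real.sinh τ

lemma cth_hasDerivAt {τ : ℝ} (hτ : 0 < τ) : HasDerivAt cth (-(1 / Real.sinh τ ^ 2)) τ := by
  have hs : 0 < Real.sinh τ := Real.sinh_pos_iff.2 hτ
  have h := (Real.hasDerivAt_cosh τ).div (Real.hasDerivAt_sinh τ) hs.ne'
  refine h.congr_deriv ?_
  have := Real.cosh_sq τ
  field_simp
  rw [this]; ring

lemma cth_tendsto : Tendsto cth atTop (𝓝 1) := by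
  have h1 : Tendsto (fun τ : ℝ => Real.exp (-(2 * τ))) atTop (𝓝 0) := by
    refine Real.tendsto_exp_neg_atTop_nhds_zero.comp ?_
    exact tendsto_id.const_mul_atTop (by norm_num)
  have h2 : Tendsto (fun τ : ℝ => (1 + Real.exp (-(2 * τ))) / (1 - Real.exp (-(2 * τ)))) atTop
      (𝓝 ((1 + 0) / (1 - 0))) := by
    refine (tendsto_const_nhds.add h1).div (tendsto_const_nhds.sub h1) (by norm_num)
  have h3 : ((1:ℝ) + 0) / (1 - 0) = 1 := by norm_num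
  rw [h3] at h2
  refine h2.congr' ?_
  filter_upwards [eventually_gt_atTop 0] with τ hτ
  unfold cth
  have hs : 0 < Real.sinh τ := Real.sinh_pos_iff.2 hτ
  have he : Real.exp (-(2 * τ)) = Real.exp (-τ) * Real.exp (-τ) := by
    rw [← Real.exp_add]; congr 1; ring
  have hee : Real.exp τ * Real.exp (-τ) = 1 := by rw [← Real.exp_add]; simp
  have hlt : Real.exp (-(2 * τ)) < 1 := by
    rw [Real.exp_lt_one_iff]; linarith
  rw [div_eq_div_iff (by linarith) hs.ne', Real.cosh_eq, Real.sinh_eq, he]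
  linear_combination Real.exp (-τ) * hee

lemma cth_le {δ : ℝ} (h0 : 0 < δ) (h1 : δ ≤ 1) : cth δ ≤ 2 / δ := by
  unfold cth
  have h2 : Real.cosh δ ≤ 2 := by
    have : Real.cosh δ ≤ Real.cosh 1 := Real.cosh_le_cosh.2 (by
      rw [abs_of_pos h0]; simpa using h1)
    refine this.trans ?_
    rw [Real.cosh_eq]
    have h3 := Real.exp_one_lt_d9
    have h4 : Real.exp (-1) < 1 := by rw [Real.exp_lt_one_iff]; norm_num
    linarith
  exact div_le_div₀ (by norm_num) h2 h0 (Real.self_le_sinh_iff.2 h0.le)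

lemma cth_one_le {δ : ℝ} (h0 : 0 < δ) : 1 ≤ cth δ := by
  unfold cth
  rw [one_le_div (Real.sinh_pos_iff.2 h0)]
  exact (Real.sinh_lt_cosh δ).le

lemma tail_bound {c : ℂ} (hcr : 1 / 2 ≤ c.re) {δ : ℝ} (hδ : 0 < δ) :
    ‖c‖ * ‖∫ τ in Ioi δ, FF c τ‖ ≤ 2 * cth δ := by
  have hsinh : ∀ τ ∈ Ioi δ, 0 < Real.sinh τ := fun τ hτ =>
    Real.sinh_pos_iff.2 (hδ.trans hτ)
  -- the integral of 1/sinh^2
  have hneg : ∀ τ ∈ Ici δ, HasDerivAt (fun τ => -cth τ) (1 / Real.sinh τ ^ 2) τ := by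
    intro τ hτ
    have := (cth_hasDerivAt (hδ.trans_le hτ)).fun_neg
    simpa using this
  have hpos : ∀ τ ∈ Ioi δ, 0 ≤ 1 / Real.sinh τ ^ 2 := fun τ _ => by positivity
  have hlim : Tendsto (fun τ => -cth τ) atTop (𝓝 (-1)) := cth_tendsto.neg
  have hint : IntegrableOn (fun τ => 1 / Real.sinh τ ^ 2) (Ioi δ) :=
    integrableOn_Ioi_deriv_of_nonneg' hneg hpos hlim
  have hval : ∫ τ in Ioi δ, 1 / Real.sinh τ ^ 2 = cth δ - 1 := by
    rw [integral_Ioi_of_hasDerivAt_of_nonneg' hneg hpos hlim]; ring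
  -- the integration by parts
  have hF : IntegrableOn (FF c) (Ioi δ) := (FF_integrable hcr).integrableOn
  have hG : IntegrableOn (fun τ => ((1 / Real.sinh τ ^ 2 : ℝ) : ℂ) * FF c τ) (Ioi δ) := by
    have h1 : IntegrableOn (fun τ => ((1 / Real.sinh τ ^ 2 : ℝ) : ℂ)) (Ioi δ) := hint.ofReal
    exact h1.mul_bdd (c := 1) (FF_cont c).aestronglyMeasurable
      (Filter.Eventually.of_forall (fun τ => norm_FF_le_one hcr τ))
  have hΨ : ∀ τ ∈ Ici δ, HasDerivAt (fun τ => ((cth τ : ℝ) : ℂ) * FF c τ)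
      (-(((1 / Real.sinh τ ^ 2 : ℝ) : ℂ) * FF c τ) - c * FF c τ) τ := by
    intro τ hτ
    have hτ0 : 0 < τ := hδ.trans_le hτ
    have hs : 0 < Real.sinh τ := Real.sinh_pos_iff.2 hτ0
    have h := ((cth_hasDerivAt hτ0).ofReal_comp).mul (FF_hasDerivAt c τ)
    refine h.congr_deriv ?_
    have h1 : ((cth τ : ℝ) : ℂ) * (((Real.sinh τ : ℝ) : ℂ) / ((Real.cosh τ : ℝ) : ℂ)) = 1 := by
      have : cth τ * (Real.sinh τ / Real.cosh τ) = 1 := by
        unfold cth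
        have := (Real.cosh_pos τ).ne'
        field_simp
      exact_mod_cast this
    push_cast at h1 ⊢
    linear_combination (-c * FF c τ) * h1
  have hΨint : IntegrableOn (fun τ => (-(((1 / Real.sinh τ ^ 2 : ℝ) : ℂ) * FF c τ) - c * FF c τ))
      (Ioi δ) := hG.neg.sub (hF.const_mul c)
  have hΨlim : Tendsto (fun τ => ((cth τ : ℝ) : ℂ) * FF c τ) atTop (𝓝 0) := by
    have h1 : Tendsto (fun τ => FF c τ) atTop (𝓝 0) := by
      refine squeeze_zero_norm (a := fun τ => 2 * Real.exp (-(|τ| / 2)))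
        (fun τ => (norm_FF_le hcr τ).trans (hc_le τ)) ?_
      have h2 : Tendsto (fun τ : ℝ => Real.exp (-(|τ| / 2))) atTop (𝓝 0) := by
        refine Real.tendsto_exp_neg_atTop_nhds_zero.comp ?_
        exact tendsto_abs_atTop_atTop.atTop_div_const (by norm_num)
      simpa using h2.const_mul 2
    have h2 : Tendsto (fun τ => ((cth τ : ℝ) : ℂ)) atTop (𝓝 ((1 : ℝ) : ℂ)) :=
      (Complex.continuous_ofReal.tendsto 1).comp cth_tendsto
    simpa using h2.mul h1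
  have hmain := integral_Ioi_of_hasDerivAt_of_tendsto' hΨ hΨint hΨlim
  have hGn : IntegrableOn (fun τ => -(((1 / Real.sinh τ ^ 2 : ℝ) : ℂ) * FF c τ)) (Ioi δ) := hG.neg
  rw [integral_sub hGn (hF.const_mul c), integral_neg, integral_const_mul] at hmain
  have hGb : ‖∫ τ in Ioi δ, ((1 / Real.sinh τ ^ 2 : ℝ) : ℂ) * FF c τ‖ ≤ cth δ - 1 := by
    rw [← hval]
    refine norm_integral_le_of_norm_le hint (Filter.Eventually.of_forall (fun τ => ?_))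
    rw [norm_mul, Complex.norm_real, Real.norm_eq_abs, abs_of_nonneg (by positivity)]
    calc _ ≤ 1 / Real.sinh τ ^ 2 * 1 :=
          mul_le_mul_of_nonneg_left (norm_FF_le_one hcr τ) (by positivity)
      _ = _ := mul_one _
  have heq : c * ∫ τ in Ioi δ, FF c τ = ((cth δ : ℝ) : ℂ) * FF c δ -
      ∫ τ in Ioi δ, ((1 / Real.sinh τ ^ 2 : ℝ) : ℂ) * FF c τ := by
    linear_combination -hmain
  have h1 := cth_one_le hδ
  calc ‖c‖ * ‖∫ τ in Ioi δ, FF c τ‖ = ‖c * ∫ τ in Ioi δ, FF c τ‖ := (norm_mul _ _).symm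
    _ ≤ ‖((cth δ : ℝ) : ℂ) * FF c δ‖ + ‖∫ τ in Ioi δ, ((1 / Real.sinh τ ^ 2 : ℝ) : ℂ) * FF c τ‖ := by
        rw [heq]; exact norm_sub_le _ _
    _ ≤ cth δ * 1 + (cth δ - 1) := by
        refine add_le_add ?_ hGb
        rw [norm_mul, Complex.norm_real, Real.norm_eq_abs, abs_of_pos (by linarith)]
        exact mul_le_mul_of_nonneg_left (norm_FF_le_one hcr δ) (by linarith)
    _ ≤ _ := by linarith

lemma full_bound {c : ℂ} (hcr : 1 / 2 ≤ c.re) {δ : ℝ} (hδ : 0 < δ) (hδ1 : δ ≤ 1) :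
    ‖∫ τ : ℝ, FF c τ‖ ≤ 2 * (δ + 4 / (δ * ‖c‖)) := by
  have hc0 : 0 < ‖c‖ := by
    have := Complex.re_le_norm c
    linarith
  have hint := FF_integrable hcr
  have heven : ∀ τ, FF c (-τ) = FF c τ := fun τ => by unfold FF; rw [Real.cosh_neg]
  have h1 : ∫ τ : ℝ, FF c τ = (∫ τ in Iic (0:ℝ), FF c τ) + ∫ τ in Ioi (0:ℝ), FF c τ :=
    (intervalIntegral.integral_Iic_add_Ioi hint.integrableOn hint.integrableOn).symm
  have h2 : ∫ τ in Iic (0:ℝ), FF c τ = ∫ τ in Ioi (0:ℝ), FF c τ := by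
    have := integral_comp_neg_Iic (0:ℝ) (FF c)
    simp only [heven, neg_zero] at this
    exact this
  have h3 : ∫ τ in Ioi (0:ℝ), FF c τ = (∫ τ in Ioc (0:ℝ) δ, FF c τ) + ∫ τ in Ioi δ, FF c τ := by
    rw [← Ioc_union_Ioi_eq_Ioi hδ.le]
    exact setIntegral_union (Ioc_disjoint_Ioi le_rfl) measurableSet_Ioi hint.integrableOn
      hint.integrableOn
  have h4 : ‖∫ τ in Ioc (0:ℝ) δ, FF c τ‖ ≤ δ := by
    have := norm_setIntegral_le_of_norm_le_const (μ := volume) (s := Ioc (0:ℝ) δ) (f := FF c)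
      (C := 1) (by simp) (fun τ _ => norm_FF_le_one hcr τ)
    refine this.trans ?_
    simp [hδ.le]
  have h5 : ‖∫ τ in Ioi δ, FF c τ‖ ≤ 4 / (δ * ‖c‖) := by
    have h6 := tail_bound hcr hδ
    have h7 := cth_le hδ hδ1
    rw [le_div_iff₀ (by positivity)]
    have h8 : ‖c‖ * ‖∫ τ in Ioi δ, FF c τ‖ ≤ 4 / δ := by
      calc _ ≤ 2 * cth δ := h6
        _ ≤ 2 * (2 / δ) := by linarith
        _ = _ := by ring
    rw [le_div_iff₀ hδ] at h8
    linarith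
  rw [h1, h2, h3]
  calc _ ≤ (‖∫ τ in Ioc (0:ℝ) δ, FF c τ‖ + ‖∫ τ in Ioi δ, FF c τ‖) +
        (‖∫ τ in Ioc (0:ℝ) δ, FF c τ‖ + ‖∫ τ in Ioi δ, FF c τ‖) :=
        (norm_add_le _ _).trans (add_le_add (norm_add_le _ _) (norm_add_le _ _))
    _ ≤ _ := by linarith

/-- the scale `(1 + |κ|)^(-1/2)` -/
noncomputable def dk (κ : ℝ) : ℝ := (1 + |κ|) ^ (-(1 / 2) : ℝ)

lemma dk_pos (κ : ℝ) : 0 < dk κ := by unfold dk; positivity

lemma dk_le_one (κ : ℝ) : dk κ ≤ 1 := by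
  unfold dk
  exact Real.rpow_le_one_of_one_le_of_nonpos (by linarith [abs_nonneg κ]) (by norm_num)

lemma dk_sq (κ : ℝ) : dk κ ^ 2 * (1 + |κ|) = 1 := by
  unfold dk
  have h : 0 < 1 + |κ| := by positivity
  rw [← Real.rpow_natCast, ← Real.rpow_mul h.le]
  norm_num
  rw [Real.rpow_neg_one]
  field_simp

lemma FF_bound {c : ℂ} (hcr : 1 / 2 ≤ c.re) :
    ‖∫ τ : ℝ, FF c τ‖ ≤ 26 * dk c.im := by
  have h1 := full_bound hcr (dk_pos c.im) (dk_le_one c.im)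
  have h2 : (1 + |c.im|) / 3 ≤ ‖c‖ := by
    have h3 := Complex.re_le_norm c
    have h4 := Complex.abs_im_le_norm c
    rcases le_or_gt |c.im| (1 / 2) with h | h <;> linarith
  refine h1.trans ?_
  have hd := dk_pos c.im
  have hs := dk_sq c.im
  have h5 : 4 / (dk c.im * ‖c‖) ≤ 12 * dk c.im := by
    have hc0 : 0 < ‖c‖ := lt_of_lt_of_le (by positivity) h2
    rw [div_le_iff₀ (by positivity)]
    have : 12 * dk c.im * (dk c.im * ((1 + |c.im|) / 3)) ≤ 12 * dk c.im * (dk c.im * ‖c‖) := by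
      gcongr
    nlinarith
  linarith

lemma YY_zero (σ κ : ℝ) : ‖YY σ κ 0‖ ≤ 26 * dk κ := by
  have h : YY σ κ 0 = ∫ τ : ℝ, FF (sx κ) τ := by
    unfold YY FF DD; simp
  rw [h]
  have := FF_bound (c := sx κ) (by rw [sx_re])
  rwa [sx_im] at this

lemma YY1_zero {σ : ℝ} (hσ : |σ| ≤ 1) (κ : ℝ) : ‖YY1 σ κ 0‖ ≤ ‖sx κ‖ * (26 * dk κ) := by
  have h : WW σ κ 1 0 = -σ * ∫ τ : ℝ, FF (sx κ + 1) τ := by
    unfold WW
    rw [← integral_const_mul]
    congr 1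
    funext τ
    have hne : ((Real.cosh τ : ℝ) : ℂ) ≠ 0 := by
      exact_mod_cast (Real.cosh_pos τ).ne'
    have h1 : DD σ 0 τ = ((Real.cosh τ : ℝ) : ℂ) := by unfold DD; simp
    have h2 : DV σ 0 τ = -σ := by unfold DV; simp
    unfold PP RR FF
    rw [h1, h2, neg_add, ← sub_eq_add_neg, Complex.cpow_sub _ _ hne, Complex.cpow_one]
    ring
  unfold YY1
  rw [norm_mul, norm_neg, h]
  refine mul_le_mul_of_nonneg_left ?_ (norm_nonneg _)
  have h3 := FF_bound (c := sx κ + 1) (by rw [Complex.add_re, sx_re]; norm_num)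
  have h4 : (sx κ + 1).im = κ := by rw [Complex.add_im, sx_im]; simp
  rw [h4] at h3
  rw [norm_mul, norm_neg, Complex.norm_real, Real.norm_eq_abs]
  calc |σ| * ‖∫ τ : ℝ, FF (sx κ + 1) τ‖ ≤ 1 * (26 * dk κ) :=
        mul_le_mul hσ h3 (norm_nonneg _) zero_le_one
    _ = _ := one_mul _

/-- the growth bound in the variable `v` -/
theorem YY_bound {σ : ℝ} (hσ2 : σ ^ 2 = 1) (κ : ℝ) {v : ℂ} (hv : |v.im| < Real.pi / 2)
    {L : ℝ} (hL : ∀ t ∈ Icc (0:ℝ) 1, ‖Complex.sinh (t * v) / Complex.cosh (t * v)‖ ≤ L) :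
    ‖YY1 σ κ v‖ ^ 2 + lam κ * ‖YY σ κ v‖ ^ 2 ≤
      lam κ * (40 * dk κ * Real.exp (|κ| * |v.im| + Real.pi / 4 + L * ‖v‖)) ^ 2 := by
  have hσ : |σ| ≤ 1 := by
    rw [← sq_abs] at hσ2
    nlinarith [abs_nonneg σ]
  refine (energy_segment hσ2 κ hv hL).trans ?_
  have h1 := YY_zero σ κ
  have h2 := YY1_zero hσ κ
  have h3 := norm_sx_sq κ
  have h4 : ‖YY1 σ κ 0‖ ^ 2 + lam κ * ‖YY σ κ 0‖ ^ 2 ≤ lam κ * (40 * dk κ) ^ 2 := by
    have h5 : ‖YY1 σ κ 0‖ ^ 2 ≤ (‖sx κ‖ * (26 * dk κ)) ^ 2 :=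
      pow_le_pow_left₀ (norm_nonneg _) h2 2
    have h6 : ‖YY σ κ 0‖ ^ 2 ≤ (26 * dk κ) ^ 2 := pow_le_pow_left₀ (norm_nonneg _) h1 2
    rw [mul_pow, h3] at h5
    have h7 := mul_le_mul_of_nonneg_left h6 (lam_pos κ).le
    have h8 : 0 ≤ lam κ * dk κ ^ 2 := mul_nonneg (lam_pos κ).le (sq_nonneg _)
    nlinarith
  have h9 : 2 * Real.sqrt (lam κ) * |v.im| + 2 * L * ‖v‖ ≤
      2 * (|κ| * |v.im| + Real.pi / 4 + L * ‖v‖) := by
    have h10 := sqrt_lam_le κ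
    have h11 : Real.sqrt (lam κ) * |v.im| ≤ (|κ| + 1 / 2) * |v.im| :=
      mul_le_mul_of_nonneg_right h10 (abs_nonneg _)
    nlinarith
  calc _ ≤ lam κ * (40 * dk κ) ^ 2 * Real.exp (2 * (|κ| * |v.im| + Real.pi / 4 + L * ‖v‖)) :=
        mul_le_mul h4 (Real.exp_le_exp.2 h9) (Real.exp_pos _).le
          (mul_nonneg (lam_pos κ).le (sq_nonneg _))
    _ = _ := by
        rw [mul_pow (40 * dk κ), ← Real.exp_nat_mul]
        push_cast
        ring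

end Pool.Agent.Lib_helper37.JO
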