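import Pool.Agent.Lib_helper37.JO.A4

open MeasureTheory Complex Set Filter Topology

namespace Pool.Agent.Lib_helper37.JO

/-! ### The variable `θ` -/

/-- the local ray integral `∫ (sin θ / (cosh τ + σ cos θ))^(1/2 + iκ) dτ` -/
noncomputable def HJ (σ κ : ℝ) (θ : ℂ) : ℂ :=
  ∫ τ : ℝ, (Complex.sin θ / ((Real.cosh τ : ℂ) + σ * Complex.cos θ)) ^ ((1 / 2 : ℂ) + Complex.I * κ)

/-- the strip `0 < Re θ < π` -/
def strip : Set ℂ := {θ | 0 < θ.re ∧ θ.re < Real.pi}

lemma isOpen_strip : IsOpen strip :=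
  (isOpen_lt continuous_const Complex.continuous_re).inter
    (isOpen_lt Complex.continuous_re continuous_const)

/-- the variable `log tan (θ/2)` -/
noncomputable def vv (θ : ℂ) : ℂ := Complex.log (Complex.tan (θ / 2))

lemma sin_parts (z : ℂ) : Complex.sin z = ((Real.sin z.re * Real.cosh z.im : ℝ) : ℂ)
    + ((Real.cos z.re * Real.sinh z.im : ℝ) : ℂ) * I := by
  conv_lhs => rw [← Complex.re_add_im z, Complex.sin_add, Complex.cos_mul_I, Complex.sin_mul_I]
  push_cast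
  ring

lemma cos_parts (z : ℂ) : Complex.cos z = ((Real.cos z.re * Real.cosh z.im : ℝ) : ℂ)
    - ((Real.sin z.re * Real.sinh z.im : ℝ) : ℂ) * I := by
  conv_lhs => rw [← Complex.re_add_im z, Complex.cos_add, Complex.cos_mul_I, Complex.sin_mul_I]
  push_cast
  ring

lemma sin_re' (z : ℂ) : (Complex.sin z).re = Real.sin z.re * Real.cosh z.im := by
  rw [sin_parts, Complex.add_re, Complex.ofReal_re, Complex.re_ofReal_mul, Complex.I_re]; ring

lemma sin_im' (z : ℂ) : (Complex.sin z).im = Real.cos z.re * Real.sinh z.im := by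
  rw [sin_parts, Complex.add_im, Complex.ofReal_im, Complex.im_ofReal_mul, Complex.I_im]; ring

lemma cos_re' (z : ℂ) : (Complex.cos z).re = Real.cos z.re * Real.cosh z.im := by
  rw [cos_parts, Complex.sub_re, Complex.ofReal_re, Complex.re_ofReal_mul, Complex.I_re]; ring

lemma cos_im' (z : ℂ) : (Complex.cos z).im = -(Real.sin z.re * Real.sinh z.im) := by
  rw [cos_parts, Complex.sub_im, Complex.ofReal_im, Complex.im_ofReal_mul, Complex.I_im]; ring

lemma sin_ne {θ : ℂ} (hθ : θ ∈ strip) : Complex.sin θ ≠ 0 := by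
  intro h
  have h1 := congrArg Complex.re h
  rw [sin_re'] at h1
  have : 0 < Real.sin θ.re * Real.cosh θ.im :=
    mul_pos (Real.sin_pos_of_pos_of_lt_pi hθ.1 hθ.2) (Real.cosh_pos _)
  simp only [Complex.zero_re] at h1
  linarith

lemma half_re (θ : ℂ) : (θ / 2).re = θ.re / 2 := by simp

lemma half_im (θ : ℂ) : (θ / 2).im = θ.im / 2 := by simp

lemma cos_half_ne {θ : ℂ} (hθ : θ ∈ strip) : Complex.cos (θ / 2) ≠ 0 := by
  intro h
  have h1 := congrArg Complex.re h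
  rw [cos_re', half_re] at h1
  have : 0 < Real.cos (θ.re / 2) * Real.cosh (θ / 2).im :=
    mul_pos (Real.cos_pos_of_mem_Ioo ⟨by linarith [hθ.1, Real.pi_pos], by linarith [hθ.2]⟩)
      (Real.cosh_pos _)
  simp only [Complex.zero_re] at h1
  linarith

lemma sin_half_ne {θ : ℂ} (hθ : θ ∈ strip) : Complex.sin (θ / 2) ≠ 0 := by
  intro h
  have h1 := congrArg Complex.re h
  rw [sin_re', half_re] at h1
  have : 0 < Real.sin (θ.re / 2) * Real.cosh (θ / 2).im :=
    mul_pos (Real.sin_pos_of_pos_of_lt_pi (by linarith [hθ.1]) (by linarith [hθ.2, Real.pi_pos]))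
      (Real.cosh_pos _)
  simp only [Complex.zero_re] at h1
  linarith

lemma tan_half' {θ : ℂ} (hθ : θ ∈ strip) :
    Complex.tan (θ / 2) * (1 + Complex.cos θ) = Complex.sin θ := by
  have hc := cos_half_ne hθ
  have h1 : Complex.cos θ = 2 * Complex.cos (θ / 2) ^ 2 - 1 := by
    rw [← Complex.cos_two_mul]; congr 1; ring
  have h2 : Complex.sin θ = 2 * Complex.sin (θ / 2) * Complex.cos (θ / 2) := by
    rw [← Complex.sin_two_mul]; congr 1; ring
  rw [h1, h2, Complex.tan]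
  field_simp
  ring

lemma DEN_pos {θ : ℂ} (hθ : θ ∈ strip) : 0 < Real.cos θ.re + Real.cosh θ.im := by
  have h1 : -1 < Real.cos θ.re := by
    have := Real.cos_lt_cos_of_nonneg_of_le_pi hθ.1.le le_rfl hθ.2
    rwa [Real.cos_pi] at this
  have h2 := Real.one_le_cosh θ.im
  linarith

/-- the explicit value of the tangent -/
lemma tan_half {θ : ℂ} (hθ : θ ∈ strip) : Complex.tan (θ / 2) =
    (((Real.sin θ.re / (Real.cos θ.re + Real.cosh θ.im) : ℝ) : ℂ) +
      ((Real.sinh θ.im / (Real.cos θ.re + Real.cosh θ.im) : ℝ) : ℂ) * I) := by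
  have hD := DEN_pos hθ
  have h0 : 1 + Complex.cos θ ≠ 0 := by
    have h1 : Complex.cos θ = 2 * Complex.cos (θ / 2) ^ 2 - 1 := by
      rw [← Complex.cos_two_mul]; congr 1; ring
    rw [h1]
    have hc := cos_half_ne hθ
    have : 1 + (2 * Complex.cos (θ / 2) ^ 2 - 1) = 2 * Complex.cos (θ / 2) ^ 2 := by ring
    rw [this]
    exact mul_ne_zero two_ne_zero (pow_ne_zero 2 hc)
  refine mul_right_cancel₀ h0 ?_
  rw [tan_half' hθ]
  have hpx := Real.sin_sq_add_cos_sq θ.re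
  have hpy := Real.cosh_sq θ.im
  apply Complex.ext
  · simp only [Complex.mul_re, Complex.add_re, Complex.add_im, Complex.ofReal_re, Complex.ofReal_im,
      Complex.re_ofReal_mul, Complex.im_ofReal_mul, Complex.I_re, Complex.I_im, Complex.one_re,
      Complex.one_im, sin_re', cos_re', cos_im']
    field_simp
    linear_combination (Real.sin θ.re) * hpy
  · simp only [Complex.mul_im, Complex.add_re, Complex.add_im, Complex.ofReal_re, Complex.ofReal_im,
      Complex.re_ofReal_mul, Complex.im_ofReal_mul, Complex.I_re, Complex.I_im, Complex.one_re,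
      Complex.one_im, sin_im', cos_re', cos_im']
    field_simp
    linear_combination (Real.sinh θ.im) * hpx

lemma tan_half_re_pos {θ : ℂ} (hθ : θ ∈ strip) : 0 < (Complex.tan (θ / 2)).re := by
  rw [tan_half hθ]
  have hD := DEN_pos hθ
  have hs := Real.sin_pos_of_pos_of_lt_pi hθ.1 hθ.2
  rw [Complex.add_re, Complex.ofReal_re, Complex.re_ofReal_mul, Complex.I_re]
  have : 0 < Real.sin θ.re / (Real.cos θ.re + Real.cosh θ.im) := div_pos hs hD
  linarith

lemma tan_half_ne {θ : ℂ} (hθ : θ ∈ strip) : Complex.tan (θ / 2) ≠ 0 := by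
  intro h
  have := tan_half_re_pos hθ
  rw [h] at this
  simp at this

lemma exp_vv {θ : ℂ} (hθ : θ ∈ strip) : Complex.exp (vv θ) = Complex.tan (θ / 2) :=
  Complex.exp_log (tan_half_ne hθ)

/-- the imaginary part of `log tan (θ/2)` -/
lemma vv_im {θ : ℂ} (hθ : θ ∈ strip) :
    (vv θ).im = Real.arctan (Real.sinh θ.im / Real.sin θ.re) := by
  unfold vv
  rw [Complex.log_im]
  have h1 : |arg (Complex.tan (θ / 2))| < Real.pi / 2 :=
    Complex.abs_arg_lt_pi_div_two_iff.2 (Or.inl (tan_half_re_pos hθ))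
  have h2 := abs_lt.1 h1
  rw [← Real.arctan_tan (by linarith [h2.1]) h2.2, Complex.tan_arg]
  congr 1
  have hD := DEN_pos hθ
  have hs := Real.sin_pos_of_pos_of_lt_pi hθ.1 hθ.2
  rw [tan_half hθ]
  simp only [Complex.add_re, Complex.add_im, Complex.ofReal_re, Complex.ofReal_im,
      Complex.re_ofReal_mul, Complex.im_ofReal_mul, Complex.I_re, Complex.I_im]
  have hs' := hs.ne'
  have hD' := hD.ne'
  simp only [mul_zero, mul_one, zero_add, add_zero]
  rw [div_div_div_cancel_right₀ hD']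

lemma vv_im_lt {θ : ℂ} (hθ : θ ∈ strip) : |(vv θ).im| < Real.pi / 2 := by
  unfold vv
  rw [Complex.log_im]
  exact Complex.abs_arg_lt_pi_div_two_iff.2 (Or.inl (tan_half_re_pos hθ))

lemma cos_vv_pos {θ : ℂ} (hθ : θ ∈ strip) : 0 < Real.cos (vv θ).im :=
  cos_im_pos_of_lt (vv_im_lt hθ)

lemma cosh_vv {θ : ℂ} (hθ : θ ∈ strip) : Complex.cosh (vv θ) = 1 / Complex.sin θ := by
  have hs := sin_half_ne hθ
  have hc := cos_half_ne hθ
  have h2 : Complex.sin θ = 2 * Complex.sin (θ / 2) * Complex.cos (θ / 2) := by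
    rw [← Complex.sin_two_mul]; congr 1; ring
  have h3 := Complex.sin_sq_add_cos_sq (θ / 2)
  rw [Complex.cosh, Complex.exp_neg, exp_vv hθ, h2, Complex.tan]
  field_simp
  exact h3

lemma sinh_vv {θ : ℂ} (hθ : θ ∈ strip) :
    Complex.sinh (vv θ) = -(Complex.cos θ / Complex.sin θ) := by
  have hs := sin_half_ne hθ
  have hc := cos_half_ne hθ
  have h1 : Complex.cos θ = 2 * Complex.cos (θ / 2) ^ 2 - 1 := by
    rw [← Complex.cos_two_mul]; congr 1; ring
  have h2 : Complex.sin θ = 2 * Complex.sin (θ / 2) * Complex.cos (θ / 2) := by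
    rw [← Complex.sin_two_mul]; congr 1; ring
  have h3 := Complex.sin_sq_add_cos_sq (θ / 2)
  rw [Complex.sinh, Complex.exp_neg, exp_vv hθ, h1, h2, Complex.tan]
  field_simp
  linear_combination h3

lemma DD_vv {θ : ℂ} (hθ : θ ∈ strip) (σ τ : ℝ) :
    DD σ (vv θ) τ = ((Real.cosh τ : ℂ) + σ * Complex.cos θ) / Complex.sin θ := by
  unfold DD
  rw [cosh_vv hθ, sinh_vv hθ]
  ring

/-- the base has positive real part -/
lemma base_re_pos {σ : ℝ} (hσ : |σ| ≤ 1) {θ : ℂ} (hθ : θ ∈ strip) (τ : ℝ) :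
    0 < (Complex.sin θ / ((Real.cosh τ : ℂ) + σ * Complex.cos θ)).re := by
  have h1 := DD_re_pos hσ (vv θ) τ (cos_vv_pos hθ)
  have h2 : Complex.sin θ / ((Real.cosh τ : ℂ) + σ * Complex.cos θ) = (DD σ (vv θ) τ)⁻¹ := by
    rw [DD_vv hθ, inv_div]
  rw [h2, Complex.inv_re]
  exact div_pos h1 (Complex.normSq_pos.2 (DD_ne_zero hσ (vv θ) τ (cos_vv_pos hθ)))

lemma base_pow {σ : ℝ} (hσ : |σ| ≤ 1) {θ : ℂ} (hθ : θ ∈ strip) (κ τ : ℝ) :
    (Complex.sin θ / ((Real.cosh τ : ℂ) + σ * Complex.cos θ)) ^ ((1 / 2 : ℂ) + Complex.I * κ) =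
      DD σ (vv θ) τ ^ (-(sx κ)) := by
  have h2 : Complex.sin θ / ((Real.cosh τ : ℂ) + σ * Complex.cos θ) = (DD σ (vv θ) τ)⁻¹ := by
    rw [DD_vv hθ, inv_div]
  have h3 := DD_slit hσ (vv θ) τ (cos_vv_pos hθ)
  rw [h2, Complex.inv_cpow _ _ (Complex.slitPlane_arg_ne_pi h3), ← Complex.cpow_neg]
  rfl

lemma HJ_eq {σ : ℝ} (hσ : |σ| ≤ 1) {θ : ℂ} (hθ : θ ∈ strip) (κ : ℝ) :
    HJ σ κ θ = YY σ κ (vv θ) := by
  unfold HJ YY
  congr 1
  funext τ
  exact base_pow hσ hθ κ τ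

/-- the integrand is integrable -/
lemma HJ_integrable {σ : ℝ} (hσ : |σ| ≤ 1) {θ : ℂ} (hθ : θ ∈ strip) (κ : ℝ) :
    Integrable (fun τ : ℝ => (Complex.sin θ / ((Real.cosh τ : ℂ) + σ * Complex.cos θ)) ^
      ((1 / 2 : ℂ) + Complex.I * κ)) := by
  have h := TT_integrable hσ κ 0 (cos_vv_pos hθ)
  refine h.congr (Filter.Eventually.of_forall (fun τ => ?_))
  simp only [TT, pow_zero, mul_one, PP]
  exact (base_pow hσ hθ κ τ).symm

lemma vv_hasDerivAt {θ : ℂ} (hθ : θ ∈ strip) : HasDerivAt vv (1 / Complex.sin θ) θ := by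
  have hs := sin_half_ne hθ
  have hc := cos_half_ne hθ
  have h2 : Complex.sin θ = 2 * Complex.sin (θ / 2) * Complex.cos (θ / 2) := by
    rw [← Complex.sin_two_mul]; congr 1; ring
  have h1 : HasDerivAt (fun θ : ℂ => Complex.tan (θ / 2)) (1 / Complex.cos (θ / 2) ^ 2 * (1 / 2)) θ := by
    have h3 : HasDerivAt (fun θ : ℂ => θ / 2) (1 / 2) θ := by
      simpa using (hasDerivAt_id θ).div_const 2
    exact (Complex.hasDerivAt_tan hc).comp θ h3
  have h4 := h1.clog (Or.inl (tan_half_re_pos hθ))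
  refine h4.congr_deriv ?_
  rw [h2, Complex.tan]
  field_simp

/-- the `θ`-derivative of the local integral -/
noncomputable def HJ1 (σ κ : ℝ) (θ : ℂ) : ℂ := YY1 σ κ (vv θ) / Complex.sin θ

theorem HJ_hasDerivAt {σ : ℝ} (hσ : |σ| ≤ 1) (κ : ℝ) {θ : ℂ} (hθ : θ ∈ strip) :
    HasDerivAt (HJ σ κ) (HJ1 σ κ θ) θ := by
  have h := (YY_hasDerivAt hσ κ (cos_vv_pos hθ)).comp θ (vv_hasDerivAt hθ)
  have h2 : HJ σ κ =ᶠ[𝓝 θ] (YY σ κ ∘ vv) := by
    filter_upwards [isOpen_strip.mem_nhds hθ] with w hw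
    exact HJ_eq hσ hw κ
  refine (h.congr_of_eventuallyEq h2).congr_deriv ?_
  unfold HJ1
  ring

/-- the differential equation `sin² θ H'' = -(1/4 + κ²) H` -/
theorem HJ1_hasDerivAt {σ : ℝ} (hσ2 : σ ^ 2 = 1) (κ : ℝ) {θ : ℂ} (hθ : θ ∈ strip) :
    HasDerivAt (HJ1 σ κ) (-((1 / 4 : ℂ) + κ ^ 2) / Complex.sin θ ^ 2 * HJ σ κ θ) θ := by
  have hσ : |σ| ≤ 1 := by
    rw [← sq_abs] at hσ2
    nlinarith [abs_nonneg σ]
  have h := ((YY1_hasDerivAt hσ κ (cos_vv_pos hθ)).comp θ (vv_hasDerivAt hθ)).div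
    (Complex.hasDerivAt_sin θ) (sin_ne hθ)
  refine h.congr_deriv ?_
  rw [YY_ode hσ2 κ (cos_vv_pos hθ), cosh_vv hθ, sinh_vv hθ, HJ_eq hσ hθ]
  have := sin_ne hθ
  simp only [Function.comp]
  field_simp
  ring

theorem HJ_differentiableOn {σ : ℝ} (hσ : |σ| ≤ 1) (κ : ℝ) : DifferentiableOn ℂ (HJ σ κ) strip :=
  fun _ hθ => (HJ_hasDerivAt hσ κ hθ).differentiableAt.differentiableWithinAt

end Pool.Agent.Lib_helper37.JO
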