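import Pool.Agent.Lib_helper37.JO.A5

open MeasureTheory Complex Set Filter Topology

namespace Pool.Agent.Lib_helper37.JO

/-! ### Bounds in the variable `θ` -/

lemma norm_sin_le (z : ℂ) : ‖Complex.sin z‖ ≤ Real.cosh z.im := by
  refine le_of_sq_le_sq ?_ (Real.cosh_pos _).le
  rw [← Complex.normSq_eq_norm_sq, Complex.normSq_apply, sin_re', sin_im', Real.cosh_sq]
  have h1 := Real.cosh_sq z.im
  have h2 := Real.sin_sq_add_cos_sq z.re
  have h3 : Real.cos z.re ^ 2 = 1 - Real.sin z.re ^ 2 := by linarith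
  have h4 := Real.sin_sq_le_one z.re
  calc _ = Real.sin z.re ^ 2 * Real.cosh z.im ^ 2 + Real.cos z.re ^ 2 * Real.sinh z.im ^ 2 := by ring
    _ = Real.sin z.re ^ 2 + Real.sinh z.im ^ 2 := by rw [h1, h3]; ring
    _ ≤ _ := by linarith

/-- lower bound of the hyperbolic cosine along the segment -/
lemma cosh_seg_low {v : ℂ} {M A : ℝ} (hv : |v.im| ≤ Real.pi / 2) (hA : |v.re| ≤ A)
    (hM : 1 / Real.cosh M ≤ ‖Complex.cosh v‖) {t : ℝ} (ht : t ∈ Icc (0:ℝ) 1) :
    1 / (2 * Real.cosh M * Real.cosh A) ≤ ‖Complex.cosh (t * v)‖ := by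
  have hcM := Real.one_le_cosh M
  have hcA := Real.one_le_cosh A
  refine le_of_sq_le_sq ?_ (norm_nonneg _)
  have h1 := norm_cosh_seg hv ht
  have h2 : (t * v : ℂ).re = t * v.re := by simp
  have h3 : (t * v : ℂ).im = t * v.im := by simp
  have h5 : Real.cos v.im ≤ Real.cos (t * v.im) := by
    rw [← Real.cos_abs v.im, ← Real.cos_abs (t * v.im)]
    refine Real.cos_le_cos_of_nonneg_of_le_pi (abs_nonneg _)
      (by have := Real.pi_pos; linarith) ?_
    rw [abs_mul, abs_of_nonneg ht.1]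
    calc t * |v.im| ≤ 1 * |v.im| := mul_le_mul_of_nonneg_right ht.2 (abs_nonneg _)
      _ = _ := one_mul _
  have h0 : 0 ≤ Real.cos v.im := by
    have := abs_le.1 hv
    exact Real.cos_nonneg_of_mem_Icc ⟨by linarith, this.2⟩
  have h6 : Real.cos v.im ^ 2 ≤ ‖Complex.cosh (t * v)‖ ^ 2 := by
    rw [norm_sq_cosh, h2, h3]
    have : Real.cos v.im ^ 2 ≤ Real.cos (t * v.im) ^ 2 := pow_le_pow_left₀ h0 h5 2
    nlinarith [sq_nonneg (Real.sinh (t * v.re))]
  have h7 : (1 / Real.cosh M) ^ 2 ≤ Real.sinh v.re ^ 2 + Real.cos v.im ^ 2 := by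
    rw [← norm_sq_cosh]
    exact pow_le_pow_left₀ (by positivity) hM 2
  set m : ℝ := (1 / Real.cosh M) ^ 2 with hm
  have hm0 : 0 < m := by positivity
  have hm1 : m ≤ 1 := by
    rw [hm]
    have : 1 / Real.cosh M ≤ 1 := by
      rw [div_le_one (Real.cosh_pos M)]; exact hcM
    exact pow_le_one₀ (by positivity) this
  have hgoal : (1 / (2 * Real.cosh M * Real.cosh A)) ^ 2 = m / (4 * Real.cosh A ^ 2) := by
    rw [hm]; field_simp; ring
  rw [hgoal]
  have hA1 : 1 ≤ Real.cosh A ^ 2 := one_le_pow₀ hcA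
  rcases le_or_gt (m / 2) (Real.cos v.im ^ 2) with h | h
  · refine le_trans ?_ h6
    refine le_trans ?_ h
    rw [div_le_div_iff₀ (by positivity) (by norm_num)]
    nlinarith
  · have h8 : m / 2 ≤ Real.sinh v.re ^ 2 := by linarith
    have h9 : Real.sinh v.re ^ 2 ≤ v.re ^ 2 * Real.cosh A ^ 2 := by
      rw [← mul_pow, ← sq_abs (Real.sinh v.re), ← sq_abs (v.re * Real.cosh A), Real.abs_sinh]
      refine pow_le_pow_left₀ (Real.sinh_nonneg_iff.2 (abs_nonneg _)) ?_ 2
      rw [abs_mul, abs_of_pos (Real.cosh_pos A)]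
      have h10 : ∀ x : ℝ, 0 ≤ x → Real.sinh x ≤ x * Real.cosh x := by
        intro x hx
        have hmono : MonotoneOn (fun x : ℝ => x * Real.cosh x - Real.sinh x) (Ici 0) := by
          refine monotoneOn_of_deriv_nonneg (convex_Ici 0)
            ((continuous_id.mul Real.continuous_cosh).sub Real.continuous_sinh).continuousOn
            (fun y _ => ?_) ?_
          · exact (((differentiable_id.mul Real.differentiable_cosh).sub
              Real.differentiable_sinh) y).differentiableWithinAt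
          · intro y hy
            rw [interior_Ici] at hy
            have h := ((hasDerivAt_id y).mul (Real.hasDerivAt_cosh y)).sub (Real.hasDerivAt_sinh y)
            have h' : HasDerivAt (fun x : ℝ => x * Real.cosh x - Real.sinh x)
                (1 * Real.cosh y + y * Real.sinh y - Real.cosh y) y := h
            rw [h'.deriv]
            have : 0 ≤ y * Real.sinh y := mul_nonneg hy.out.le (Real.sinh_nonneg_iff.2 hy.out.le)
            linarith
        have := hmono (self_mem_Ici) hx hx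
        simp at this
        linarith
      refine (h10 _ (abs_nonneg _)).trans ?_
      refine mul_le_mul_of_nonneg_left ?_ (abs_nonneg _)
      refine Real.cosh_le_cosh.2 ?_
      rw [abs_abs]
      exact hA.trans (le_abs_self A)
    refine le_trans ?_ h1
    have h11 : m / 2 ≤ v.re ^ 2 * Real.cosh A ^ 2 := h8.trans h9
    rw [div_le_div_iff₀ (by positivity) (by positivity)]
    nlinarith [sq_nonneg v.re]

/-- the bound of the local integral, with explicit constant -/
theorem HJ_bound_aux {σ : ℝ} (hσ2 : σ ^ 2 = 1) (κ : ℝ) {θ : ℂ} (hθ : θ ∈ strip) {M A : ℝ}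
    (hM : |θ.im| ≤ M) (hA : |(vv θ).re| ≤ A) :
    ‖YY1 σ κ (vv θ)‖ ^ 2 + lam κ * ‖YY σ κ (vv θ)‖ ^ 2 ≤
      lam κ * (40 * dk κ * Real.exp (|κ| * |(vv θ).im| + Real.pi / 4 +
        2 * Real.cosh M * Real.cosh A ^ 2 * (A + Real.pi / 2))) ^ 2 := by
  have hv := vv_im_lt hθ
  have hcosh : 1 / Real.cosh M ≤ ‖Complex.cosh (vv θ)‖ := by
    rw [cosh_vv hθ, norm_div, norm_one]
    have h1 : 0 < ‖Complex.sin θ‖ := norm_pos_iff.2 (sin_ne hθ)
    refine one_div_le_one_div_of_le h1 ((norm_sin_le θ).trans ?_)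
    exact Real.cosh_le_cosh.2 (hM.trans (le_abs_self M))
  have hcM := Real.cosh_pos M
  have hcA := Real.cosh_pos A
  have hL : ∀ t ∈ Icc (0:ℝ) 1, ‖Complex.sinh (t * vv θ) / Complex.cosh (t * vv θ)‖ ≤
      2 * Real.cosh M * Real.cosh A ^ 2 := by
    intro t ht
    have h1 := cosh_seg_low hv.le hA hcosh ht
    have h2 : (t * vv θ : ℂ).re = t * (vv θ).re := by simp
    have h3 : ‖Complex.sinh (t * vv θ)‖ ≤ Real.cosh A := by
      refine (norm_sinh_le _).trans ?_
      rw [h2]
      refine Real.cosh_le_cosh.2 ?_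
      rw [abs_mul, abs_of_nonneg ht.1]
      calc t * |(vv θ).re| ≤ 1 * |(vv θ).re| := mul_le_mul_of_nonneg_right ht.2 (abs_nonneg _)
        _ ≤ |A| := by rw [one_mul]; exact hA.trans (le_abs_self A)
    rw [norm_div]
    calc _ ≤ Real.cosh A / (1 / (2 * Real.cosh M * Real.cosh A)) :=
          div_le_div₀ hcA.le h3 (by positivity) h1
      _ = _ := by field_simp
  refine (YY_bound hσ2 κ hv hL).trans ?_
  refine mul_le_mul_of_nonneg_left ?_ (lam_pos κ).le
  have hd := dk_pos κ
  refine pow_le_pow_left₀ (by positivity) ?_ 2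
  refine mul_le_mul_of_nonneg_left (Real.exp_le_exp.2 ?_) (by positivity)
  have h4 : ‖vv θ‖ ≤ A + Real.pi / 2 :=
    (Complex.norm_le_abs_re_add_abs_im _).trans (add_le_add hA hv.le)
  have h5 : 0 ≤ 2 * Real.cosh M * Real.cosh A ^ 2 := by positivity
  have := mul_le_mul_of_nonneg_left h4 h5
  linarith

/-- `log |tan (θ/2)|` is bounded away from the two points `0` and `π` -/
lemma vv_re_bound {θ : ℂ} (hθ : θ ∈ strip) {M m : ℝ} (hm : 0 < m) (hM : |θ.im| ≤ M)
    (hmθ : m ≤ Real.cosh θ.im - |Real.cos θ.re|) :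
    |(vv θ).re| ≤ |Real.log (2 * Real.cosh M / m)| := by
  have hD := DEN_pos hθ
  have hn : ‖Complex.tan (θ / 2)‖ ^ 2 =
      (Real.cosh θ.im - Real.cos θ.re) / (Real.cosh θ.im + Real.cos θ.re) := by
    rw [tan_half hθ, ← Complex.normSq_eq_norm_sq, Complex.normSq_apply]
    simp only [Complex.add_re, Complex.add_im, Complex.ofReal_re, Complex.ofReal_im,
      Complex.re_ofReal_mul, Complex.im_ofReal_mul, Complex.I_re, Complex.I_im]
    have hD' := hD.ne'
    have hD2 : Real.cosh θ.im + Real.cos θ.re ≠ 0 := by rw [add_comm]; exact hD'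
    have h1 := Real.cosh_sq θ.im
    have h2 := Real.sin_sq_add_cos_sq θ.re
    simp only [mul_zero, mul_one, zero_add, add_zero]
    field_simp
    linear_combination (Real.cosh θ.im + Real.cos θ.re) * h2
      - (Real.cosh θ.im + Real.cos θ.re) * h1
  have hre : (vv θ).re = Real.log ‖Complex.tan (θ / 2)‖ := by
    unfold vv; rw [Complex.log_re]
  have h2re : 2 * (vv θ).re = Real.log ((Real.cosh θ.im - Real.cos θ.re) /
      (Real.cosh θ.im + Real.cos θ.re)) := by
    rw [hre, ← hn, Real.log_pow]; norm_num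
  have hcM : Real.cosh θ.im ≤ Real.cosh M := Real.cosh_le_cosh.2 (hM.trans (le_abs_self M))
  have hcos := Real.abs_cos_le_one θ.re
  have hc1 := Real.one_le_cosh θ.im
  have ha := neg_abs_le (Real.cos θ.re)
  have hb := le_abs_self (Real.cos θ.re)
  set N : ℝ := Real.cosh θ.im - Real.cos θ.re with hN
  set P : ℝ := Real.cosh θ.im + Real.cos θ.re with hP
  have hN1 : m ≤ N := by linarith
  have hP1 : m ≤ P := by linarith
  have hN2 : N ≤ 2 * Real.cosh M := by linarith
  have hP2 : P ≤ 2 * Real.cosh M := by linarith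
  have hNpos : 0 < N := by linarith
  have hPpos : 0 < P := by linarith
  have hupper : N / P ≤ 2 * Real.cosh M / m := div_le_div₀ (by linarith) hN2 hm hP1
  have hlower : (2 * Real.cosh M / m)⁻¹ ≤ N / P := by
    rw [inv_div]
    exact div_le_div₀ hNpos.le hN1 hPpos hP2
  have hK : 0 < 2 * Real.cosh M / m := by have := Real.cosh_pos M; positivity
  have h1 : |Real.log (N / P)| ≤ |Real.log (2 * Real.cosh M / m)| := by
    rw [abs_le]
    constructor
    · have := Real.log_le_log (by positivity) hlower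
      rw [Real.log_inv] at this
      have h3 := le_abs_self (Real.log (2 * Real.cosh M / m))
      linarith
    · exact (Real.log_le_log (by positivity) hupper).trans (le_abs_self _)
  rw [← h2re, abs_mul, abs_of_pos (by norm_num : (0:ℝ) < 2)] at h1
  linarith [abs_nonneg (vv θ).re]

/-- **Main bound.**  On every region `|Im θ| ≤ M`, `cosh Im θ - |cos Re θ| ≥ m` of the strip
the local integrals of both signs are `≪ (1+|κ|)^(-1/2) exp (|κ| |arg tan (θ/2)|)`. -/
theorem HJ_bound (M m : ℝ) (hm : 0 < m) : ∃ C : ℝ, 0 < C ∧ ∀ σ : ℝ, σ ^ 2 = 1 → ∀ κ : ℝ,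
    ∀ θ ∈ strip, |θ.im| ≤ M → m ≤ Real.cosh θ.im - |Real.cos θ.re| →
      ‖HJ σ κ θ‖ ≤ C * dk κ * Real.exp (|κ| * |Real.arctan (Real.sinh θ.im / Real.sin θ.re)|) ∧
      ‖HJ1 σ κ θ‖ ≤ C * ((1 + |κ|) * dk κ) *
        Real.exp (|κ| * |Real.arctan (Real.sinh θ.im / Real.sin θ.re)|) := by
  set A : ℝ := |Real.log (2 * Real.cosh M / m)| with hAdef
  set B : ℝ := Real.pi / 4 + 2 * Real.cosh M * Real.cosh A ^ 2 * (A + Real.pi / 2) with hB
  have hcA := Real.one_le_cosh A
  refine ⟨40 * Real.exp B * Real.cosh A, by positivity, ?_⟩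
  intro σ hσ2 κ θ hθ hM hmθ
  have hσ : |σ| ≤ 1 := by
    rw [← sq_abs] at hσ2
    nlinarith [abs_nonneg σ]
  have hA := vv_re_bound hθ hm hM hmθ
  rw [← hAdef] at hA
  have h := HJ_bound_aux hσ2 κ hθ hM hA
  rw [← vv_im hθ]
  have hd := dk_pos κ
  set X : ℝ := Real.exp (|κ| * |(vv θ).im|) with hX
  have hXpos : 0 < X := Real.exp_pos _
  have hexp : Real.exp (|κ| * |(vv θ).im| + Real.pi / 4 +
        2 * Real.cosh M * Real.cosh A ^ 2 * (A + Real.pi / 2)) = X * Real.exp B := by
    rw [hX, hB, ← Real.exp_add]; congr 1; ring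
  rw [hexp] at h
  have hl := lam_pos κ
  have hBpos : 0 < Real.exp B := Real.exp_pos _
  constructor
  · rw [HJ_eq hσ hθ]
    have h1 : lam κ * ‖YY σ κ (vv θ)‖ ^ 2 ≤ lam κ * (40 * dk κ * (X * Real.exp B)) ^ 2 := by
      have := sq_nonneg ‖YY1 σ κ (vv θ)‖
      linarith
    have h2 := le_of_mul_le_mul_left h1 hl
    have h3 : ‖YY σ κ (vv θ)‖ ≤ 40 * dk κ * (X * Real.exp B) :=
      le_of_sq_le_sq h2 (by positivity)
    refine h3.trans ?_
    have h4 : 0 ≤ 40 * dk κ * (X * Real.exp B) := by positivity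
    calc 40 * dk κ * (X * Real.exp B) = 40 * dk κ * (X * Real.exp B) * 1 := (mul_one _).symm
      _ ≤ 40 * dk κ * (X * Real.exp B) * Real.cosh A := mul_le_mul_of_nonneg_left hcA h4
      _ = _ := by ring
  · have h1 : ‖YY1 σ κ (vv θ)‖ ^ 2 ≤ lam κ * (40 * dk κ * (X * Real.exp B)) ^ 2 := by
      have := mul_nonneg hl.le (sq_nonneg ‖YY σ κ (vv θ)‖)
      linarith
    have h2 : ‖YY1 σ κ (vv θ)‖ ≤ (1 + |κ|) * (40 * dk κ * (X * Real.exp B)) := by
      refine le_of_sq_le_sq ?_ (by positivity)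
      rw [mul_pow]
      refine h1.trans (mul_le_mul_of_nonneg_right ?_ (sq_nonneg _))
      unfold lam
      nlinarith [sq_abs κ, abs_nonneg κ]
    unfold HJ1
    have h5 : ‖(1 : ℂ) / Complex.sin θ‖ ≤ Real.cosh A := by
      rw [← cosh_vv hθ]
      refine (norm_cosh_le _).trans (Real.cosh_le_cosh.2 (hA.trans (le_abs_self A)))
    rw [div_eq_mul_one_div, norm_mul]
    calc _ ≤ ((1 + |κ|) * (40 * dk κ * (X * Real.exp B))) * Real.cosh A :=
          mul_le_mul h2 h5 (norm_nonneg _) (by positivity)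
      _ = _ := by ring

/-- the exponent: `|arg tan (θ/2)| ≤ π/2 - sin (Re θ) / cosh (Im θ)` -/
lemma arctan_bound {θ : ℂ} (hθ : θ ∈ strip) :
    |Real.arctan (Real.sinh θ.im / Real.sin θ.re)| ≤
      Real.pi / 2 - Real.sin θ.re / Real.cosh θ.im := by
  have hs := Real.sin_pos_of_pos_of_lt_pi hθ.1 hθ.2
  have hs1 := Real.sin_le_one θ.re
  have hc := Real.one_le_cosh θ.im
  have hcp := Real.cosh_pos θ.im
  have habs : |Real.arctan (Real.sinh θ.im / Real.sin θ.re)| =
      Real.arctan (|Real.sinh θ.im| / Real.sin θ.re) := by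
    rcases le_total 0 (Real.sinh θ.im) with h | h
    · rw [abs_of_nonneg h, abs_of_nonneg]
      exact Real.arctan_nonneg.2 (by positivity)
    · rw [abs_of_nonpos h, neg_div, Real.arctan_neg, abs_of_nonpos]
      rw [← Real.arctan_zero]
      exact Real.arctan_mono (div_nonpos_of_nonpos_of_nonneg h hs.le)
  rw [habs]
  rcases eq_or_lt_of_le (abs_nonneg (Real.sinh θ.im)) with h0 | h0
  · rw [← h0, zero_div, Real.arctan_zero]
    have h1 : Real.sin θ.re / Real.cosh θ.im ≤ 1 := by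
      rw [div_le_one hcp]; linarith
    have := Real.pi_gt_three
    linarith
  · set y : ℝ := Real.sin θ.re / |Real.sinh θ.im| with hy
    have hy0 : 0 < y := by positivity
    have h1 : |Real.sinh θ.im| / Real.sin θ.re = y⁻¹ := by rw [hy, inv_div]
    rw [h1, Real.arctan_inv_of_pos hy0]
    have h2 : Real.sin θ.re / Real.cosh θ.im ≤ Real.arctan y := by
      have h3 : y / Real.sqrt (1 + y ^ 2) ≤ Real.arctan y := by
        rw [← Real.sin_arctan]
        exact Real.sin_le (Real.arctan_nonneg.2 hy0.le)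
      refine le_trans ?_ h3
      rw [div_le_div_iff₀ hcp (Real.sqrt_pos.2 (by positivity))]
      have h4 : Real.sqrt (1 + y ^ 2) ≤ Real.cosh θ.im / |Real.sinh θ.im| := by
        have hsh : 0 < Real.sinh θ.im ^ 2 := by rw [← sq_abs]; positivity
        rw [Real.sqrt_le_left (by positivity), hy, div_pow, div_pow, sq_abs,
          le_div_iff₀ hsh, add_mul, one_mul,
          div_mul_cancel₀ _ hsh.ne', Real.cosh_sq]
        have : Real.sin θ.re ^ 2 ≤ 1 := Real.sin_sq_le_one _
        linarith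
      calc Real.sin θ.re * Real.sqrt (1 + y ^ 2) ≤
            Real.sin θ.re * (Real.cosh θ.im / |Real.sinh θ.im|) :=
            mul_le_mul_of_nonneg_left h4 hs.le
        _ = y * Real.cosh θ.im := by rw [hy]; ring
    linarith

end Pool.Agent.Lib_helper37.JO
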