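import Pool.Agent.Lib_helper37.JO.A6

open MeasureTheory Complex Set Filter Topology

namespace Pool.Agent.Lib_helper37.JO

/-! ### Export statements for project JO, part L1 -/

/-- **(L1)** At `θ = ε + i η`, uniformly for `η₁ ≤ |η| ≤ η₂`, both signs, all `κ`. -/
theorem HJ_bound_eta (η₁ η₂ : ℝ) (h1 : 0 < η₁) : ∃ C c : ℝ, 0 < C ∧ 0 < c ∧
    ∀ σ : ℝ, σ ^ 2 = 1 → ∀ κ ε η : ℝ, 0 < ε → ε ≤ Real.pi / 2 → η₁ ≤ |η| → |η| ≤ η₂ →
      ‖HJ σ κ (ε + η * I)‖ ≤ C * (1 + |κ|) ^ (-(1 / 2) : ℝ) * Real.exp ((Real.pi / 2 - c * ε) * |κ|) ∧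
      ‖HJ1 σ κ (ε + η * I)‖ ≤ C * (1 + |κ|) ^ (1 / 2 : ℝ) * Real.exp ((Real.pi / 2 - c * ε) * |κ|) := by
  have hm : 0 < Real.cosh η₁ - 1 := by
    have := Real.one_lt_cosh.2 h1.ne'
    linarith
  obtain ⟨C, hC, hb⟩ := HJ_bound η₂ (Real.cosh η₁ - 1) hm
  have hcp := Real.cosh_pos η₂
  refine ⟨C, 2 / (Real.pi * Real.cosh η₂), hC, by have := Real.pi_pos; positivity, ?_⟩
  intro σ hσ2 κ ε η hε hε2 hη1 hη2
  have hre : (ε + η * I : ℂ).re = ε := by simp
  have him : (ε + η * I : ℂ).im = η := by simp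
  have hstrip : (ε + η * I : ℂ) ∈ strip := by
    constructor
    · rw [hre]; exact hε
    · rw [hre]; have := Real.pi_pos; linarith
  have hmθ : Real.cosh η₁ - 1 ≤ Real.cosh (ε + η * I : ℂ).im - |Real.cos (ε + η * I : ℂ).re| := by
    rw [hre, him]
    have h2 : Real.cosh η₁ ≤ Real.cosh η := Real.cosh_le_cosh.2 (by rw [abs_of_pos h1]; exact hη1)
    have h3 := Real.abs_cos_le_one ε
    linarith
  have hb2 := hb σ hσ2 κ _ hstrip (by rw [him]; exact hη2) hmθ
  have harc := arctan_bound hstrip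
  have hexp : |κ| * |Real.arctan (Real.sinh (ε + η * I : ℂ).im / Real.sin (ε + η * I : ℂ).re)| ≤
      (Real.pi / 2 - 2 / (Real.pi * Real.cosh η₂) * ε) * |κ| := by
    rw [mul_comm]
    refine mul_le_mul_of_nonneg_right (harc.trans ?_) (abs_nonneg _)
    rw [hre, him]
    have h4 : 2 / Real.pi * ε ≤ Real.sin ε := Real.mul_le_sin hε.le hε2
    have h5 : Real.cosh η ≤ Real.cosh η₂ := Real.cosh_le_cosh.2 (hη2.trans (le_abs_self _))
    have h6 : 2 / (Real.pi * Real.cosh η₂) * ε ≤ Real.sin ε / Real.cosh η := by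
      have h7 : 2 / (Real.pi * Real.cosh η₂) * ε = (2 / Real.pi * ε) / Real.cosh η₂ := by
        field_simp
      rw [h7]
      exact div_le_div₀ (Real.sin_pos_of_pos_of_lt_pi hε (by linarith [Real.pi_pos])).le h4
        (Real.cosh_pos _) h5
    linarith
  have hexp' := Real.exp_le_exp.2 hexp
  have hd := dk_pos κ
  have hd2 : (1 + |κ|) * dk κ = (1 + |κ|) ^ (1 / 2 : ℝ) := by
    unfold dk
    have h : 0 < 1 + |κ| := by positivity
    nth_rw 1 [← Real.rpow_one (1 + |κ|)]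
    rw [← Real.rpow_add h]
    norm_num
  constructor
  · refine hb2.1.trans ?_
    exact mul_le_mul_of_nonneg_left hexp' (by positivity)
  · refine hb2.2.trans ?_
    rw [hd2]
    exact mul_le_mul_of_nonneg_left hexp' (by positivity)

/-- On a compact subset of the open strip the exponent is strictly smaller than `π/2`. -/
theorem HJ_bound_compact (K : Set ℂ) (hK : IsCompact K) (hKs : K ⊆ strip) :
    ∃ C c : ℝ, 0 < C ∧ 0 < c ∧ ∀ σ : ℝ, σ ^ 2 = 1 → ∀ κ : ℝ, ∀ θ ∈ K,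
      ‖HJ σ κ θ‖ ≤ C * (1 + |κ|) ^ (-(1 / 2) : ℝ) * Real.exp ((Real.pi / 2 - c) * |κ|) ∧
      ‖HJ1 σ κ θ‖ ≤ C * (1 + |κ|) ^ (1 / 2 : ℝ) * Real.exp ((Real.pi / 2 - c) * |κ|) := by
  rcases K.eq_empty_or_nonempty with rfl | hne
  · exact ⟨1, 1, one_pos, one_pos, fun σ _ κ θ hθ => absurd hθ (by simp)⟩
  -- the three continuous functions on the compact set
  obtain ⟨θ1, hθ1, hmin1⟩ := hK.exists_isMinOn hne
    (f := fun θ : ℂ => Real.cosh θ.im - |Real.cos θ.re|)
    ((Real.continuous_cosh.comp Complex.continuous_im).sub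
      (continuous_abs.comp (Real.continuous_cos.comp Complex.continuous_re))).continuousOn
  obtain ⟨θ2, hθ2, hmax2⟩ := hK.exists_isMaxOn hne (f := fun θ : ℂ => |θ.im|)
    (continuous_abs.comp Complex.continuous_im).continuousOn
  obtain ⟨θ3, hθ3, hmin3⟩ := hK.exists_isMinOn hne
    (f := fun θ : ℂ => Real.sin θ.re / Real.cosh θ.im)
    ((Real.continuous_sin.comp Complex.continuous_re).div
      (Real.continuous_cosh.comp Complex.continuous_im)
      (fun θ => (Real.cosh_pos _).ne')).continuousOn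
  have hm : 0 < Real.cosh θ1.im - |Real.cos θ1.re| := by
    have h1 := Real.one_le_cosh θ1.im
    have h2 := hKs hθ1
    have h3 : |Real.cos θ1.re| < 1 := by
      have hs := Real.sin_pos_of_pos_of_lt_pi h2.1 h2.2
      have := Real.sin_sq_add_cos_sq θ1.re
      rw [← sq_lt_one_iff_abs_lt_one]
      nlinarith
    linarith
  obtain ⟨C, hC, hb⟩ := HJ_bound |θ2.im| _ hm
  have hs3 := hKs hθ3
  refine ⟨C, Real.sin θ3.re / Real.cosh θ3.im, hC,
    div_pos (Real.sin_pos_of_pos_of_lt_pi hs3.1 hs3.2) (Real.cosh_pos _), ?_⟩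
  intro σ hσ2 κ θ hθ
  have hb2 := hb σ hσ2 κ θ (hKs hθ) (hmax2 hθ) (hmin1 hθ)
  have harc := arctan_bound (hKs hθ)
  have h3 : Real.sin θ3.re / Real.cosh θ3.im ≤ Real.sin θ.re / Real.cosh θ.im := hmin3 hθ
  have hexp : |κ| * |Real.arctan (Real.sinh θ.im / Real.sin θ.re)| ≤
      (Real.pi / 2 - Real.sin θ3.re / Real.cosh θ3.im) * |κ| := by
    rw [mul_comm]
    exact mul_le_mul_of_nonneg_right (by linarith) (abs_nonneg _)
  have hexp' := Real.exp_le_exp.2 hexp
  have hd := dk_pos κ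
  have hd2 : (1 + |κ|) * dk κ = (1 + |κ|) ^ (1 / 2 : ℝ) := by
    unfold dk
    have h : 0 < 1 + |κ| := by positivity
    nth_rw 1 [← Real.rpow_one (1 + |κ|)]
    rw [← Real.rpow_add h]
    norm_num
  constructor
  · refine hb2.1.trans ?_
    exact mul_le_mul_of_nonneg_left hexp' (by positivity)
  · refine hb2.2.trans ?_
    rw [hd2]
    exact mul_le_mul_of_nonneg_left hexp' (by positivity)

/-! ### Joint continuity -/

lemma YY_continuousAt {σ : ℝ} (hσ : |σ| ≤ 1) {κ : ℝ} {v : ℂ} (hv : 0 < Real.cos v.im) :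
    ContinuousAt (fun p : ℝ × ℂ => YY σ p.1 p.2) (κ, v) := by
  set c : ℝ := Real.cos v.im / 2 with hcdef
  set A : ℝ := |v.re| + 1 with hAdef
  set k : ℝ := |κ| + 1 with hkdef
  have hc0 : 0 < c := by positivity
  set s : Set (ℝ × ℂ) := {p | |p.1| < k ∧ c < Real.cos p.2.im ∧ |p.2.re| < A} with hs
  have hopen : IsOpen s := by
    refine (isOpen_lt (continuous_abs.comp continuous_fst) continuous_const).inter ?_
    exact (isOpen_lt continuous_const
      (Real.continuous_cos.comp (Complex.continuous_im.comp continuous_snd))).inter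
      (isOpen_lt (continuous_abs.comp (Complex.continuous_re.comp continuous_snd)) continuous_const)
  have hmem : (κ, v) ∈ s := ⟨by simp [hkdef], by simp [hcdef]; linarith, by simp [hAdef]⟩
  have hnhds : s ∈ 𝓝 (κ, v) := hopen.mem_nhds hmem
  have hkey : ContinuousAt (fun p : ℝ × ℂ => ∫ τ : ℝ, TT σ p.1 0 p.2 τ) (κ, v) := by
    refine continuousAt_of_dominated (bound := fun τ =>
      ((c * Real.exp (-A)) ^ (-(1 / 2) : ℝ) * Real.exp (Real.pi * k) *
      (2 * Real.cosh A / (c * Real.exp (-A))) ^ 0) * hc τ) ?_ ?_ (hc_integrable.const_mul _) ?_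
    · filter_upwards [hnhds] with p hp
      exact (TT_cont hσ p.1 0 (hc0.trans hp.2.1)).aestronglyMeasurable
    · filter_upwards [hnhds] with p hp
      refine Filter.Eventually.of_forall (fun τ => ?_)
      refine (norm_TT_le hσ p.1 0 τ hp.2.2.le hc0 hp.2.1.le).trans ?_
      have hk := hp.1.le
      have := (hc_pos τ).le
      have := Real.cosh_pos A
      have hpi := Real.pi_pos
      gcongr
    · refine Filter.Eventually.of_forall (fun τ => ?_)
      have h1 : ContinuousAt (fun p : ℝ × ℂ => DD σ p.2 τ) (κ, v) := by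
        unfold DD
        exact (((continuous_const.mul (Complex.continuous_cosh.comp continuous_snd)).sub
          (continuous_const.mul (Complex.continuous_sinh.comp continuous_snd)))).continuousAt
      have h2 : ContinuousAt (fun p : ℝ × ℂ => -(sx p.1)) (κ, v) := by
        unfold sx
        exact ((continuous_const.add (continuous_const.mul
          (Complex.continuous_ofReal.comp continuous_fst))).neg).continuousAt
      have h3 := h1.cpow h2 (DD_slit hσ v τ hv)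
      unfold TT PP
      simpa using h3
  have heq : (fun p : ℝ × ℂ => ∫ τ : ℝ, TT σ p.1 0 p.2 τ) = fun p => YY σ p.1 p.2 := by
    funext p
    rw [YY_eq]; rfl
  rw [heq] at hkey
  exact hkey

theorem HJ_continuousOn {σ : ℝ} (hσ : |σ| ≤ 1) :
    ContinuousOn (fun p : ℝ × ℂ => HJ σ p.1 p.2) (univ ×ˢ strip) := by
  intro p hp
  have hθ : p.2 ∈ strip := hp.2
  have h1 : ContinuousAt (fun q : ℝ × ℂ => (q.1, vv q.2)) p :=
    continuousAt_fst.prodMk
      (ContinuousAt.comp (g := vv) (vv_hasDerivAt hθ).continuousAt continuousAt_snd)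
  have h2 : ContinuousAt (fun q : ℝ × ℂ => YY σ q.1 (vv q.2)) p :=
    ContinuousAt.comp (g := fun q : ℝ × ℂ => YY σ q.1 q.2) (f := fun q : ℝ × ℂ => (q.1, vv q.2))
      (YY_continuousAt hσ (cos_vv_pos hθ)) h1
  refine (h2.congr_of_eventuallyEq ?_).continuousWithinAt
  have : ∀ᶠ q : ℝ × ℂ in 𝓝 p, q.2 ∈ strip :=
    continuousAt_snd.eventually (isOpen_strip.mem_nhds hθ)
  filter_upwards [this] with q hq
  exact HJ_eq hσ hq q.1

theorem HJ_continuous_kappa {σ : ℝ} (hσ : |σ| ≤ 1) {θ : ℂ} (hθ : θ ∈ strip) :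
    Continuous (fun κ : ℝ => HJ σ κ θ) := by
  have h : ContinuousOn (fun κ : ℝ => HJ σ κ θ) univ :=
    (HJ_continuousOn hσ).comp (f := fun κ : ℝ => ((κ, θ) : ℝ × ℂ))
      (continuous_id.prodMk continuous_const).continuousOn (fun κ _ => ⟨mem_univ _, hθ⟩)
  exact continuousOn_univ.1 h

/-! ### Symmetries -/

/-- reflection `θ ↦ π - θ` exchanges the two signs -/
theorem HJ_reflect (σ κ : ℝ) (θ : ℂ) : HJ σ κ (Real.pi - θ) = HJ (-σ) κ θ := by
  unfold HJ
  rw [Complex.sin_pi_sub, Complex.cos_pi_sub]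
  congr 1
  funext τ
  congr 3
  push_cast
  ring

lemma conj_strip {θ : ℂ} (hθ : θ ∈ strip) : (starRingEnd ℂ) θ ∈ strip := by
  constructor
  · rw [Complex.conj_re]; exact hθ.1
  · rw [Complex.conj_re]; exact hθ.2

/-- complex conjugation: `conj (H_θ(κ)) = H_(conj θ)(-κ)` -/
theorem HJ_conj {σ : ℝ} (hσ : |σ| ≤ 1) (κ : ℝ) {θ : ℂ} (hθ : θ ∈ strip) :
    (starRingEnd ℂ) (HJ σ κ θ) = HJ σ (-κ) ((starRingEnd ℂ) θ) := by
  unfold HJ
  rw [← integral_conj]
  congr 1
  funext τ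
  have h1 := base_re_pos hσ hθ τ
  set w : ℂ := Complex.sin θ / ((Real.cosh τ : ℂ) + σ * Complex.cos θ) with hw
  have h2 : Complex.sin ((starRingEnd ℂ) θ) / ((Real.cosh τ : ℂ) +
      σ * Complex.cos ((starRingEnd ℂ) θ)) = (starRingEnd ℂ) w := by
    rw [hw, map_div₀, map_add, map_mul, Complex.conj_ofReal, Complex.conj_ofReal,
      ← Complex.sin_conj, ← Complex.cos_conj]
  rw [h2]
  have h3 : ((1 / 2 : ℂ) + I * ((-κ : ℝ) : ℂ)) = (starRingEnd ℂ) ((1 / 2 : ℂ) + I * (κ : ℂ)) := by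
    rw [map_add, map_mul, Complex.conj_I, Complex.conj_ofReal, map_div₀, map_one]
    push_cast
    have : (starRingEnd ℂ) (2 : ℂ) = 2 := Complex.conj_ofNat 2
    rw [this]
    ring
  rw [h3]
  have h4 : w.arg ≠ Real.pi := Complex.slitPlane_arg_ne_pi (Or.inl h1)
  rw [Complex.conj_cpow _ _ h4, Complex.conj_conj]

end Pool.Agent.Lib_helper37.JO
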