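import Pool.Agent.Lib_helper37.JO.A7

open MeasureTheory Complex Set Filter Topology

namespace Pool.Agent.Lib_helper37.JO

/-! ### Real `θ`: the normalised solution `U = (cosh t)^(1/2) Y` -/

/-- `(cosh t)^(1/2)` -/
noncomputable def sc (t : ℝ) : ℝ := Real.sqrt (Real.cosh t)

lemma sc_pos (t : ℝ) : 0 < sc t := Real.sqrt_pos.2 (Real.cosh_pos t)

lemma sc_sq (t : ℝ) : sc t ^ 2 = Real.cosh t := Real.sq_sqrt (Real.cosh_pos t).le

/-- the hyperbolic tangent -/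
noncomputable def th (t : ℝ) : ℝ := Real.sinh t / Real.cosh t

/-- the potential `1 / (4 cosh² t)` -/
noncomputable def qq (t : ℝ) : ℝ := 1 / (4 * Real.cosh t ^ 2)

lemma sc_hasDerivAt (t : ℝ) : HasDerivAt sc (1 / 2 * th t * sc t) t := by
  have h := (Real.hasDerivAt_cosh t).sqrt (Real.cosh_pos t).ne'
  refine h.congr_deriv ?_
  unfold th
  have h1 := sc_sq t
  have h2 := (sc_pos t).ne'
  have h3 := (Real.cosh_pos t).ne'
  change Real.sinh t / (2 * sc t) = _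
  field_simp
  rw [h1]

lemma th_hasDerivAt (t : ℝ) : HasDerivAt th (4 * qq t) t := by
  have h := (Real.hasDerivAt_sinh t).div (Real.hasDerivAt_cosh t) (Real.cosh_pos t).ne'
  refine h.congr_deriv ?_
  unfold qq
  have := Real.cosh_sq t
  have h3 := (Real.cosh_pos t).ne'
  field_simp
  rw [this]; ring

lemma th_sq (t : ℝ) : th t ^ 2 = 1 - 4 * qq t := by
  unfold th qq
  have := Real.cosh_sq t
  have h3 := (Real.cosh_pos t).ne'
  field_simp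
  rw [this]; ring

lemma abs_th_le (t : ℝ) : |th t| ≤ 1 := by
  have h := th_sq t
  have : 0 ≤ qq t := by unfold qq; positivity
  rw [← sq_le_one_iff_abs_le_one]
  linarith

lemma qq_nonneg (t : ℝ) : 0 ≤ qq t := by unfold qq; positivity

lemma qq_le (t : ℝ) : qq t ≤ Real.exp (-(2 * |t|)) := by
  unfold qq
  have h0 : Real.exp |t| / 2 ≤ Real.cosh t := by
    rw [← Real.cosh_abs, Real.cosh_eq]
    have := Real.exp_pos (-|t|)
    linarith
  have h1 : (Real.exp |t| / 2) ^ 2 ≤ Real.cosh t ^ 2 := pow_le_pow_left₀ (by positivity) h0 2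
  have h2 : Real.exp (2 * |t|) = Real.exp |t| ^ 2 := by
    rw [← Real.exp_nat_mul]; norm_num
  rw [Real.exp_neg, div_le_iff₀ (by positivity), h2]
  have h3 : 0 < Real.exp |t| ^ 2 := by positivity
  rw [inv_mul_eq_div, le_div_iff₀ h3]
  nlinarith

lemma sc_le (t : ℝ) : sc t ≤ Real.exp (|t| / 2) := by
  unfold sc
  rw [Real.sqrt_le_left (Real.exp_pos _).le, ← Real.exp_nat_mul]
  have h1 : ((2 : ℕ) : ℝ) * (|t| / 2) = |t| := by push_cast; ring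
  rw [h1, ← Real.cosh_abs, Real.cosh_eq]
  have h2 : Real.exp (-|t|) ≤ Real.exp |t| := Real.exp_le_exp.2 (by linarith [abs_nonneg t])
  linarith

/-- the normalised solution -/
noncomputable def UU (σ κ t : ℝ) : ℂ := (sc t : ℂ) * YY σ κ (t : ℂ)

/-- its derivative -/
noncomputable def UU1 (σ κ t : ℝ) : ℂ :=
  (sc t : ℂ) * (YY1 σ κ (t : ℂ) + 1 / 2 * (th t : ℂ) * YY σ κ (t : ℂ))

lemma cos_im_real (t : ℝ) : 0 < Real.cos (t : ℂ).im := by simp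

lemma UU_hasDerivAt {σ : ℝ} (hσ : |σ| ≤ 1) (κ t : ℝ) :
    HasDerivAt (fun t : ℝ => UU σ κ t) (UU1 σ κ t) t := by
  unfold UU UU1
  have h1 : HasDerivAt (fun t : ℝ => YY σ κ (t : ℂ)) (YY1 σ κ (t : ℂ)) t :=
    (YY_hasDerivAt hσ κ (cos_im_real t)).comp_ofReal
  have h := (sc_hasDerivAt t).ofReal_comp.mul h1
  refine h.congr_deriv ?_
  push_cast
  ring

lemma UU1_hasDerivAt {σ : ℝ} (hσ2 : σ ^ 2 = 1) (κ t : ℝ) :
    HasDerivAt (fun t : ℝ => UU1 σ κ t) (((qq t - κ ^ 2 : ℝ) : ℂ) * UU σ κ t) t := by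
  have hσ : |σ| ≤ 1 := by
    rw [← sq_abs] at hσ2
    nlinarith [abs_nonneg σ]
  unfold UU UU1
  have h1 : HasDerivAt (fun t : ℝ => YY σ κ (t : ℂ)) (YY1 σ κ (t : ℂ)) t :=
    (YY_hasDerivAt hσ κ (cos_im_real t)).comp_ofReal
  have h2 : HasDerivAt (fun t : ℝ => YY1 σ κ (t : ℂ))
      (-(Complex.sinh t / Complex.cosh t * YY1 σ κ t) - ((1 / 4 : ℂ) + κ ^ 2) * YY σ κ t) t := by
    have := (YY1_hasDerivAt hσ κ (cos_im_real t)).comp_ofReal
    rw [YY_ode hσ2 κ (cos_im_real t)] at this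
    exact this
  have h3 : Complex.sinh (t : ℂ) / Complex.cosh (t : ℂ) = ((th t : ℝ) : ℂ) := by
    unfold th; push_cast; rfl
  rw [h3] at h2
  have h := (sc_hasDerivAt t).ofReal_comp.mul
    (h2.add (((th_hasDerivAt t).ofReal_comp.const_mul (1 / 2 : ℂ)).mul h1))
  refine (h.congr_deriv ?_)
  have h4 : ((th t : ℝ) : ℂ) ^ 2 = 1 - 4 * ((qq t : ℝ) : ℂ) := by
    have := th_sq t
    have h5 : ((th t ^ 2 : ℝ) : ℂ) = ((1 - 4 * qq t : ℝ) : ℂ) := by rw [this]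
    push_cast at h5
    exact h5
  simp only [Pi.add_apply, Pi.mul_apply]
  push_cast
  linear_combination (((sc t : ℝ) : ℂ) * YY σ κ (t : ℂ) * (1 / 4)) * h4

lemma gronwall_real {E E' a : ℝ → ℝ} {t : ℝ} (ht : 0 ≤ t)
    (hE : ∀ s ∈ Icc (0:ℝ) t, HasDerivAt E (E' s) s) (A : ℝ → ℝ)
    (hA : ∀ s ∈ Icc (0:ℝ) t, HasDerivAt A (a s) s)
    (hK : ∀ s ∈ Icc (0:ℝ) t, E' s ≤ a s * E s) : E t ≤ E 0 * Real.exp (A t - A 0) := by
  set f : ℝ → ℝ := fun s => E s * Real.exp (-(A s)) with hf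
  have hfd : ∀ s ∈ Icc (0:ℝ) t, HasDerivAt f ((E' s - a s * E s) * Real.exp (-(A s))) s := by
    intro s hs
    have h2 := (hE s hs).mul ((hA s hs).fun_neg).exp
    refine h2.congr_deriv ?_
    ring
  have hanti : AntitoneOn f (Icc 0 t) := by
    refine antitoneOn_of_deriv_nonpos (convex_Icc 0 t)
      (fun s hs => (hfd s hs).continuousAt.continuousWithinAt)
      (fun s hs => (hfd s (interior_subset hs)).differentiableAt.differentiableWithinAt) ?_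
    intro s hs
    rw [(hfd s (interior_subset hs)).deriv]
    have := hK s (interior_subset hs)
    exact mul_nonpos_of_nonpos_of_nonneg (by linarith) (Real.exp_pos _).le
  have h := hanti (left_mem_Icc.2 ht) (right_mem_Icc.2 ht) ht
  simp only [hf] at h
  calc E t = (E t * Real.exp (-(A t))) * Real.exp (A t) := by
        rw [mul_assoc, ← Real.exp_add]; simp
    _ ≤ (E 0 * Real.exp (-(A 0))) * Real.exp (A t) :=
        mul_le_mul_of_nonneg_right h (Real.exp_pos _).le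
    _ = _ := by rw [mul_assoc, ← Real.exp_add]; congr 2; ring

lemma UU_neg (σ κ t : ℝ) : UU σ κ (-t) = UU (-σ) κ t := by
  unfold UU sc YY DD
  rw [Real.cosh_neg]
  congr 2
  funext τ
  congr 1
  push_cast
  rw [Complex.cosh_neg, Complex.sinh_neg]
  ring

/-- energy bound on the real line -/
lemma UU_energy {σ : ℝ} (hσ2 : σ ^ 2 = 1) {κ : ℝ} (hκ : κ ≠ 0) {t : ℝ} (ht : 0 ≤ t) :
    ‖UU1 σ κ t‖ ^ 2 + κ ^ 2 * ‖UU σ κ t‖ ^ 2 ≤
      (‖UU1 σ κ 0‖ ^ 2 + κ ^ 2 * ‖UU σ κ 0‖ ^ 2) * Real.exp (1 / (4 * |κ|)) := by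
  have hσ : |σ| ≤ 1 := by
    rw [← sq_abs] at hσ2
    nlinarith [abs_nonneg σ]
  have hk : 0 < |κ| := abs_pos.2 hκ
  have hE : ∀ s ∈ Icc (0:ℝ) t, HasDerivAt (fun s => ‖UU1 σ κ s‖ ^ 2 + κ ^ 2 * ‖UU σ κ s‖ ^ 2)
      (2 * (inner ℝ (UU1 σ κ s) (((qq s - κ ^ 2 : ℝ) : ℂ) * UU σ κ s)) +
        κ ^ 2 * (2 * inner ℝ (UU σ κ s) (UU1 σ κ s))) s := by
    intro s _
    exact ((UU1_hasDerivAt hσ2 κ s).norm_sq).add (((UU_hasDerivAt hσ κ s).norm_sq).const_mul _)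
  have hA : ∀ s ∈ Icc (0:ℝ) t, HasDerivAt (fun s => th s / (4 * |κ|)) (qq s / |κ|) s := by
    intro s _
    have := (th_hasDerivAt s).div_const (4 * |κ|)
    refine this.congr_deriv ?_
    field_simp
  have hK : ∀ s ∈ Icc (0:ℝ) t, (2 * (inner ℝ (UU1 σ κ s) (((qq s - κ ^ 2 : ℝ) : ℂ) * UU σ κ s)) +
        κ ^ 2 * (2 * inner ℝ (UU σ κ s) (UU1 σ κ s))) ≤
        qq s / |κ| * (‖UU1 σ κ s‖ ^ 2 + κ ^ 2 * ‖UU σ κ s‖ ^ 2) := by
    intro s _
    have h1 : (2 * (inner ℝ (UU1 σ κ s) (((qq s - κ ^ 2 : ℝ) : ℂ) * UU σ κ s)) +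
        κ ^ 2 * (2 * inner ℝ (UU σ κ s) (UU1 σ κ s))) =
        2 * qq s * inner ℝ (UU1 σ κ s) (UU σ κ s) := by
      simp only [Complex.inner, Complex.mul_re, Complex.mul_im, Complex.conj_re, Complex.conj_im,
        Complex.ofReal_re, Complex.ofReal_im]
      ring
    rw [h1]
    have h2 : inner ℝ (UU1 σ κ s) (UU σ κ s) ≤ ‖UU1 σ κ s‖ * ‖UU σ κ s‖ := real_inner_le_norm _ _
    have h3 := qq_nonneg s
    have h4 : 2 * qq s * inner ℝ (UU1 σ κ s) (UU σ κ s) ≤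
        2 * qq s * (‖UU1 σ κ s‖ * ‖UU σ κ s‖) := mul_le_mul_of_nonneg_left h2 (by positivity)
    refine h4.trans ?_
    rw [div_mul_eq_mul_div, le_div_iff₀ hk]
    have h5 : 2 * ‖UU1 σ κ s‖ * (|κ| * ‖UU σ κ s‖) ≤ ‖UU1 σ κ s‖ ^ 2 + κ ^ 2 * ‖UU σ κ s‖ ^ 2 := by
      rw [← sq_abs κ]
      nlinarith [sq_nonneg (‖UU1 σ κ s‖ - |κ| * ‖UU σ κ s‖)]
    nlinarith [mul_le_mul_of_nonneg_left h5 h3]
  have h := gronwall_real (a := fun s => qq s / |κ|) ht hE (fun s => th s / (4 * |κ|)) hA hK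
  refine h.trans ?_
  refine mul_le_mul_of_nonneg_left (Real.exp_le_exp.2 ?_) (by positivity)
  have h6 : th 0 = 0 := by unfold th; simp
  rw [h6, zero_div, sub_zero]
  have := (abs_le.1 (abs_th_le t)).2
  gcongr

lemma UU_zero_bounds {σ : ℝ} (hσ : |σ| ≤ 1) (κ : ℝ) :
    ‖UU σ κ 0‖ ≤ 26 * dk κ ∧ ‖UU1 σ κ 0‖ ≤ (1 + |κ|) * (26 * dk κ) := by
  have h0 : sc 0 = 1 := by unfold sc; simp
  have h1 : th 0 = 0 := by unfold th; simp
  have hd := dk_pos κ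
  constructor
  · unfold UU
    rw [h0]
    simpa using YY_zero σ κ
  · unfold UU1
    rw [h0, h1]
    have h2 := YY1_zero hσ κ
    have h3 : ‖sx κ‖ ≤ 1 + |κ| := by
      refine le_of_sq_le_sq ?_ (by positivity)
      rw [norm_sx_sq]; unfold lam
      nlinarith [sq_abs κ, abs_nonneg κ]
    have h4 : ‖YY1 σ κ 0‖ ≤ (1 + |κ|) * (26 * dk κ) :=
      h2.trans (mul_le_mul_of_nonneg_right h3 (by positivity))
    simpa using h4

/-- uniform bound of the normalised solution for `|κ| ≥ 1` -/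
theorem UU_bound {σ : ℝ} (hσ2 : σ ^ 2 = 1) {κ : ℝ} (hκ : 1 ≤ |κ|) (t : ℝ) :
    ‖UU σ κ t‖ ≤ 80 * dk κ := by
  -- reduce to `t ≥ 0`
  wlog ht : 0 ≤ t generalizing σ t
  · have h := this (σ := -σ) (by rw [neg_sq]; exact hσ2) (-t) (by linarith)
    rwa [UU_neg, neg_neg] at h
  have hσ : |σ| ≤ 1 := by
    rw [← sq_abs] at hσ2
    nlinarith [abs_nonneg σ]
  have hκ0 : κ ≠ 0 := by
    intro h; rw [h] at hκ; simp at hκ; linarith
  have h := UU_energy hσ2 hκ0 ht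
  obtain ⟨h1, h2⟩ := UU_zero_bounds hσ κ
  have hd := dk_pos κ
  have h3 : Real.exp (1 / (4 * |κ|)) ≤ 3 / 2 := by
    have h4 : 1 / (4 * |κ|) ≤ 1 / 4 := by
      apply one_div_le_one_div_of_le (by norm_num)
      linarith
    have h5 : Real.exp (1 / 4) ≤ 3 / 2 := by
      have h6 : Real.exp (1 / 4 : ℝ) ^ 4 = Real.exp 1 := by
        rw [← Real.exp_nat_mul]; norm_num
      have h7 := Real.exp_one_lt_d9
      by_contra hcon
      push Not at hcon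
      have h8 : (3 / 2 : ℝ) ^ 4 < Real.exp (1 / 4 : ℝ) ^ 4 :=
        pow_lt_pow_left₀ hcon (by norm_num) (by norm_num)
      rw [h6] at h8
      norm_num at h8
      linarith
    exact (Real.exp_le_exp.2 h4).trans h5
  have h9 : ‖UU1 σ κ 0‖ ^ 2 + κ ^ 2 * ‖UU σ κ 0‖ ^ 2 ≤ 5 * κ ^ 2 * (26 * dk κ) ^ 2 := by
    have h10 : ‖UU1 σ κ 0‖ ^ 2 ≤ ((1 + |κ|) * (26 * dk κ)) ^ 2 :=
      pow_le_pow_left₀ (norm_nonneg _) h2 2
    have h11 : ‖UU σ κ 0‖ ^ 2 ≤ (26 * dk κ) ^ 2 := pow_le_pow_left₀ (norm_nonneg _) h1 2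
    have h12 : (1 + |κ|) ^ 2 ≤ 4 * κ ^ 2 := by
      rw [← sq_abs κ]; nlinarith
    rw [mul_pow] at h10
    have h13 := mul_le_mul_of_nonneg_right h12 (sq_nonneg (26 * dk κ))
    have h14 := mul_le_mul_of_nonneg_left h11 (sq_nonneg κ)
    nlinarith
  have h15 : κ ^ 2 * ‖UU σ κ t‖ ^ 2 ≤ κ ^ 2 * (80 * dk κ) ^ 2 := by
    have h16 : κ ^ 2 * ‖UU σ κ t‖ ^ 2 ≤ 5 * κ ^ 2 * (26 * dk κ) ^ 2 * (3 / 2) := by
      have h17 : κ ^ 2 * ‖UU σ κ t‖ ^ 2 ≤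
          (‖UU1 σ κ 0‖ ^ 2 + κ ^ 2 * ‖UU σ κ 0‖ ^ 2) * Real.exp (1 / (4 * |κ|)) := by
        have := sq_nonneg ‖UU1 σ κ t‖
        linarith
      refine h17.trans ?_
      exact mul_le_mul h9 h3 (Real.exp_pos _).le (by positivity)
    have h18 : 0 ≤ κ ^ 2 * dk κ ^ 2 := by positivity
    nlinarith
  have h19 : 0 < κ ^ 2 := by positivity
  have h20 := le_of_mul_le_mul_left h15 h19
  exact le_of_sq_le_sq h20 (by positivity)

end Pool.Agent.Lib_helper37.JO
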