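import Pool.Agent.Lib_helper37.JO.A8

open MeasureTheory Complex Set Filter Topology

namespace Pool.Agent.Lib_helper37.JO

/-! ### The behaviour at `t → -∞` -/

/-- the constant `∫ (cosh τ)^(-1/2)` -/
noncomputable def C0 : ℝ := ∫ τ : ℝ, hc τ

lemma C0_nonneg : 0 ≤ C0 := integral_nonneg (fun τ => (hc_pos τ).le)

lemma YY_crude {σ : ℝ} (hσ : |σ| ≤ 1) (κ t : ℝ) :
    ‖YY σ κ (t : ℂ)‖ ≤ Real.exp (|t| / 2) * C0 := by
  unfold YY C0
  rw [← integral_const_mul]
  refine norm_integral_le_of_norm_le (hc_integrable.const_mul _)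
    (Filter.Eventually.of_forall (fun τ => ?_))
  have h1 : DD σ (t : ℂ) τ = ((Real.cosh τ * Real.cosh t - σ * Real.sinh t : ℝ) : ℂ) := by
    unfold DD; push_cast; ring
  have h2 : Real.exp (-|t|) * Real.cosh τ ≤ Real.cosh τ * Real.cosh t - σ * Real.sinh t := by
    have h := DD_re_ge hσ (t : ℂ) τ (by simp)
    rw [h1] at h
    simp only [Complex.ofReal_im, Real.cos_zero, one_mul, Complex.ofReal_re] at h
    exact h
  have hpos : 0 < Real.exp (-|t|) * Real.cosh τ := mul_pos (Real.exp_pos _) (Real.cosh_pos τ)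
  rw [h1, Complex.norm_cpow_eq_rpow_re_of_pos (lt_of_lt_of_le hpos h2), Complex.neg_re, sx_re]
  calc (Real.cosh τ * Real.cosh t - σ * Real.sinh t) ^ (-(1 / 2) : ℝ) ≤
        (Real.exp (-|t|) * Real.cosh τ) ^ (-(1 / 2) : ℝ) :=
        Real.rpow_le_rpow_of_nonpos hpos h2 (by norm_num)
    _ = Real.exp (|t| / 2) * hc τ := by
        rw [Real.mul_rpow (Real.exp_pos _).le (Real.cosh_pos τ).le, ← Real.exp_mul]
        unfold hc
        congr 2
        ring

lemma UU_crude {σ : ℝ} (hσ : |σ| ≤ 1) (κ t : ℝ) : ‖UU σ κ t‖ ≤ C0 * Real.exp |t| := by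
  unfold UU
  rw [norm_mul, Complex.norm_real, Real.norm_eq_abs, abs_of_pos (sc_pos t)]
  calc sc t * ‖YY σ κ (t : ℂ)‖ ≤ Real.exp (|t| / 2) * (Real.exp (|t| / 2) * C0) :=
        mul_le_mul (sc_le t) (YY_crude hσ κ t) (norm_nonneg _) (Real.exp_pos _).le
    _ = C0 * (Real.exp (|t| / 2) * Real.exp (|t| / 2)) := by ring
    _ = _ := by rw [← Real.exp_add]; congr 2; ring

/-- the two wave amplitudes -/
noncomputable def RP (e σ κ t : ℝ) : ℂ :=
  Complex.exp (-((e : ℂ) * I * κ * t)) * (UU1 σ κ t + (e : ℂ) * I * κ * UU σ κ t)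

/-- derivative of the amplitude -/
noncomputable def RPd (e σ κ t : ℝ) : ℂ :=
  Complex.exp (-((e : ℂ) * I * κ * t)) * (((qq t : ℝ) : ℂ) * UU σ κ t)

lemma RP_hasDerivAt {e σ : ℝ} (he : e ^ 2 = 1) (hσ2 : σ ^ 2 = 1) (κ t : ℝ) :
    HasDerivAt (fun t : ℝ => RP e σ κ t) (RPd e σ κ t) t := by
  have hσ : |σ| ≤ 1 := by
    rw [← sq_abs] at hσ2
    nlinarith [abs_nonneg σ]
  unfold RP RPd
  have h1 : HasDerivAt (fun t : ℝ => -((e : ℂ) * I * κ * t)) (-((e : ℂ) * I * κ)) t := by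
    have h := (Complex.ofRealCLM.hasDerivAt (x := t)).const_mul ((e : ℂ) * I * κ)
    simpa using h.fun_neg
  have h := h1.cexp.mul ((UU1_hasDerivAt hσ2 κ t).add
    ((UU_hasDerivAt hσ κ t).const_mul ((e : ℂ) * I * κ)))
  refine h.congr_deriv ?_
  have he2 : (e : ℂ) ^ 2 = 1 := by
    have : ((e ^ 2 : ℝ) : ℂ) = ((1 : ℝ) : ℂ) := by rw [he]
    push_cast at this
    exact this
  have hI := Complex.I_sq
  simp only [Pi.add_apply]
  push_cast
  linear_combination (-Complex.exp (-((e : ℂ) * I * κ * t)) * UU σ κ t * κ ^ 2 * e ^ 2) * hI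
    + (Complex.exp (-((e : ℂ) * I * κ * t)) * UU σ κ t * κ ^ 2) * he2

lemma norm_exp_aux (e κ t : ℝ) : ‖Complex.exp (-((e : ℂ) * I * κ * t))‖ = 1 := by
  rw [Complex.norm_exp]
  have : (-((e : ℂ) * I * κ * t)).re = 0 := by
    simp
  rw [this, Real.exp_zero]

lemma norm_RPd_le {σ : ℝ} (hσ : |σ| ≤ 1) (e κ t : ℝ) : ‖RPd e σ κ t‖ ≤ C0 * Real.exp (-|t|) := by
  unfold RPd
  rw [norm_mul, norm_exp_aux, one_mul, norm_mul, Complex.norm_real, Real.norm_eq_abs,
    abs_of_nonneg (qq_nonneg t)]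
  calc qq t * ‖UU σ κ t‖ ≤ Real.exp (-(2 * |t|)) * (C0 * Real.exp |t|) :=
        mul_le_mul (qq_le t) (UU_crude hσ κ t) (norm_nonneg _) (Real.exp_pos _).le
    _ = C0 * (Real.exp (-(2 * |t|)) * Real.exp |t|) := by ring
    _ = _ := by rw [← Real.exp_add]; congr 2; ring

lemma RPd_cont {σ : ℝ} (hσ : |σ| ≤ 1) (e κ : ℝ) : Continuous (fun t : ℝ => RPd e σ κ t) := by
  unfold RPd
  have h1 : Continuous (fun t : ℝ => UU σ κ t) :=
    continuous_iff_continuousAt.2 (fun t => (UU_hasDerivAt hσ κ t).continuousAt)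
  have h2 : Continuous (fun t : ℝ => ((qq t : ℝ) : ℂ)) := by
    refine Complex.continuous_ofReal.comp ?_
    unfold qq
    exact continuous_const.div (continuous_const.mul (Real.continuous_cosh.pow 2))
      (fun t => by have := Real.cosh_pos t; positivity)
  have h3 : Continuous (fun t : ℝ => Complex.exp (-((e : ℂ) * I * κ * t))) := by fun_prop
  exact h3.mul (h2.mul h1)

lemma RPd_intOn {σ : ℝ} (hσ : |σ| ≤ 1) (e κ : ℝ) {t : ℝ} (ht : t ≤ 0) :
    IntegrableOn (fun t : ℝ => RPd e σ κ t) (Iic t) := by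
  refine Integrable.mono' (g := fun s => C0 * Real.exp s) ((integrableOn_exp_Iic t).const_mul C0)
    (RPd_cont hσ e κ).aestronglyMeasurable ?_
  rw [ae_restrict_iff' measurableSet_Iic]
  refine Filter.Eventually.of_forall (fun s hs => ?_)
  have h := norm_RPd_le hσ e κ s
  rwa [abs_of_nonpos (le_trans hs ht), neg_neg] at h

/-- the limit amplitude -/
noncomputable def rp (e σ κ : ℝ) : ℂ := RP e σ κ 0 - ∫ t in Iic (0:ℝ), RPd e σ κ t

lemma RP_sub_rp {e σ : ℝ} (he : e ^ 2 = 1) (hσ2 : σ ^ 2 = 1) (κ : ℝ) {t : ℝ} (ht : t ≤ 0) :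
    ‖RP e σ κ t - rp e σ κ‖ ≤ C0 * Real.exp t := by
  have hσ : |σ| ≤ 1 := by
    rw [← sq_abs] at hσ2
    nlinarith [abs_nonneg σ]
  have h1 := RPd_intOn hσ e κ ht
  have h2 := RPd_intOn hσ e κ (le_refl (0:ℝ))
  have h3 : (∫ s in Iic (0:ℝ), RPd e σ κ s) - (∫ s in Iic t, RPd e σ κ s) =
      ∫ s in t..0, RPd e σ κ s := intervalIntegral.integral_Iic_sub_Iic h1 h2
  have h4 : ∫ s in t..0, RPd e σ κ s = RP e σ κ 0 - RP e σ κ t :=
    intervalIntegral.integral_eq_sub_of_hasDerivAt (fun s _ => RP_hasDerivAt he hσ2 κ s)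
      ((RPd_cont hσ e κ).intervalIntegrable _ _)
  have h5 : RP e σ κ t - rp e σ κ = ∫ s in Iic t, RPd e σ κ s := by
    unfold rp
    rw [h4] at h3
    linear_combination h3
  rw [h5]
  calc ‖∫ s in Iic t, RPd e σ κ s‖ ≤ ∫ s in Iic t, C0 * Real.exp s := by
        refine norm_integral_le_of_norm_le ((integrableOn_exp_Iic t).const_mul C0) ?_
        rw [ae_restrict_iff' measurableSet_Iic]
        refine Filter.Eventually.of_forall (fun s hs => ?_)
        have h := norm_RPd_le hσ e κ s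
        rwa [abs_of_nonpos (le_trans hs ht), neg_neg] at h
    _ = C0 * Real.exp t := by rw [integral_const_mul, integral_exp_Iic]

lemma norm_rp_le {e σ : ℝ} (he : e ^ 2 = 1) (hσ2 : σ ^ 2 = 1) (κ : ℝ) :
    ‖rp e σ κ‖ ≤ (52 + C0) * ((1 + |κ|) * dk κ) := by
  have hσ : |σ| ≤ 1 := by
    rw [← sq_abs] at hσ2
    nlinarith [abs_nonneg σ]
  have h1 := RP_sub_rp he hσ2 κ (le_refl (0:ℝ))
  rw [Real.exp_zero, mul_one] at h1
  obtain ⟨h2, h3⟩ := UU_zero_bounds hσ κ
  have hd := dk_pos κ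
  have hea : |e| = 1 := by
    rw [← sq_abs] at he
    nlinarith [abs_nonneg e]
  have h4 : ‖RP e σ κ 0‖ ≤ 52 * ((1 + |κ|) * dk κ) := by
    unfold RP
    rw [norm_mul, norm_exp_aux, one_mul]
    refine (norm_add_le _ _).trans ?_
    rw [norm_mul, norm_mul, norm_mul, Complex.norm_real, Complex.norm_I, Complex.norm_real,
      Real.norm_eq_abs, Real.norm_eq_abs, hea, one_mul, one_mul]
    have h5 : |κ| * ‖UU σ κ 0‖ ≤ (1 + |κ|) * (26 * dk κ) := by
      have : |κ| * ‖UU σ κ 0‖ ≤ |κ| * (26 * dk κ) := mul_le_mul_of_nonneg_left h2 (abs_nonneg _)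
      nlinarith
    linarith
  have h6 : 1 ≤ (1 + |κ|) * dk κ := by
    have h7 : (1 + |κ|) * dk κ = (1 + |κ|) ^ (1 / 2 : ℝ) := by
      unfold dk
      have h : 0 < 1 + |κ| := by positivity
      nth_rw 1 [← Real.rpow_one (1 + |κ|)]
      rw [← Real.rpow_add h]
      norm_num
    rw [h7]
    exact Real.one_le_rpow (by linarith [abs_nonneg κ]) (by norm_num)
  calc ‖rp e σ κ‖ = ‖RP e σ κ 0 - (RP e σ κ 0 - rp e σ κ)‖ := by congr 1; ring
    _ ≤ ‖RP e σ κ 0‖ + ‖RP e σ κ 0 - rp e σ κ‖ := norm_sub_le _ _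
    _ ≤ 52 * ((1 + |κ|) * dk κ) + C0 := add_le_add h4 h1
    _ ≤ _ := by nlinarith [C0_nonneg]

/-! ### continuity in `κ` -/

lemma WW_cont_kappa {σ : ℝ} (hσ : |σ| ≤ 1) (j : ℕ) {v : ℂ} (hv : 0 < Real.cos v.im) :
    Continuous (fun κ : ℝ => WW σ κ j v) := by
  rw [continuous_iff_continuousAt]
  intro κ
  have hkey : ContinuousAt (fun κ : ℝ => ∫ τ : ℝ, TT σ κ j v τ) κ := by
    refine continuousAt_of_dominated (bound := fun τ =>
      ((Real.cos v.im * Real.exp (-|v.re|)) ^ (-(1 / 2) : ℝ) * Real.exp (Real.pi * (|κ| + 1)) *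
      (2 * Real.cosh |v.re| / (Real.cos v.im * Real.exp (-|v.re|))) ^ j) * hc τ) ?_ ?_
      (hc_integrable.const_mul _) ?_
    · exact Filter.Eventually.of_forall (fun k => (TT_cont hσ k j hv).aestronglyMeasurable)
    · have hn : ∀ᶠ k : ℝ in 𝓝 κ, |k| < |κ| + 1 :=
        (continuous_abs.tendsto κ).eventually (gt_mem_nhds (by linarith))
      filter_upwards [hn] with k hk
      refine Filter.Eventually.of_forall (fun τ => ?_)
      refine (norm_TT_le hσ k j τ le_rfl hv le_rfl).trans ?_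
      have hk' := hk.le
      have := (hc_pos τ).le
      have := Real.cosh_pos |v.re|
      have hpi := Real.pi_pos
      gcongr
    · refine Filter.Eventually.of_forall (fun τ => ?_)
      have h2 : Continuous (fun k : ℝ => -(sx k)) := by
        unfold sx; fun_prop
      have h3 : ContinuousAt (fun k : ℝ => DD σ v τ ^ (-(sx k))) κ :=
        continuousAt_const.cpow h2.continuousAt (DD_slit hσ v τ hv)
      unfold TT PP
      exact h3.mul continuousAt_const
  exact hkey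

lemma UU_cont_kappa {σ : ℝ} (hσ : |σ| ≤ 1) (t : ℝ) : Continuous (fun κ : ℝ => UU σ κ t) := by
  unfold UU
  simp_rw [YY_eq]
  exact continuous_const.mul (WW_cont_kappa hσ 0 (cos_im_real t))

lemma UU1_cont_kappa {σ : ℝ} (hσ : |σ| ≤ 1) (t : ℝ) : Continuous (fun κ : ℝ => UU1 σ κ t) := by
  unfold UU1 YY1
  simp_rw [YY_eq]
  have h0 : Continuous (fun k : ℝ => -(sx k)) := by
    unfold sx; fun_prop
  exact continuous_const.mul ((h0.mul (WW_cont_kappa hσ 1 (cos_im_real t))).add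
    (continuous_const.mul (WW_cont_kappa hσ 0 (cos_im_real t))))

lemma RP_cont_kappa {σ : ℝ} (hσ : |σ| ≤ 1) (e t : ℝ) : Continuous (fun κ : ℝ => RP e σ κ t) := by
  unfold RP
  have h1 : Continuous (fun κ : ℝ => Complex.exp (-((e : ℂ) * I * κ * t))) := by fun_prop
  have h2 : Continuous (fun κ : ℝ => (e : ℂ) * I * κ) := by fun_prop
  exact h1.mul ((UU1_cont_kappa hσ t).add (h2.mul (UU_cont_kappa hσ t)))

lemma rp_measurable {e σ : ℝ} (he : e ^ 2 = 1) (hσ2 : σ ^ 2 = 1) :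
    Measurable (fun κ : ℝ => rp e σ κ) := by
  have hσ : |σ| ≤ 1 := by
    rw [← sq_abs] at hσ2
    nlinarith [abs_nonneg σ]
  refine measurable_of_tendsto_metrizable (f := fun (n : ℕ) (κ : ℝ) => RP e σ κ (-(n : ℝ)))
    (fun n => (RP_cont_kappa hσ e _).measurable) ?_
  rw [tendsto_pi_nhds]
  intro κ
  rw [tendsto_iff_norm_sub_tendsto_zero]
  have h1 : Tendsto (fun n : ℕ => C0 * Real.exp (-(n : ℝ))) atTop (𝓝 0) := by
    have := (Real.tendsto_exp_neg_atTop_nhds_zero.comp tendsto_natCast_atTop_atTop).const_mul C0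
    simpa using this
  exact squeeze_zero (fun n => norm_nonneg _)
    (fun n => RP_sub_rp he hσ2 κ (by simp)) h1

/-! ### The Riemann-Lebesgue statement away from `κ = 0` -/

lemma UU_split (σ κ t : ℝ) (hκ : κ ≠ 0) : UU σ κ t = 1 / (2 * I * κ) *
    (Complex.exp (I * κ * t) * RP 1 σ κ t - Complex.exp (-(I * κ * t)) * RP (-1) σ κ t) := by
  have hk : (κ : ℂ) ≠ 0 := by exact_mod_cast hκ
  have hI := Complex.I_ne_zero
  unfold RP
  have h1 : Complex.exp (I * κ * t) * Complex.exp (-(((1:ℝ) : ℂ) * I * κ * t)) = 1 := by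
    rw [← Complex.exp_add]; simp
  have h2 : Complex.exp (-(I * κ * t)) * Complex.exp (-(((-1:ℝ) : ℂ) * I * κ * t)) = 1 := by
    rw [← Complex.exp_add]; simp
  rw [← mul_assoc, ← mul_assoc, h1, h2]
  push_cast
  field_simp
  ring

lemma RL_tendsto (f : ℝ → ℂ) (s : ℝ) (hs : s ≠ 0) :
    Tendsto (fun t : ℝ => ∫ κ : ℝ, Complex.exp (s * I * κ * t) * f κ) atBot (𝓝 0) := by
  have h := Real.tendsto_integral_exp_smul_cocompact f
  have h1 : Tendsto (fun t : ℝ => -(s * t / (2 * Real.pi))) atBot (cocompact ℝ) := by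
    have h2 : Tendsto (fun t : ℝ => (-(s / (2 * Real.pi))) * t) (cocompact ℝ) (cocompact ℝ) := by
      have hne : -(s / (2 * Real.pi)) ≠ 0 := by
        have := Real.pi_pos
        rw [neg_ne_zero]
        positivity
      exact (Homeomorph.mulLeft₀ _ hne).isClosedEmbedding.tendsto_cocompact
    have h3 : Tendsto (fun t : ℝ => t) atBot (cocompact ℝ) := by
      rw [cocompact_eq_atBot_atTop]; exact tendsto_id.mono_right le_sup_left
    refine (h2.comp h3).congr (fun t => ?_)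
    simp only [Function.comp]; ring
  refine (h.comp h1).congr (fun t => ?_)
  simp only [Function.comp]
  congr 1
  funext κ
  rw [Circle.smul_def, Real.fourierChar_apply, smul_eq_mul]
  congr 2
  have hpi : (Real.pi : ℂ) ≠ 0 := by exact_mod_cast Real.pi_ne_zero
  push_cast
  field_simp

/-- the Riemann-Lebesgue statement for amplitudes divisible by `κ` -/
theorem RL_part {σ : ℝ} (hσ2 : σ ^ 2 = 1) (m : ℝ → ℂ)
    (hm : Integrable (fun κ : ℝ => m κ / κ * ((1 + |κ|) ^ (1 / 2 : ℝ) : ℝ))) :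
    Tendsto (fun t : ℝ => ∫ κ : ℝ, m κ * UU σ κ t) atBot (𝓝 0) := by
  have hσ : |σ| ≤ 1 := by
    rw [← sq_abs] at hσ2
    nlinarith [abs_nonneg σ]
  have hd2 : ∀ κ : ℝ, (1 + |κ|) * dk κ = (1 + |κ|) ^ (1 / 2 : ℝ) := by
    intro κ
    unfold dk
    have h : 0 < 1 + |κ| := by positivity
    nth_rw 1 [← Real.rpow_one (1 + |κ|)]
    rw [← Real.rpow_add h]
    norm_num
  have hge : ∀ κ : ℝ, (1:ℝ) ≤ (1 + |κ|) ^ (1 / 2 : ℝ) := fun κ =>
    Real.one_le_rpow (by linarith [abs_nonneg κ]) (by norm_num)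
  -- the function m / κ
  have hcw : Continuous (fun κ : ℝ => (((1 + |κ|) ^ (1 / 2 : ℝ) : ℝ) : ℂ)) := by
    refine Complex.continuous_ofReal.comp ?_
    exact (continuous_const.add continuous_abs).rpow_const
      (fun κ => Or.inl (by have := abs_nonneg κ; show (1 + |κ|) ≠ 0; positivity))
  have hn_meas : AEStronglyMeasurable (fun κ : ℝ => m κ / κ) volume := by
    have h1 : AEStronglyMeasurable (fun κ : ℝ => (m κ / κ * ((1 + |κ|) ^ (1 / 2 : ℝ) : ℝ)) *
        (((1 + |κ|) ^ (1 / 2 : ℝ) : ℝ) : ℂ)⁻¹) volume :=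
      hm.aestronglyMeasurable.mul (hcw.inv₀ (fun κ => by
        have := (hge κ)
        have h2 : (1 + |κ|) ^ (1 / 2 : ℝ) ≠ 0 := by linarith
        exact_mod_cast h2)).aestronglyMeasurable
    refine h1.congr (Filter.Eventually.of_forall (fun κ => ?_))
    have := (hge κ)
    have h2 : (((1 + |κ|) ^ (1 / 2 : ℝ) : ℝ) : ℂ) ≠ 0 := by
      have h3 : (1 + |κ|) ^ (1 / 2 : ℝ) ≠ 0 := by linarith
      exact_mod_cast h3
    simp only []
    rw [mul_assoc, mul_inv_cancel₀ h2, mul_one]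
  have hn_int : Integrable (fun κ : ℝ => m κ / κ) := by
    refine hm.mono hn_meas (Filter.Eventually.of_forall (fun κ => ?_))
    rw [norm_mul, Complex.norm_real, Real.norm_eq_abs, abs_of_pos (by linarith [hge κ])]
    nlinarith [norm_nonneg (m κ / (κ : ℂ)), hge κ]
  -- the amplitudes
  set f : ℝ → ℝ → ℂ := fun e κ => m κ / κ / (2 * I) * rp e σ κ with hf
  have hfint : ∀ e : ℝ, e ^ 2 = 1 → Integrable (f e) := by
    intro e he
    refine Integrable.mono (hm.const_mul (((52 + C0 : ℝ) : ℂ)))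
      ((hn_meas.mul aestronglyMeasurable_const).mul (rp_measurable he hσ2).aestronglyMeasurable) ?_
    refine Filter.Eventually.of_forall (fun κ => ?_)
    simp only [hf]
    have h1 := norm_rp_le he hσ2 κ
    rw [hd2] at h1
    rw [norm_mul, norm_div (m κ / (κ : ℂ)), norm_mul (((52 + C0 : ℝ) : ℂ)), norm_mul (m κ / (κ : ℂ)), Complex.norm_real,
      Complex.norm_real, Real.norm_eq_abs, Real.norm_eq_abs, abs_of_pos (by linarith [C0_nonneg]),
      abs_of_pos (by linarith [hge κ])]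
    have h2 : ‖(2 * I : ℂ)‖ = 2 := by simp
    rw [h2]
    have h3 : 0 ≤ ‖m κ / (κ : ℂ)‖ := norm_nonneg _
    calc ‖m κ / (κ : ℂ)‖ / 2 * ‖rp e σ κ‖ ≤
          ‖m κ / (κ : ℂ)‖ / 2 * ((52 + C0) * (1 + |κ|) ^ (1 / 2 : ℝ)) :=
          mul_le_mul_of_nonneg_left h1 (by positivity)
      _ ≤ _ := by
          have h4 : 0 ≤ ‖m κ / (κ : ℂ)‖ * ((52 + C0) * (1 + |κ|) ^ (1 / 2 : ℝ)) :=
            mul_nonneg h3 (mul_nonneg (by linarith [C0_nonneg]) (by linarith [hge κ]))
          nlinarith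
  -- the error
  set err : ℝ → ℝ → ℂ := fun t κ => m κ / κ / (2 * I) *
    (Complex.exp (I * κ * t) * (RP 1 σ κ t - rp 1 σ κ) -
      Complex.exp (-(I * κ * t)) * (RP (-1) σ κ t - rp (-1) σ κ)) with herr
  have hexp1 : ∀ κ t : ℝ, ‖Complex.exp (I * κ * t)‖ = 1 := by
    intro κ t
    rw [Complex.norm_exp]
    have : (I * κ * t : ℂ).re = 0 := by simp
    rw [this, Real.exp_zero]
  have hexp2 : ∀ κ t : ℝ, ‖Complex.exp (-(I * κ * t))‖ = 1 := by
    intro κ t
    rw [Complex.norm_exp]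
    have : (-(I * κ * t) : ℂ).re = 0 := by simp
    rw [this, Real.exp_zero]
  have h11 : (1:ℝ) ^ 2 = 1 := by norm_num
  have h12 : (-1:ℝ) ^ 2 = 1 := by norm_num
  have herr_le : ∀ t ≤ (0:ℝ), ∀ κ, ‖err t κ‖ ≤ C0 * Real.exp t * ‖m κ / (κ : ℂ)‖ := by
    intro t ht κ
    simp only [herr]
    rw [norm_mul, norm_div (m κ / (κ : ℂ))]
    have h2 : ‖(2 * I : ℂ)‖ = 2 := by simp
    rw [h2]
    have h3 : ‖Complex.exp (I * κ * t) * (RP 1 σ κ t - rp 1 σ κ) -
      Complex.exp (-(I * κ * t)) * (RP (-1) σ κ t - rp (-1) σ κ)‖ ≤ 2 * (C0 * Real.exp t) := by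
      refine (norm_sub_le _ _).trans ?_
      rw [norm_mul, norm_mul, hexp1, hexp2, one_mul, one_mul, two_mul]
      exact add_le_add (RP_sub_rp h11 hσ2 κ ht) (RP_sub_rp h12 hσ2 κ ht)
    calc ‖m κ / (κ : ℂ)‖ / 2 * _ ≤ ‖m κ / (κ : ℂ)‖ / 2 * (2 * (C0 * Real.exp t)) :=
          mul_le_mul_of_nonneg_left h3 (by positivity)
      _ = _ := by ring
  have herr_meas : ∀ t, AEStronglyMeasurable (err t) volume := by
    intro t
    have hc1 : Continuous (fun κ : ℝ => Complex.exp (I * κ * t)) := by fun_prop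
    have hc2 : Continuous (fun κ : ℝ => Complex.exp (-(I * κ * t))) := by fun_prop
    refine (hn_meas.mul aestronglyMeasurable_const).mul ?_
    exact (hc1.aestronglyMeasurable.mul ((RP_cont_kappa hσ 1 t).aestronglyMeasurable.sub
      (rp_measurable h11 hσ2).aestronglyMeasurable)).sub
      (hc2.aestronglyMeasurable.mul ((RP_cont_kappa hσ (-1) t).aestronglyMeasurable.sub
      (rp_measurable h12 hσ2).aestronglyMeasurable))
  have herr_int : ∀ t ≤ (0:ℝ), Integrable (err t) := by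
    intro t ht
    refine Integrable.mono' (hn_int.norm.const_mul (C0 * Real.exp t)) (herr_meas t)
      (Filter.Eventually.of_forall (herr_le t ht))
  -- decomposition of the integral
  have hdec : ∀ t ≤ (0:ℝ), ∫ κ : ℝ, m κ * UU σ κ t =
      (∫ κ : ℝ, Complex.exp ((1:ℝ) * I * κ * t) * f 1 κ) -
      (∫ κ : ℝ, Complex.exp ((-1:ℝ) * I * κ * t) * f (-1) κ) + ∫ κ : ℝ, err t κ := by
    intro t ht
    have hi1 : Integrable (fun κ : ℝ => Complex.exp ((1:ℝ) * I * κ * t) * f 1 κ) := by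
      refine (hfint 1 h11).bdd_mul (c := 1)
        (by have : Continuous (fun κ : ℝ => Complex.exp ((1:ℝ) * I * κ * t)) := by fun_prop
            exact this.aestronglyMeasurable) (Filter.Eventually.of_forall (fun κ => ?_))
      have := hexp1 κ t
      simp only [Complex.ofReal_one, one_mul]
      exact this.le
    have hi2 : Integrable (fun κ : ℝ => Complex.exp ((-1:ℝ) * I * κ * t) * f (-1) κ) := by
      refine (hfint (-1) h12).bdd_mul (c := 1)
        (by have : Continuous (fun κ : ℝ => Complex.exp ((-1:ℝ) * I * κ * t)) := by fun_prop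
            exact this.aestronglyMeasurable) (Filter.Eventually.of_forall (fun κ => ?_))
      have := hexp2 κ t
      have h3 : (((-1:ℝ) : ℂ) * I * κ * t) = -(I * κ * t) := by push_cast; ring
      rw [h3]
      exact this.le
    have hi3 : Integrable (fun κ : ℝ => Complex.exp ((1:ℝ) * I * κ * t) * f 1 κ -
      Complex.exp ((-1:ℝ) * I * κ * t) * f (-1) κ) := hi1.sub hi2
    rw [← integral_sub hi1 hi2, ← integral_add hi3 (herr_int t ht)]
    have hne : ∀ᵐ κ : ℝ, κ ≠ 0 := by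
      have : (volume : Measure ℝ) {0} = 0 := by simp
      rw [ae_iff]
      simpa using this
    refine integral_congr_ae ?_
    filter_upwards [hne] with κ hκ
    have hk : (κ : ℂ) ≠ 0 := by exact_mod_cast hκ
    have hI := Complex.I_ne_zero
    rw [UU_split σ κ t hκ]
    simp only [hf, herr]
    have h3 : (((-1:ℝ) : ℂ) * I * κ * t) = -(I * κ * t) := by push_cast; ring
    have h4 : (((1:ℝ) : ℂ) * I * κ * t) = (I * κ * t) := by push_cast; ring
    rw [h3, h4]
    field_simp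
    ring
  -- the limit
  have hL1 := RL_tendsto (f 1) 1 one_ne_zero
  have hL2 := RL_tendsto (f (-1)) (-1) (by norm_num)
  have hL3 : Tendsto (fun t : ℝ => ∫ κ : ℝ, err t κ) atBot (𝓝 0) := by
    have h1 : Tendsto (fun t : ℝ => C0 * Real.exp t * ∫ κ : ℝ, ‖m κ / (κ : ℂ)‖) atBot (𝓝 0) := by
      have := (Real.tendsto_exp_atBot.const_mul C0).mul_const (∫ κ : ℝ, ‖m κ / (κ : ℂ)‖)
      simpa using this
    refine squeeze_zero_norm' ?_ h1
    filter_upwards [eventually_le_atBot (0:ℝ)] with t ht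
    rw [← integral_const_mul]
    exact norm_integral_le_of_norm_le (hn_int.norm.const_mul _)
      (Filter.Eventually.of_forall (herr_le t ht))
  have hsum := (hL1.sub hL2).add hL3
  simp only [sub_zero, add_zero] at hsum
  refine hsum.congr' ?_
  filter_upwards [eventually_le_atBot (0:ℝ)] with t ht
  exact (hdec t ht).symm

end Pool.Agent.Lib_helper37.JO
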